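import Pool.Agent.H87.PZ.SCut

/-!
# Module SFin: Lemma S

Case `2s < a`: `sP s a = a`, the exponent is `0`, `wS = len^(1+a+2s) om ≤ wN` (`len^(2s) ≤ 1 + len^β`), so `SS(G) ≤ XN(G) ≤ XN(g) + η/2` (`XN_reg`) and `0 ≤ Dn + η/2` (`Dn_ge`). Case `a ≤ 2s`:
`Λ, K` of `s_cut`, `G = g + δ gau` (`gd_reg`). `η' = η/(2K+2)`: `δ₀` the minimum of those of `Pc_lim`, `XN_reg` for `η'`, and `1/2`. For `t > 0` fixed and eventually all small `ε ≤ t` (`Pc_lim`, `Ioc_mem_nhdsGT`; the left side does not depend on `ε`):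
`∫_{PrS Λ t} GG_* wS ≤ K (XN(G) + Pc) ≤ K (XN(g) + Dn + 2η')`. `t = 1/(n+1) → 0`: the sets `PrS Λ (1/(n+1)) v₀` increase to `{0 < len (q.1 - v₀)}` (Archimedes: `2Λ² nsq (q.1-v₀) > 0`), whose complement is a null set (`ae_off`);
`tendsto_setIntegral_of_monotone` (`wS_int`, `PrS_meas`), `le_of_tendsto'`, `setIntegral_congr_set`/`Measure.restrict_eq_self_of_ae_mem`.
-/

set_option autoImplicit false

open MeasureTheory Set Filter Topology Pool.Agent.H25.Kin Pool.Agent.H48.PL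
open Pool.Agent.H82.CM
open Pool.Agent.H15.AV (gau UNice)
open Pool.Agent.H48.PI (Dn)
open Pool.Agent.H87.PF (wN XN wS SS AnnS PrN PrS WA Sn Sm Sd)

namespace Pool.Agent.H87.PZ

variable {d : ℕ} {s a β C Ca cb : ℝ} {b : ℝ → ℝ}

private lemma sf_mono (Λ : ℝ) (v₀ : Vec d) : Monotone fun n : ℕ => PrS Λ (1 / ((n : ℝ) + 1)) v₀ := by
  intro m n hmn q hq
  obtain ⟨h1, h2⟩ := hq
  refine ⟨h1, le_trans ?_ h2⟩
  have h3 : 1 / ((n : ℝ) + 1) ≤ 1 / ((m : ℝ) + 1) :=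
    one_div_le_one_div_of_le (by positivity) (by have : (m : ℝ) ≤ n := by exact_mod_cast hmn
                                                 linarith)
  exact mul_le_mul_of_nonneg_right h3 (sq_nonneg' _)

private lemma sf_union {Λ : ℝ} (hΛ : 4 ≤ Λ) (hd : 1 ≤ d) (v₀ : Vec d) :
    (⋃ n : ℕ, PrS Λ (1 / ((n : ℝ) + 1)) v₀) =ᵐ[(volume : Measure (Vec d × Vec d))] univ := by
  rw [eventuallyEq_univ]
  filter_upwards [ae_off hd v₀] with q hq
  have h1 : 0 < len (q.1 - v₀) := len_sub_pos.2 hq.2.1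
  have h2 : 0 < 2 * Λ ^ 2 * nsq (q.1 - v₀) := by
    rw [← len_sq]
    positivity
  obtain ⟨n, hn⟩ := exists_nat_gt (nsq (q.1 - q.2) / (2 * Λ ^ 2 * nsq (q.1 - v₀)))
  refine mem_iUnion.2 ⟨n, h1, ?_⟩
  rw [div_lt_iff₀ h2] at hn
  rw [one_div, inv_mul_le_iff₀ (by positivity)]
  nlinarith

private lemma sf_pt (hs : 0 < s) (_ : 0 ≤ a) (h2 : 2 * s < β) (h : 2 * s ≤ a) {V : ℝ} (hV : 1 ≤ V)
    (v₀ : Vec d) (q : Vec d × Vec d) : wS s a β V v₀ q ≤ wN a β V q := by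
  unfold wS wN
  have e0 : 2 * (a - Pool.Agent.H48.PW.sP s a) = 0 := by
    rw [sP_large h]
    ring
  rw [e0, Real.rpow_zero, mul_one]
  have hl : 0 ≤ len (q.1 - q.2) := Real.sqrt_nonneg _
  have e1 : len (q.1 - q.2) ^ (1 + a + 2 * s) = len (q.1 - q.2) ^ (1 + a) * len (q.1 - q.2) ^ (2 * s) :=
    Real.rpow_add_of_nonneg hl (by linarith) (by linarith)
  have e2 : len (q.1 - q.2) ^ (2 * s) ≤ 1 + len (q.1 - q.2) ^ β := by
    rcases le_total (len (q.1 - q.2)) 1 with h1 | h1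
    · have := Real.rpow_le_one hl h1 (by linarith : 0 ≤ 2 * s)
      have := Real.rpow_nonneg hl β
      linarith
    · have := Real.rpow_le_rpow_of_exponent_le h1 h2.le
      linarith
  rw [e1]
  exact mul_le_mul_of_nonneg_right (mul_le_mul_of_nonneg_left e2 (Real.rpow_nonneg hl _))
    (om_nn hV (RR_pos q.1 q.2).le)

private theorem sf_large (H : Hyp d (1 + a) s b C Ca) (E : EP0 s a β) (h : 2 * s ≤ a) : ∃ K : ℝ, 0 ≤ K ∧
    ∀ (Cl : ℕ → ℝ) (η : ℝ), 0 < η → ∃ δ₀ > 0, ∀ δ ∈ Ioc (0 : ℝ) δ₀, ∀ g : Vec d → ℝ,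
      UNice Cl g → ∀ V : ℝ, 1 ≤ V → ∀ v₀ : Vec d,
      SS s a β V v₀ (fun v => g v + δ * gau v) ≤
        K * (Dn (1 + a) b δ g + XN a β V g) + η := by
  refine ⟨1, zero_le_one, fun Cl η hη => ?_⟩
  obtain ⟨δa, hδa, hδah, hPc⟩ := Pool.Agent.H87.PE.Pc_lim H Cl (half_pos hη)
  obtain ⟨δb, hδb, hXN⟩ := XN_reg (d := d) E Cl (half_pos hη)
  refine ⟨min δa δb, lt_min hδa hδb, fun δ hδ g hg V hV v₀ => ?_⟩
  have hd0 : 0 < δ := hδ.1
  have hda : δ ≤ δa := hδ.2.trans (min_le_left _ _)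
  have hdb : δ ≤ δb := hδ.2.trans (min_le_right _ _)
  have hd1 : δ ≤ 1 := by linarith
  have hG := Pool.Agent.H87.PE.gd_reg hg hd0 hd1
  obtain ⟨hD, -⟩ := hPc δ ⟨hd0, hda⟩ g hg
  have hx := hXN δ ⟨hd0, hdb⟩ g hg V hV
  have hint := wS_int (s := s) (a := a) (β := β) H.hd E hG.rd hG.cont hV v₀
  have hint2 := wN_int (s := s) (a := a) (β := β) E hG.rd hG.cont hV
  have h1 : SS s a β V v₀ (fun v => g v + δ * gau v) ≤ XN a β V (fun v => g v + δ * gau v) := by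
    unfold SS XN
    exact integral_mono hint hint2 fun q =>
      mul_le_mul_of_nonneg_left (sf_pt E.hs E.ha E.hβ h hV v₀ q)
        (mul_nonneg (hG.pos q.1).le (hG.pos q.2).le)
  linarith

theorem sing_G (HL : HypL d (1 + a) s b C Ca cb) (E : EP0 s a β) : ∃ K : ℝ, 0 ≤ K ∧
    ∀ (Cl : ℕ → ℝ) (η : ℝ), 0 < η → ∃ δ₀ > 0, ∀ δ ∈ Ioc (0 : ℝ) δ₀, ∀ g : Vec d → ℝ,
      UNice Cl g → ∀ V : ℝ, 1 ≤ V → ∀ v₀ : Vec d,
      SS s a β V v₀ (fun v => g v + δ * gau v) ≤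
        K * (Dn (1 + a) b δ g + XN a β V g) + η := by
  have H := HL.H
  rcases le_total (2 * s) a with has | has
  · exact sf_large H E has
  obtain ⟨Λ, K, hΛ, hK, hcut⟩ := s_cut HL E has
  refine ⟨K, hK, fun Cl η hη => ?_⟩
  set η' : ℝ := η / (2 * K + 2) with hη'
  have hD : 0 < 2 * K + 2 := by linarith
  have hη'0 : 0 < η' := div_pos hη hD
  have hηB : (2 * K + 2) * η' = η := by
    rw [hη']
    field_simp
  obtain ⟨δa, hδa, hδah, hPc⟩ := Pool.Agent.H87.PE.Pc_lim H Cl hη'0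
  obtain ⟨δb, hδb, hXN⟩ := XN_reg (d := d) E Cl hη'0
  refine ⟨min δa δb, lt_min hδa hδb, fun δ hδ g hg V hV v₀ => ?_⟩
  have hd0 : 0 < δ := hδ.1
  have hda : δ ≤ δa := hδ.2.trans (min_le_left _ _)
  have hdb : δ ≤ δb := hδ.2.trans (min_le_right _ _)
  have hd1 : δ ≤ 1 := by linarith
  have hG := Pool.Agent.H87.PE.gd_reg hg hd0 hd1
  obtain ⟨-, hev⟩ := hPc δ ⟨hd0, hda⟩ g hg
  have hx := hXN δ ⟨hd0, hdb⟩ g hg V hV
  have hint := wS_int (s := s) (a := a) (β := β) H.hd E hG.rd hG.cont hV v₀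
  have key : ∀ t : ℝ, 0 < t → ∫ q in PrS Λ t v₀, (g q.1 + δ * gau q.1) *
      (g q.2 + δ * gau q.2) * wS s a β V v₀ q ≤
        K * (Dn (1 + a) b δ g + XN a β V g) + η := by
    intro t ht
    have h1 : ∀ᶠ ε in 𝓝[>] (0 : ℝ), ε ∈ Ioc (0 : ℝ) t := Ioc_mem_nhdsGT ht
    obtain ⟨ε, hPε, hε⟩ := (hev.and h1).exists
    have h2 := hcut _ hG V hV v₀ t ht ε hε.1 hε.2
    have h3 : K * (XN a β V (fun v => g v + δ * gau v) +
        Pool.Agent.H87.PE.Pc (1 + a) b ε (fun v => g v + δ * gau v)) ≤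
        K * ((XN a β V g + η') + (Dn (1 + a) b δ g + η')) :=
      mul_le_mul_of_nonneg_left (add_le_add hx hPε) hK
    linarith
  have hlim := tendsto_setIntegral_of_monotone (μ := (volume : Measure (Vec d × Vec d)))
    (fun n : ℕ => PrS_meas Λ (1 / ((n : ℝ) + 1)) v₀) (sf_mono Λ v₀) hint.integrableOn
  rw [setIntegral_congr_set (sf_union hΛ H.hd1 v₀), setIntegral_univ] at hlim
  exact le_of_tendsto' hlim fun n => key _ (by positivity)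

end Pool.Agent.H87.PZ
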