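import Pool.Agent.H87.PZ.WInt

/-!
# Module XTc: comparison with `XT`

`q = (v,w)`, `L = len (v-w)`, `J = jb (v-w) = √(1+L²)`, `o = om β V R ≥ 0`, weight of `XT`: `wT = L^(1+a) J^β o`, and `wN = L^(1+a) (1+L^β) o`.
`1 ≤ J`, `L ≤ J`, so `1 + L^β ≤ 2 J^β`; and `J^β = (1+L²)^(β/2) ≤ 1 + L^β` (`β/2 ≤ 1`). So `wT ≤ wN ≤ 2 wT`; the integrand of `XT` is integrable (`wN_int`), and
`XN ≤ 2 XT ≤ 4 XT`.
-/

set_option autoImplicit false

open MeasureTheory Set Filter Topology Pool.Agent.H25.Kin Pool.Agent.H48.PL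
open Pool.Agent.H48.PI (om)
open Pool.Agent.H48.PW (XT)
open Pool.Agent.H87.PF (wN XN wS SS AnnS PrN PrS WA Sn Sm Sd)

namespace Pool.Agent.H87.PZ

variable {d : ℕ} {s a β : ℝ}

/-- the weight of `XT` -/
private noncomputable def wT (a β V : ℝ) (q : Vec d × Vec d) : ℝ :=
  len (q.1 - q.2) ^ (1 + a) * jb (q.1 - q.2) ^ β * om β V (RR q.1 q.2)

private lemma jb_pow_ge (hβ : 0 < β) (x : Vec d) : 1 + len x ^ β ≤ 2 * jb x ^ β := by
  have h1 : 1 ≤ jb x ^ β := Real.one_le_rpow (one_le_jb x) hβ.le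
  have h2 : len x ^ β ≤ jb x ^ β := Real.rpow_le_rpow (len_nonneg x) (len_le_jb x) hβ.le
  linarith

private lemma jb_pow_le (hβ : 0 < β) (hβ1 : β < 1) (x : Vec d) : jb x ^ β ≤ 1 + len x ^ β := by
  have h1 : jb x ≤ 1 + len x := by
    have h2 := jb_lip x 0
    have h3 : jb (0 : Vec d) = 1 := by
      unfold jb
      rw [show nsq (0 : Vec d) = 0 by simp [nsq], add_zero, Real.sqrt_one]
    rw [h3, sub_zero] at h2
    have := (abs_le.1 h2).2
    linarith
  calc jb x ^ β ≤ (1 + len x) ^ β := Real.rpow_le_rpow (jb_pos x).le h1 hβ.le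
    _ ≤ 1 ^ β + len x ^ β := Real.rpow_add_le_add_rpow zero_le_one (len_nonneg x) hβ.le hβ1.le
    _ = 1 + len x ^ β := by rw [Real.one_rpow]

private lemma wT_nonneg {V : ℝ} (hV : 1 ≤ V) (q : Vec d × Vec d) : 0 ≤ wT a β V q := by
  unfold wT
  exact mul_nonneg (mul_nonneg (Real.rpow_nonneg (len_nonneg _) _)
    (Real.rpow_nonneg (jb_pos _).le _)) (om_nn hV (RR_pos _ _).le)

private lemma wN_le_wT (E : EP0 s a β) {V : ℝ} (hV : 1 ≤ V) (q : Vec d × Vec d) :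
    wN a β V q ≤ 2 * wT a β V q := by
  unfold wN wT
  have h1 := jb_pow_ge E.β0 (q.1 - q.2)
  have h2 : 0 ≤ len (q.1 - q.2) ^ (1 + a) := Real.rpow_nonneg (len_nonneg _) _
  have h3 := om_nn (β := β) hV (RR_pos q.1 q.2).le
  calc len (q.1 - q.2) ^ (1 + a) * (1 + len (q.1 - q.2) ^ β) * om β V (RR q.1 q.2)
      ≤ len (q.1 - q.2) ^ (1 + a) * (2 * jb (q.1 - q.2) ^ β) * om β V (RR q.1 q.2) :=
        mul_le_mul_of_nonneg_right (mul_le_mul_of_nonneg_left h1 h2) h3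
    _ = 2 * (len (q.1 - q.2) ^ (1 + a) * jb (q.1 - q.2) ^ β * om β V (RR q.1 q.2)) := by ring

private lemma wT_le_wN (E : EP0 s a β) {V : ℝ} (hV : 1 ≤ V) (q : Vec d × Vec d) :
    wT a β V q ≤ wN a β V q := by
  unfold wN wT
  exact mul_le_mul_of_nonneg_right (mul_le_mul_of_nonneg_left (jb_pow_le E.β0 E.hβ1 _)
    (Real.rpow_nonneg (len_nonneg _) _)) (om_nn hV (RR_pos _ _).le)

private lemma wT_meas (hβ : β ≤ 1) (a V : ℝ) : Measurable fun q : Vec d × Vec d => wT a β V q := by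
  unfold wT
  have hj : Measurable fun q : Vec d × Vec d => jb (q.1 - q.2) :=
    (jb_cont.comp (by fun_prop : Continuous fun q : Vec d × Vec d => q.1 - q.2)).measurable
  exact ((m_lenV2.pow_const _).mul (hj.pow_const _)).mul
    ((om_cont' hβ V).comp RR_cont).measurable

private lemma XT_eq {g : Vec d → ℝ} {V : ℝ} : XT a β V g = ∫ q, g q.1 * g q.2 * wT a β V q := by
  unfold XT wT
  congr 1
  funext q
  ring

lemma XT_nonneg {g : Vec d → ℝ} (h0 : ∀ v, 0 ≤ g v) {V : ℝ} (hV : 1 ≤ V) : 0 ≤ XT a β V g := by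
  rw [XT_eq]
  exact integral_nonneg fun q => mul_nonneg (mul_nonneg (h0 _) (h0 _)) (wT_nonneg hV q)

theorem XN_le_XT (E : EP0 s a β) {g : Vec d → ℝ} (hg : RD g) (hgc : Continuous g)
    (h0 : ∀ v, 0 ≤ g v) {V : ℝ} (hV : 1 ≤ V) : XN a β V g ≤ 4 * XT a β V g := by
  have hN := wN_int E hg hgc hV
  have hgm : Measurable fun q : Vec d × Vec d => g q.1 * g q.2 :=
    (hgc.measurable.comp measurable_fst).mul (hgc.measurable.comp measurable_snd)
  have hT : Integrable fun q : Vec d × Vec d => g q.1 * g q.2 * wT a β V q := by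
    refine hN.mono' (hgm.mul (wT_meas E.hβ1.le a V)).aestronglyMeasurable
      (Eventually.of_forall fun q => ?_)
    rw [Real.norm_eq_abs, abs_of_nonneg (mul_nonneg (mul_nonneg (h0 _) (h0 _)) (wT_nonneg hV q))]
    exact mul_le_mul_of_nonneg_left (wT_le_wN E hV q) (mul_nonneg (h0 _) (h0 _))
  have h1 : XN a β V g ≤ 2 * XT a β V g := by
    rw [XT_eq, ← integral_const_mul]
    refine integral_mono hN (hT.const_mul 2) fun q => ?_
    show g q.1 * g q.2 * wN a β V q ≤ 2 * (g q.1 * g q.2 * wT a β V q)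
    have h2 := mul_le_mul_of_nonneg_left (wN_le_wT E hV q) (mul_nonneg (h0 q.1) (h0 q.2))
    linarith
  have h2 := XT_nonneg (a := a) (β := β) h0 hV
  linarith

end Pool.Agent.H87.PZ
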