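import Pool.Agent.H87.PZ.KerA

/-!
# Module AngC: angular integrals of the increments of a cusp function

`N = nsq (v-w)`, `y = 1 - cosTh v w σ ∈ [0,2]`, `r = min ρ 1`. One increment: `h2` for `N y ≤ r²`, `h1` for `N y > r²`; so for `a = 0` its square is at most `4 A² o² min (N y / r²) 1 ^ τ`, and `ker_minN` applies with `N / r²`;
for `0 < a` and `q = sP s a > s` its square is at most `4 A² o² (r^(2a) min (N y / r²) 1 ^ τ + r^(2(a-q)) (N y)^q)`, and `ker_minN` with `N / r²`, `ker_full` (near) and `ker_minN` with `N` (mid) apply.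
-/

set_option autoImplicit false

open MeasureTheory Set Filter Topology Pool.Agent.H25.Kin Pool.Agent.H48.PL
open Pool.Agent.H48.PI (om)
open Pool.Agent.H48.PW (sP)
open Pool.Agent.H87.PE

namespace Pool.Agent.H87.PZ

variable {d : ℕ} {s a β τ C Ca : ℝ} {b : ℝ → ℝ}

/-! ### auxiliary lemmas -/

private lemma AngC_r0 (Q : ℝ) : Q ^ 2 ≤ 4 * Q ^ 2 := by
  have h := sq_nonneg Q
  linarith

private lemma AngC_sq2 (x y : ℝ) : (-(x + y)) ^ 2 ≤ 2 * x ^ 2 + 2 * y ^ 2 := by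
  have h := sq_nonneg (x - y)
  have e : 2 * x ^ 2 + 2 * y ^ 2 - (-(x + y)) ^ 2 = (x - y) ^ 2 := by ring
  linarith

private lemma AngC_two {K P x y : ℝ} (hK : 0 ≤ K) (hP : 0 ≤ P) (hx : 0 ≤ x) (hy : 0 ≤ y) :
    K * (P * (1 + x)) + K * (P * (1 + y)) ≤ 2 * K * (P * (1 + x + y)) := by
  have h := mul_nonneg hK (mul_nonneg hP (add_nonneg hx hy))
  have e : 2 * K * (P * (1 + x + y)) - (K * (P * (1 + x)) + K * (P * (1 + y))) =
      K * (P * (x + y)) := by ring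
  linarith

private lemma AngC_dbl {X A Y Z : ℝ} (hA : 0 ≤ A) (hZ : 0 ≤ Z) (h1 : X ≤ A * Y)
    (h2 : A * Y ≤ A * Z) : X ≤ 2 * A * Z := by
  have h := mul_nonneg hA hZ
  have e : 2 * A * Z = A * Z + A * Z := by ring
  linarith

private lemma AngC_four {Q S T : ℝ} (hS : 0 ≤ S) (hT : 0 ≤ T) :
    Q ^ 2 * T ≤ 4 * Q ^ 2 * (S + T) := by
  have h1 := mul_nonneg (sq_nonneg Q) hS
  have h2 := mul_nonneg (sq_nonneg Q) hT
  have e : 4 * Q ^ 2 * (S + T) = 4 * (Q ^ 2 * S) + 4 * (Q ^ 2 * T) := by ring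
  linarith

private lemma AngC_three {K P J x y : ℝ} (hK : 0 ≤ K) (hP : 0 ≤ P) (hJ : 0 ≤ J) (hx : 0 ≤ x)
    (hy : 0 ≤ y) : K * (P * (1 + x)) + K * (P * (1 + y)) + 2 * ((1 + x + y) * J) ≤
      (2 * K + 2) * ((P + J) * (1 + x + y)) := by
  have hS : 0 ≤ 1 + x + y := by linarith
  have h1 := mul_nonneg hK (mul_nonneg hP (add_nonneg hx hy))
  have h2 := mul_nonneg hK (mul_nonneg hJ hS)
  have h3 := mul_nonneg hP hS
  have e : (2 * K + 2) * ((P + J) * (1 + x + y)) -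
      (K * (P * (1 + x)) + K * (P * (1 + y)) + 2 * ((1 + x + y) * J)) =
      K * (P * (x + y)) + 2 * (K * (J * (1 + x + y))) + 2 * (P * (1 + x + y)) := by ring
  linarith

private lemma AngC_nr {K P R : ℝ} (hK : 0 ≤ K) (hP : 0 ≤ P) (hR : 0 ≤ R) :
    P + K * (P * R) ≤ (1 + K) * (P * (1 + R)) := by
  have h1 := mul_nonneg hP hR
  have h2 := mul_nonneg hK hP
  have e : (1 + K) * (P * (1 + R)) - (P + K * (P * R)) = P * R + K * P := by ring
  linarith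

private lemma AngC_c1 {X A L : ℝ} (hA : 0 ≤ A) (hL : 1 ≤ L) (h : X ≤ 2 * A) :
    X ≤ 4 * A * L := by
  have h1 := mul_le_mul_of_nonneg_left hL (mul_nonneg zero_le_four hA)
  linarith

private lemma AngC_key {U V W R : ℝ} (hV : 0 ≤ V) (h7 : U ≤ V) (h6 : U * R = V)
    (h10 : U * W ≤ U * (2 * R)) : U * (1 + W) ≤ 4 * V := by
  have e : U * (1 + W) = U + U * W := by ring
  have e2 : U * (2 * R) = 2 * V := by
    rw [← h6]
    ring
  linarith

private lemma AngC_q {X A Y Z : ℝ} (h0 : 0 ≤ A * Z) (h1 : X ≤ A * Y)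
    (h2 : A * Y ≤ A * Z) : X ≤ 4 * A * Z := by
  have e : 4 * A * Z = 4 * (A * Z) := by ring
  linarith

private lemma AngC_m (A : ℝ) : (2 * A) ^ 2 ≤ 64 * A ^ 2 * 1 := by
  have h := sq_nonneg A
  have e : (2 * A) ^ 2 = 4 * A ^ 2 := by ring
  linarith

lemma sP_zero (hs : 0 < s) : sP s 0 = s := by
  unfold sP
  rw [zero_div, add_zero]
  exact max_eq_right hs.le

private lemma len_rpow_le {x y : Vec d} {t p : ℝ} (ht : 0 ≤ t) (hp : 0 ≤ p)
    (h : nsq x = nsq y * (t / 2)) : len x ^ p ≤ (nsq y * t) ^ (p / 2) := by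
  have hy : 0 ≤ nsq y := sq_nonneg' y
  have h1 : len x ^ p = (nsq y * (t / 2)) ^ (p / 2) := by
    rw [← h, ← len_sq, ← Real.rpow_natCast, ← Real.rpow_mul (len_nonneg x)]
    congr 1
    push_cast
    ring
  rw [h1]
  refine Real.rpow_le_rpow (mul_nonneg hy (by linarith)) ?_ (by linarith)
  exact mul_le_mul_of_nonneg_left (by linarith) hy

private lemma nsq_rpow (x : Vec d) (p : ℝ) : nsq x ^ p = len x ^ (2 * p) := by
  rw [← len_sq, ← Real.rpow_natCast, ← Real.rpow_mul (len_nonneg x)]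
  congr 1

private lemma nsq_symm (x y : Vec d) : nsq (x - y) = nsq (y - x) := by
  rw [← len_sq, ← len_sq]
  have h : len (x - y) = len (y - x) := by
    have e : x - y = -(y - x) := by abel
    rw [e, len_neg]
  rw [h]

private lemma pst (v w σ : Vec d) (hvw : v ≠ w) (hσ : nsq σ = 1) :
    nsq (v - post v w σ) = nsq (v - w) * ((1 - cosTh v w σ) / 2) := by
  rw [nsq_symm]
  exact nsq_post_sub hvw hσ

private lemma pst' (v w σ : Vec d) (hvw : v ≠ w) (hσ : nsq σ = 1) :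
    nsq (w - post' v w σ) = nsq (v - w) * ((1 - cosTh v w σ) / 2) := by
  rw [nsq_symm]
  exact nsq_post'_sub hvw hσ

/-- `r^(-2s) ≤ 1 + ρ^(-2s)` for `r = min ρ 1` -/
private lemma r_le {ρ q : ℝ} (hρ : 0 < ρ) : (min ρ 1) ^ (-q) ≤ 1 + ρ ^ (-q) := by
  rcases le_total ρ 1 with h | h
  · rw [min_eq_left h]
    linarith
  · rw [min_eq_right h, Real.one_rpow]
    have := Real.rpow_nonneg hρ.le (-q)
    linarith

/-- the abstract increment: `|x| ≤ Q`, `|x| ≤ Q (z^(τ/2) (1 + ρ^(-τ)))` -/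
private lemma inc_sq {x Q z ρ : ℝ} (hQ : 0 ≤ Q) (hz : 0 ≤ z) (hρ : 0 < ρ) (hτ : 0 < τ)
    (h1 : |x| ≤ Q) (h2 : |x| ≤ Q * (z ^ (τ / 2) * (1 + ρ ^ (-τ)))) :
    x ^ 2 ≤ 4 * Q ^ 2 * min (z / (min ρ 1) ^ 2) 1 ^ τ := by
  set r : ℝ := min ρ 1 with hr
  have hr0 : 0 < r := lt_min hρ one_pos
  have hzr : 0 ≤ z / r ^ 2 := div_nonneg hz (sq_nonneg r)
  rcases le_total (z / r ^ 2) 1 with h | h
  · rw [min_eq_left h]
    have h3 : 1 + ρ ^ (-τ) ≤ 2 * r ^ (-τ) := by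
      have h4 : (1 : ℝ) ≤ r ^ (-τ) :=
        Real.one_le_rpow_of_pos_of_le_one_of_nonpos hr0 (min_le_right _ _) (neg_nonpos.2 hτ.le)
      have h5 : ρ ^ (-τ) ≤ r ^ (-τ) :=
        Real.rpow_le_rpow_of_nonpos hr0 (min_le_left _ _) (neg_nonpos.2 hτ.le)
      linarith
    have hzp : 0 ≤ z ^ (τ / 2) := Real.rpow_nonneg hz _
    have h6 : |x| ≤ 2 * Q * (z ^ (τ / 2) * r ^ (-τ)) := by
      refine h2.trans ?_
      calc Q * (z ^ (τ / 2) * (1 + ρ ^ (-τ))) ≤ Q * (z ^ (τ / 2) * (2 * r ^ (-τ))) :=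
            mul_le_mul_of_nonneg_left (mul_le_mul_of_nonneg_left h3 hzp) hQ
        _ = _ := by ring
    have h7 : z ^ (τ / 2) * r ^ (-τ) = (z / r ^ 2) ^ (τ / 2) := by
      rw [Real.div_rpow hz (sq_nonneg r), ← Real.rpow_natCast r 2, ← Real.rpow_mul hr0.le,
        Real.rpow_neg hr0.le, div_eq_mul_inv]
      congr 2
      congr 1
      push_cast
      ring
    have h8 : ((z / r ^ 2) ^ (τ / 2)) ^ 2 = (z / r ^ 2) ^ τ := by
      rw [← Real.rpow_natCast, ← Real.rpow_mul hzr]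
      congr 1
      push_cast
      ring
    rw [h7] at h6
    calc x ^ 2 = |x| ^ 2 := (sq_abs x).symm
      _ ≤ (2 * Q * (z / r ^ 2) ^ (τ / 2)) ^ 2 := pow_le_pow_left₀ (abs_nonneg _) h6 2
      _ = 4 * Q ^ 2 * ((z / r ^ 2) ^ (τ / 2)) ^ 2 := by ring
      _ = _ := by rw [h8]
  · rw [min_eq_right h, Real.one_rpow, mul_one]
    calc x ^ 2 = |x| ^ 2 := (sq_abs x).symm
      _ ≤ Q ^ 2 := pow_le_pow_left₀ (abs_nonneg _) h1 2
      _ ≤ 4 * Q ^ 2 := AngC_r0 Q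

/-- one increment, squared -/
private lemma inc0 (E : EP0 s 0 β) (T : TP s 0 τ) {v₀ : Vec d} {V₁ A : ℝ} (hV : 1 ≤ V₁)
    (hA : 0 ≤ A) {ψ : Vec d → ℝ} (h : CuspT τ 0 β v₀ V₁ A ψ) {v w x y : Vec d} {t : ℝ}
    (ht : 0 ≤ t) (hx : jb x ≤ RR v w) (hy : jb y ≤ RR v w)
    (hn : nsq (x - y) = nsq (v - w) * (t / 2)) (hx0 : x ≠ v₀) :
    (ψ x - ψ y) ^ 2 ≤ 4 * (A * om β V₁ (RR v w)) ^ 2 *
      min (nsq (v - w) * t / (min (len (x - v₀)) 1) ^ 2) 1 ^ τ := by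
  have hτ0 : 0 < τ := E.hs.trans T.hτ
  have ho := om_nn (β := β) hV (RR_pos v w).le
  have h4 : om β V₁ (max (jb x) (jb y)) ≤ om β V₁ (RR v w) :=
    om_mono' E.hβ1.le hV (zero_le_one.trans ((one_le_jb x).trans (le_max_left _ _)))
      (max_le hx hy)
  have hr : 0 ≤ len (x - v₀) ^ (0 - τ) := Real.rpow_nonneg (len_nonneg _) _
  refine inc_sq (mul_nonneg hA ho) (mul_nonneg (sq_nonneg' _) ht) (len_sub_pos.2 hx0) hτ0 ?_ ?_
  · refine (h.h1 x y).trans ?_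
    rw [Real.rpow_zero, mul_one]
    exact mul_le_mul_of_nonneg_left h4 hA
  · refine (h.h2 x y hx0).trans ?_
    rw [mul_assoc]
    refine mul_le_mul_of_nonneg_left ?_ hA
    rw [zero_sub] at hr ⊢
    refine mul_le_mul h4 ?_ (mul_nonneg (Real.rpow_nonneg (len_nonneg _) _) (by linarith)) ho
    exact mul_le_mul_of_nonneg_right (len_rpow_le ht hτ0.le hn) (by linarith)

private lemma dX_sq (E : EP0 s 0 β) (T : TP s 0 τ) {v₀ : Vec d} {V₁ A : ℝ} (hV : 1 ≤ V₁)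
    (hA : 0 ≤ A) {ψ : Vec d → ℝ} (h : CuspT τ 0 β v₀ V₁ A ψ) {v w σ : Vec d} (hvw : v ≠ w)
    (hσ : nsq σ = 1) (hv : v ≠ v₀) (hw : w ≠ v₀) :
    dX ψ (v, w, σ) ^ 2 ≤ 8 * (A * om β V₁ (RR v w)) ^ 2 *
      (min (nsq (v - w) / (min (len (v - v₀)) 1) ^ 2 * (1 - cosTh v w σ)) 1 ^ τ +
        min (nsq (v - w) / (min (len (w - v₀)) 1) ^ 2 * (1 - cosTh v w σ)) 1 ^ τ) := by
  have hy := one_sub_cosTh_nonneg (v := v) (w := w) hσ
  have e1 := inc0 E T hV hA h hy (jb_le_RR_left v w) (jb_post_le (v := v) (w := w) hσ)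
    (pst v w σ hvw hσ) hv
  have e2 := inc0 E T hV hA h hy (jb_le_RR_right v w) (jb_post'_le (v := v) (w := w) hσ)
    (pst' v w σ hvw hσ) hw
  rw [mul_div_right_comm] at e1 e2
  have e3 : dX ψ (v, w, σ) ^ 2 ≤ 2 * (ψ v - ψ (post v w σ)) ^ 2 +
      2 * (ψ w - ψ (post' v w σ)) ^ 2 := by
    have : dX ψ (v, w, σ) = -((ψ v - ψ (post v w σ)) + (ψ w - ψ (post' v w σ))) := by
      unfold dX
      ring
    rw [this]
    exact AngC_sq2 _ _
  calc dX ψ (v, w, σ) ^ 2 ≤ _ := e3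
    _ ≤ _ := add_le_add (mul_le_mul_of_nonneg_left e1 zero_le_two)
        (mul_le_mul_of_nonneg_left e2 zero_le_two)
    _ = _ := by ring

private lemma mSet1 (v w : Vec d) :
    MeasurableSet {σ : Vec d | nsq (v - w) * (1 - cosTh v w σ) < 1} :=
  measurableSet_lt (measurable_const.mul (measurable_const.sub (measurable_cosTh' v w)))
    measurable_const

private lemma mSet2 (v w : Vec d) :
    MeasurableSet {σ : Vec d | 1 ≤ nsq (v - w) * (1 - cosTh v w σ)} :=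
  measurableSet_le measurable_const
    (measurable_const.mul (measurable_const.sub (measurable_cosTh' v w)))

/-- `len^γ (N / r²)^s = len^(γ+2s) r^(-2s) ≤ len^(γ+2s) (1 + ρ^(-2s))` -/
private lemma Nr_le {v w : Vec d} (hvw : v ≠ w) {ρ γ : ℝ} (hρ : 0 < ρ) :
    len (v - w) ^ γ * (nsq (v - w) / (min ρ 1) ^ 2) ^ s ≤
      len (v - w) ^ (γ + 2 * s) * (1 + ρ ^ (-(2 * s))) := by
  have hL : 0 < len (v - w) := len_sub_pos.2 hvw
  have hr0 : 0 < min ρ 1 := lt_min hρ one_pos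
  have e : len (v - w) ^ γ * (nsq (v - w) / (min ρ 1) ^ 2) ^ s =
      len (v - w) ^ (γ + 2 * s) * (min ρ 1) ^ (-(2 * s)) := by
    rw [Real.div_rpow (sq_nonneg' _) (sq_nonneg _), nsq_rpow, ← Real.rpow_natCast (min ρ 1) 2,
      ← Real.rpow_mul hr0.le, Real.rpow_add hL, Real.rpow_neg hr0.le, div_eq_mul_inv, mul_assoc]
    push_cast
    rfl
  rw [e]
  exact mul_le_mul_of_nonneg_left (r_le hρ) (Real.rpow_nonneg hL.le _)

private theorem ang_near0 (H : Hyp d (1 + a) s b C Ca) (E : EP0 s a β) (T : TP s a τ) (ha0 : a = 0) :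
    ∃ K : ℝ, 0 ≤ K ∧
    ∀ (v₀ : Vec d) (V₁ : ℝ), 1 ≤ V₁ → ∀ A : ℝ, 0 ≤ A → ∀ ψ : Vec d → ℝ, CuspT τ a β v₀ V₁ A ψ →
    ∀ ε : ℝ, 0 < ε → ∀ v w : Vec d, v ≠ w → v ≠ v₀ → w ≠ v₀ →
    ∫ σ, kerB (1 + a) b ε v w σ * dX ψ (v, w, σ) ^ 2 ∂(surf d) ≤
      K * A ^ 2 * om β V₁ (RR v w) ^ 2 * (len (v - w) ^ (1 + a + 2 * s) * len (v - w) ^ (2 * (sP s a - s)) *
        (1 + len (v - v₀) ^ (2 * (a - sP s a)) + len (w - v₀) ^ (2 * (a - sP s a)))) := by
  subst ha0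
  obtain ⟨K, hK, hk⟩ := ker_minN H T.hτ T.hτ1
  refine ⟨16 * K, by positivity, fun v₀ V₁ hV A hA ψ hψ ε hε v w hvw hv hw => ?_⟩
  have hL : 0 < len (v - w) := len_sub_pos.2 hvw
  have hN0 : 0 < nsq (v - w) := by
    rw [← len_sq]
    exact pow_pos hL 2
  have hv1 : 0 < len (v - v₀) := len_sub_pos.2 hv
  have hw1 : 0 < len (w - v₀) := len_sub_pos.2 hw
  have hr1 : 0 < min (len (v - v₀)) 1 := lt_min hv1 one_pos
  have hr2 : 0 < min (len (w - v₀)) 1 := lt_min hw1 one_pos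
  obtain ⟨hi1, hb1⟩ := hk ε hε v w hvw (nsq (v - w) / (min (len (v - v₀)) 1) ^ 2) (div_pos hN0 (pow_pos hr1 2))
  obtain ⟨hi2, hb2⟩ := hk ε hε v w hvw (nsq (v - w) / (min (len (w - v₀)) 1) ^ 2) (div_pos hN0 (pow_pos hr2 2))
  rw [sP_zero E.hs, sub_self, mul_zero, Real.rpow_zero, mul_one, zero_sub, mul_neg]
  set M : ℝ := 8 * (A * om β V₁ (RR v w)) ^ 2 with hM
  have hM0 : 0 ≤ M := mul_nonneg (by norm_num) (sq_nonneg _)
  have hle : ∫ σ, kerB (1 + 0) b ε v w σ * dX ψ (v, w, σ) ^ 2 ∂(surf d) ≤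
      ∫ σ, M * (kerB (1 + 0) b ε v w σ *
          min (nsq (v - w) / (min (len (v - v₀)) 1) ^ 2 * (1 - cosTh v w σ)) 1 ^ τ +
        kerB (1 + 0) b ε v w σ *
          min (nsq (v - w) / (min (len (w - v₀)) 1) ^ 2 * (1 - cosTh v w σ)) 1 ^ τ) ∂(surf d) := by
    refine integral_mono_of_nonneg ?_ ((hi1.add hi2).const_mul _) ?_
    · filter_upwards [surf_ae] with σ hσ
      exact mul_nonneg (kerB_nonneg (γ := 1 + 0) H.bd hε (v := v) (w := w) hσ) (sq_nonneg _)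
    · filter_upwards [surf_ae] with σ hσ
      have hk0 := kerB_nonneg (γ := 1 + 0) H.bd hε (v := v) (w := w) hσ
      have h5 := dX_sq E T hV hA hψ hvw hσ hv hw
      rw [← hM] at h5
      refine (mul_le_mul_of_nonneg_left h5 hk0).trans (le_of_eq ?_)
      ring
  rw [integral_const_mul, integral_add hi1 hi2] at hle
  have n1 := Nr_le (s := s) (γ := 1 + 0) hvw hv1
  have n2 := Nr_le (s := s) (γ := 1 + 0) hvw hw1
  set P : ℝ := len (v - w) ^ (1 + 0 + 2 * s) with hP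
  have hP0 : 0 ≤ P := Real.rpow_nonneg hL.le _
  set x : ℝ := len (v - v₀) ^ (-(2 * s)) with hx
  set y : ℝ := len (w - v₀) ^ (-(2 * s)) with hy
  have hx0 : 0 ≤ x := Real.rpow_nonneg hv1.le _
  have hy0 : 0 ≤ y := Real.rpow_nonneg hw1.le _
  have h6 := hb1.trans (mul_le_mul_of_nonneg_left n1 hK)
  have h7 := hb2.trans (mul_le_mul_of_nonneg_left n2 hK)
  refine hle.trans ((mul_le_mul_of_nonneg_left (add_le_add h6 h7) hM0).trans ?_)
  have h8 : M * (K * (P * (1 + x)) + K * (P * (1 + y))) ≤ M * (2 * K * (P * (1 + x + y))) := by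
    refine mul_le_mul_of_nonneg_left ?_ hM0
    exact AngC_two hK hP0 hx0 hy0
  refine h8.trans (le_of_eq ?_)
  rw [hM]
  ring

private theorem ang_mid0 (H : Hyp d (1 + a) s b C Ca) (E : EP0 s a β) (T : TP s a τ) (ha0 : a = 0) :
    ∃ K : ℝ, 0 ≤ K ∧
    ∀ (v₀ : Vec d) (V₁ : ℝ), 1 ≤ V₁ → ∀ A : ℝ, 0 ≤ A → ∀ ψ : Vec d → ℝ, CuspT τ a β v₀ V₁ A ψ →
    ∀ ε : ℝ, 0 < ε → ∀ v w : Vec d, v ≠ w → v ≠ v₀ → w ≠ v₀ →
    ∫ σ in {σ : Vec d | nsq (v - w) * (1 - cosTh v w σ) < 1},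
        kerB (1 + a) b ε v w σ * dX ψ (v, w, σ) ^ 2 ∂(surf d) ≤
      K * A ^ 2 * om β V₁ (RR v w) ^ 2 * (len (v - w) ^ (1 + a + 2 * s) *
        (1 + len (v - v₀) ^ (2 * (a - sP s a)) + len (w - v₀) ^ (2 * (a - sP s a)))) := by
  obtain ⟨K, hK, hk⟩ := ang_near0 H E T ha0
  refine ⟨K, hK, fun v₀ V₁ hV A hA ψ hψ ε hε v w hvw hv hw => ?_⟩
  have h1 := hk v₀ V₁ hV A hA ψ hψ ε hε v w hvw hv hw
  have e1 : len (v - w) ^ (2 * (sP s a - s)) = 1 := by
    subst ha0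
    rw [sP_zero E.hs, sub_self, mul_zero, Real.rpow_zero]
  rw [e1, mul_one] at h1
  have hnn : ∀ᵐ σ ∂(surf d), 0 ≤ kerB (1 + a) b ε v w σ * dX ψ (v, w, σ) ^ 2 := by
    filter_upwards [surf_ae] with σ hσ
    exact mul_nonneg (kerB_nonneg (γ := 1 + a) H.bd hε (v := v) (w := w) hσ) (sq_nonneg _)
  refine le_trans (setIntegral_le_integral ?_ hnn) h1
  -- integrability of the full integrand
  subst ha0
  obtain ⟨K', _, hk'⟩ := ker_minN H T.hτ T.hτ1
  have hN0 : 0 < nsq (v - w) := by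
    have hL : 0 < len (v - w) := len_sub_pos.2 hvw
    rw [← len_sq]
    exact pow_pos hL 2
  have hr1 : 0 < min (len (v - v₀)) 1 := lt_min (len_sub_pos.2 hv) one_pos
  have hr2 : 0 < min (len (w - v₀)) 1 := lt_min (len_sub_pos.2 hw) one_pos
  obtain ⟨hi1, _⟩ := hk' ε hε v w hvw (nsq (v - w) / (min (len (v - v₀)) 1) ^ 2) (div_pos hN0 (pow_pos hr1 2))
  obtain ⟨hi2, _⟩ := hk' ε hε v w hvw (nsq (v - w) / (min (len (w - v₀)) 1) ^ 2) (div_pos hN0 (pow_pos hr2 2))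
  have hm : Measurable fun σ : Vec d => dX ψ (v, w, σ) :=
    (dX_meas hψ.meas).comp (measurable_const.prodMk (measurable_const.prodMk measurable_id))
  refine Integrable.mono' ((hi1.add hi2).const_mul (8 * (A * om β V₁ (RR v w)) ^ 2))
    ((measurable_kerB' (1 + 0) H.bm ε v w).mul (hm.pow_const 2)).aestronglyMeasurable ?_
  filter_upwards [surf_ae] with σ hσ
  have hk0 := kerB_nonneg (γ := 1 + 0) H.bd hε (v := v) (w := w) hσ
  have h5 := dX_sq E T hV hA hψ hvw hσ hv hw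
  rw [Real.norm_eq_abs, abs_of_nonneg (mul_nonneg hk0 (sq_nonneg _))]
  refine (mul_le_mul_of_nonneg_left h5 hk0).trans (le_of_eq ?_)
  simp only [Pi.add_apply]
  ring

private theorem ang_cb0 (H : Hyp d (1 + a) s b C Ca) (E : EP0 s a β) (T : TP s a τ) (ha0 : a = 0) :
    ∃ K : ℝ, 0 ≤ K ∧
    ∀ (v₀ : Vec d) (A : ℝ), 0 ≤ A → ∀ ψ : Vec d → ℝ, CuspBT τ a v₀ A ψ →
    ∀ ε : ℝ, 0 < ε → ∀ v w : Vec d, v ≠ w → v ≠ v₀ →
    ∫ σ, kerB (1 + a) b ε v w σ * (ψ (post v w σ) - ψ v) ^ 2 ∂(surf d) ≤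
      K * A ^ 2 * (len (v - w) ^ (1 + a + 2 * s) * (1 + len (v - v₀) ^ (2 * (a - sP s a)))) := by
  subst ha0
  obtain ⟨K, hK, hk⟩ := ker_minN H T.hτ T.hτ1
  refine ⟨16 * K, by positivity, fun v₀ A hA ψ hψ ε hε v w hvw hv => ?_⟩
  have hτ0 : 0 < τ := E.hs.trans T.hτ
  have hL : 0 < len (v - w) := len_sub_pos.2 hvw
  have hN0 : 0 < nsq (v - w) := by
    rw [← len_sq]
    exact pow_pos hL 2
  have hv1 : 0 < len (v - v₀) := len_sub_pos.2 hv
  have hr1 : 0 < min (len (v - v₀)) 1 := lt_min hv1 one_pos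
  obtain ⟨hi, hb⟩ := hk ε hε v w hvw (nsq (v - w) / (min (len (v - v₀)) 1) ^ 2) (div_pos hN0 (pow_pos hr1 2))
  rw [sP_zero E.hs, zero_sub, mul_neg]
  have hle : ∫ σ, kerB (1 + 0) b ε v w σ * (ψ (post v w σ) - ψ v) ^ 2 ∂(surf d) ≤
      ∫ σ, (16 * A ^ 2) * (kerB (1 + 0) b ε v w σ *
          min (nsq (v - w) / (min (len (v - v₀)) 1) ^ 2 * (1 - cosTh v w σ)) 1 ^ τ) ∂(surf d) := by
    refine integral_mono_of_nonneg ?_ (hi.const_mul _) ?_
    · filter_upwards [surf_ae] with σ hσ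
      exact mul_nonneg (kerB_nonneg (γ := 1 + 0) H.bd hε (v := v) (w := w) hσ) (sq_nonneg _)
    · filter_upwards [surf_ae] with σ hσ
      have hk0 := kerB_nonneg (γ := 1 + 0) H.bd hε (v := v) (w := w) hσ
      have hy := one_sub_cosTh_nonneg (v := v) (w := w) hσ
      have hN : 0 ≤ nsq (v - w) * (1 - cosTh v w σ) := mul_nonneg (sq_nonneg' _) hy
      have hr : 0 ≤ len (v - v₀) ^ (-τ) := Real.rpow_nonneg (len_nonneg _) _
      have e2 : |ψ v - ψ (post v w σ)| ≤ 2 * A := by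
        have h5 := abs_sub (ψ v) (ψ (post v w σ))
        have h6 := hψ.h0 (post v w σ)
        have h7 := hψ.h0 v
        linarith
      have e1 : |ψ v - ψ (post v w σ)| ≤ 2 * A * ((nsq (v - w) * (1 - cosTh v w σ)) ^
          (τ / 2) * (1 + len (v - v₀) ^ (-τ))) := by
        have h3 := hψ.h2 v (post v w σ) hv
        rw [zero_sub] at h3
        have h4 : len (v - post v w σ) ^ τ * (1 + len (v - v₀) ^ (-τ)) ≤
            (nsq (v - w) * (1 - cosTh v w σ)) ^ (τ / 2) * (1 + len (v - v₀) ^ (-τ)) :=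
          mul_le_mul_of_nonneg_right (len_rpow_le hy hτ0.le (pst v w σ hvw hσ)) (by linarith)
        have h5 := mul_le_mul_of_nonneg_left h4 hA
        have h6 : 0 ≤ (nsq (v - w) * (1 - cosTh v w σ)) ^ (τ / 2) * (1 + len (v - v₀) ^ (-τ)) :=
          mul_nonneg (Real.rpow_nonneg hN _) (by linarith)
        exact AngC_dbl hA h6 h3 h5
      have e3 := inc_sq (mul_nonneg zero_le_two hA) hN hv1 hτ0 e2 e1
      rw [mul_div_right_comm] at e3
      have e6 : (ψ (post v w σ) - ψ v) ^ 2 = (ψ v - ψ (post v w σ)) ^ 2 := by ring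
      show kerB (1 + 0) b ε v w σ * (ψ (post v w σ) - ψ v) ^ 2 ≤ _
      rw [e6]
      refine (mul_le_mul_of_nonneg_left e3 hk0).trans (le_of_eq ?_)
      ring
  rw [integral_const_mul] at hle
  have n1 := Nr_le (s := s) (γ := 1 + 0) hvw hv1
  have h6 := hb.trans (mul_le_mul_of_nonneg_left n1 hK)
  refine hle.trans ((mul_le_mul_of_nonneg_left h6
    (mul_nonneg (by norm_num) (sq_nonneg A))).trans (le_of_eq ?_))
  ring

/-! ### the case `0 < a` -/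

/-- the abstract increment: `|x| ≤ Q z^(a/2)`, `|x| ≤ Q (z^(τ/2) (1 + ρ^(a-τ)))` -/
private lemma inc_gen {x Q z ρ q : ℝ} (hQ : 0 ≤ Q) (hz : 0 ≤ z) (hρ : 0 < ρ) (haq : a ≤ q)
    (haτ : a ≤ τ) (h1 : |x| ≤ Q * z ^ (a / 2))
    (h2 : |x| ≤ Q * (z ^ (τ / 2) * (1 + ρ ^ (a - τ)))) :
    x ^ 2 ≤ 4 * Q ^ 2 * ((min ρ 1) ^ (2 * a) * min (z / (min ρ 1) ^ 2) 1 ^ τ +
      (min ρ 1) ^ (2 * (a - q)) * z ^ q) := by
  set r : ℝ := min ρ 1 with hr
  have hr0 : 0 < r := lt_min hρ one_pos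
  have hzr : 0 ≤ z / r ^ 2 := div_nonneg hz (sq_nonneg r)
  have t1 : 0 ≤ r ^ (2 * a) * min (z / r ^ 2) 1 ^ τ :=
    mul_nonneg (Real.rpow_nonneg hr0.le _) (Real.rpow_nonneg (le_min hzr zero_le_one) _)
  have t2 : 0 ≤ r ^ (2 * (a - q)) * z ^ q :=
    mul_nonneg (Real.rpow_nonneg hr0.le _) (Real.rpow_nonneg hz _)
  have hQ2 := sq_nonneg Q
  rcases le_total (z / r ^ 2) 1 with h | h
  · rw [min_eq_left h] at t1 ⊢
    have h3 : 1 + ρ ^ (a - τ) ≤ 2 * r ^ (a - τ) := by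
      have h4 : (1 : ℝ) ≤ r ^ (a - τ) :=
        Real.one_le_rpow_of_pos_of_le_one_of_nonpos hr0 (min_le_right _ _) (sub_nonpos.2 haτ)
      have h5 : ρ ^ (a - τ) ≤ r ^ (a - τ) :=
        Real.rpow_le_rpow_of_nonpos hr0 (min_le_left _ _) (sub_nonpos.2 haτ)
      linarith
    have hzp : 0 ≤ z ^ (τ / 2) := Real.rpow_nonneg hz _
    have h6 : |x| ≤ 2 * Q * (z ^ (τ / 2) * r ^ (a - τ)) := by
      refine h2.trans ?_
      calc Q * (z ^ (τ / 2) * (1 + ρ ^ (a - τ))) ≤ Q * (z ^ (τ / 2) * (2 * r ^ (a - τ))) :=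
            mul_le_mul_of_nonneg_left (mul_le_mul_of_nonneg_left h3 hzp) hQ
        _ = _ := by ring
    have h7 : (z ^ (τ / 2) * r ^ (a - τ)) ^ 2 = r ^ (2 * a) * (z / r ^ 2) ^ τ := by
      rw [mul_pow, ← Real.rpow_natCast (z ^ (τ / 2)) 2, ← Real.rpow_mul hz,
        ← Real.rpow_natCast (r ^ (a - τ)) 2, ← Real.rpow_mul hr0.le,
        Real.div_rpow hz (sq_nonneg r), ← Real.rpow_natCast r 2, ← Real.rpow_mul hr0.le,
        mul_div_assoc', mul_comm (r ^ (2 * a)) (z ^ τ), mul_div_assoc, ← Real.rpow_sub hr0]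
      congr 2
      · push_cast
        ring
      · push_cast
        ring
    calc x ^ 2 = |x| ^ 2 := (sq_abs x).symm
      _ ≤ (2 * Q * (z ^ (τ / 2) * r ^ (a - τ))) ^ 2 := pow_le_pow_left₀ (abs_nonneg _) h6 2
      _ = 4 * Q ^ 2 * (z ^ (τ / 2) * r ^ (a - τ)) ^ 2 := by ring
      _ = 4 * Q ^ 2 * (r ^ (2 * a) * (z / r ^ 2) ^ τ) := by rw [h7]
      _ ≤ _ := mul_le_mul_of_nonneg_left (le_add_of_nonneg_right t2)
          (mul_nonneg zero_le_four hQ2)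
  · have hr2 : 0 < r ^ 2 := pow_pos hr0 2
    have hz1 : r ^ 2 ≤ z := by
      rwa [one_le_div hr2] at h
    have hz0 : 0 < z := lt_of_lt_of_le hr2 hz1
    have h3 : z ^ (a - q) ≤ r ^ (2 * (a - q)) := by
      have h4 : z ^ (a - q) ≤ (r ^ 2) ^ (a - q) :=
        Real.rpow_le_rpow_of_nonpos hr2 hz1 (by linarith)
      rwa [← Real.rpow_natCast r 2, ← Real.rpow_mul hr0.le] at h4
    have h5 : z ^ a ≤ r ^ (2 * (a - q)) * z ^ q := by
      have h6 : z ^ a = z ^ (a - q) * z ^ q := by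
        rw [← Real.rpow_add hz0]
        congr 1
        ring
      rw [h6]
      exact mul_le_mul_of_nonneg_right h3 (Real.rpow_nonneg hz _)
    have h8 : (z ^ (a / 2)) ^ 2 = z ^ a := by
      rw [← Real.rpow_natCast, ← Real.rpow_mul hz]
      congr 1
      push_cast
      ring
    calc x ^ 2 = |x| ^ 2 := (sq_abs x).symm
      _ ≤ (Q * z ^ (a / 2)) ^ 2 := pow_le_pow_left₀ (abs_nonneg _) h1 2
      _ = Q ^ 2 * z ^ a := by rw [mul_pow, h8]
      _ ≤ Q ^ 2 * (r ^ (2 * (a - q)) * z ^ q) := mul_le_mul_of_nonneg_left h5 hQ2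
      _ ≤ _ := AngC_four t1 t2

/-- `r^(2(a-q)) ≤ 1 + ρ^(2(a-q))`, `r^(2a-2s) ≤ 1 + ρ^(2(a-q))` for `r = min ρ 1`, `s ≤ q`, `a ≤ q` -/
private lemma r_gen {ρ q : ℝ} (hρ : 0 < ρ) :
    (min ρ 1) ^ (2 * (a - q)) ≤ 1 + ρ ^ (2 * (a - q)) := by
  rcases le_total ρ 1 with h | h
  · rw [min_eq_left h]
    linarith
  · rw [min_eq_right h, Real.one_rpow]
    have := Real.rpow_nonneg hρ.le (2 * (a - q))
    linarith

/-- `r^(2a) len^γ (N / r²)^s ≤ len^(γ+2s) (1 + ρ^(2(a-q)))` -/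
private lemma Nr_gen {v w : Vec d} (hvw : v ≠ w) {ρ γ q : ℝ} (hρ : 0 < ρ) (hsq : s ≤ q) :
    (min ρ 1) ^ (2 * a) * (len (v - w) ^ γ * (nsq (v - w) / (min ρ 1) ^ 2) ^ s) ≤
      len (v - w) ^ (γ + 2 * s) * (1 + ρ ^ (2 * (a - q))) := by
  have hL : 0 < len (v - w) := len_sub_pos.2 hvw
  have hr0 : 0 < min ρ 1 := lt_min hρ one_pos
  have e : (min ρ 1) ^ (2 * a) * (len (v - w) ^ γ * (nsq (v - w) / (min ρ 1) ^ 2) ^ s) =
      len (v - w) ^ (γ + 2 * s) * (min ρ 1) ^ (2 * a - 2 * s) := by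
    rw [Real.div_rpow (sq_nonneg' _) (sq_nonneg _), nsq_rpow, ← Real.rpow_natCast (min ρ 1) 2,
      ← Real.rpow_mul hr0.le, Real.rpow_add hL, Real.rpow_sub hr0]
    push_cast
    ring
  rw [e]
  refine mul_le_mul_of_nonneg_left ?_ (Real.rpow_nonneg hL.le _)
  refine le_trans ?_ (r_gen (a := a) (q := q) hρ)
  exact Real.rpow_le_rpow_of_exponent_ge hr0 (min_le_right _ _) (by linarith)

/-- one increment, squared -/
private lemma incg (E : EP0 s a β) (T : TP s a τ) {v₀ : Vec d} {V₁ A : ℝ} (hV : 1 ≤ V₁)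
    (hA : 0 ≤ A) {ψ : Vec d → ℝ} (h : CuspT τ a β v₀ V₁ A ψ) {v w x y : Vec d} {t : ℝ}
    (ht : 0 ≤ t) (hx : jb x ≤ RR v w) (hy : jb y ≤ RR v w)
    (hn : nsq (x - y) = nsq (v - w) * (t / 2)) (hx0 : x ≠ v₀) :
    (ψ x - ψ y) ^ 2 ≤ 4 * (A * om β V₁ (RR v w)) ^ 2 *
      ((min (len (x - v₀)) 1) ^ (2 * a) *
        min (nsq (v - w) * t / (min (len (x - v₀)) 1) ^ 2) 1 ^ τ +
       (min (len (x - v₀)) 1) ^ (2 * (a - sP s a)) * (nsq (v - w) * t) ^ sP s a) := by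
  have hτ0 : 0 < τ := E.hs.trans T.hτ
  have ho := om_nn (β := β) hV (RR_pos v w).le
  have h4 : om β V₁ (max (jb x) (jb y)) ≤ om β V₁ (RR v w) :=
    om_mono' E.hβ1.le hV (zero_le_one.trans ((one_le_jb x).trans (le_max_left _ _)))
      (max_le hx hy)
  have hr : 0 ≤ len (x - v₀) ^ (a - τ) := Real.rpow_nonneg (len_nonneg _) _
  refine inc_gen (mul_nonneg hA ho) (mul_nonneg (sq_nonneg' _) ht) (len_sub_pos.2 hx0)
    (a_le_sP s a) T.haτ ?_ ?_
  · refine (h.h1 x y).trans ?_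
    rw [mul_assoc]
    refine mul_le_mul_of_nonneg_left ?_ hA
    exact mul_le_mul h4 (len_rpow_le ht E.ha hn) (Real.rpow_nonneg (len_nonneg _) _) ho
  · refine (h.h2 x y hx0).trans ?_
    rw [mul_assoc]
    refine mul_le_mul_of_nonneg_left ?_ hA
    refine mul_le_mul h4 ?_ (mul_nonneg (Real.rpow_nonneg (len_nonneg _) _) (by linarith)) ho
    exact mul_le_mul_of_nonneg_right (len_rpow_le ht hτ0.le hn) (by linarith)

private lemma dX_gen (E : EP0 s a β) (T : TP s a τ) {v₀ : Vec d} {V₁ A : ℝ} (hV : 1 ≤ V₁)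
    (hA : 0 ≤ A) {ψ : Vec d → ℝ} (h : CuspT τ a β v₀ V₁ A ψ) {v w σ : Vec d} (hvw : v ≠ w)
    (hσ : nsq σ = 1) (hv : v ≠ v₀) (hw : w ≠ v₀) :
    dX ψ (v, w, σ) ^ 2 ≤ 8 * (A * om β V₁ (RR v w)) ^ 2 *
      ((min (len (v - v₀)) 1) ^ (2 * a) *
          min (nsq (v - w) / (min (len (v - v₀)) 1) ^ 2 * (1 - cosTh v w σ)) 1 ^ τ +
        (min (len (w - v₀)) 1) ^ (2 * a) *
          min (nsq (v - w) / (min (len (w - v₀)) 1) ^ 2 * (1 - cosTh v w σ)) 1 ^ τ +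
        ((min (len (v - v₀)) 1) ^ (2 * (a - sP s a)) +
          (min (len (w - v₀)) 1) ^ (2 * (a - sP s a))) *
            (nsq (v - w) * (1 - cosTh v w σ)) ^ sP s a) := by
  have hy := one_sub_cosTh_nonneg (v := v) (w := w) hσ
  have e1 := incg E T hV hA h hy (jb_le_RR_left v w) (jb_post_le (v := v) (w := w) hσ)
    (pst v w σ hvw hσ) hv
  have e2 := incg E T hV hA h hy (jb_le_RR_right v w) (jb_post'_le (v := v) (w := w) hσ)
    (pst' v w σ hvw hσ) hw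
  rw [mul_div_right_comm] at e1 e2
  have e3 : dX ψ (v, w, σ) ^ 2 ≤ 2 * (ψ v - ψ (post v w σ)) ^ 2 +
      2 * (ψ w - ψ (post' v w σ)) ^ 2 := by
    have : dX ψ (v, w, σ) = -((ψ v - ψ (post v w σ)) + (ψ w - ψ (post' v w σ))) := by
      unfold dX
      ring
    rw [this]
    exact AngC_sq2 _ _
  calc dX ψ (v, w, σ) ^ 2 ≤ _ := e3
    _ ≤ _ := add_le_add (mul_le_mul_of_nonneg_left e1 zero_le_two)
        (mul_le_mul_of_nonneg_left e2 zero_le_two)
    _ = _ := by ring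

private lemma s_lt_sP (ha : 0 < a) : s < sP s a := by
  have h : s + a / 2 ≤ sP s a := le_max_right _ _
  linarith

/-- the three pieces of the majorant, with `Z` the last factor -/
private lemma ang_pos (H : Hyp d (1 + a) s b C Ca) (E : EP0 s a β) (T : TP s a τ) (ha : 0 < a) :
    ∃ K : ℝ, 0 ≤ K ∧
    ∀ (v₀ : Vec d) (V₁ : ℝ), 1 ≤ V₁ → ∀ A : ℝ, 0 ≤ A → ∀ ψ : Vec d → ℝ, CuspT τ a β v₀ V₁ A ψ →
    ∀ ε : ℝ, 0 < ε → ∀ v w : Vec d, v ≠ w → v ≠ v₀ → w ≠ v₀ →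
    ∀ S : Set (Vec d), MeasurableSet S → ∀ Z : Vec d → ℝ, (∀ σ, nsq σ = 1 → σ ∈ S →
      (nsq (v - w) * (1 - cosTh v w σ)) ^ sP s a ≤ Z σ) → (∀ σ, nsq σ = 1 → 0 ≤ Z σ) →
      Integrable (fun σ => kerB (1 + a) b ε v w σ * Z σ) (surf d) → ∀ J : ℝ,
      ∫ σ, kerB (1 + a) b ε v w σ * Z σ ∂(surf d) ≤ J →
    ∫ σ in S, kerB (1 + a) b ε v w σ * dX ψ (v, w, σ) ^ 2 ∂(surf d) ≤
      K * A ^ 2 * om β V₁ (RR v w) ^ 2 * ((len (v - w) ^ (1 + a + 2 * s) + J) *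
        (1 + len (v - v₀) ^ (2 * (a - sP s a)) + len (w - v₀) ^ (2 * (a - sP s a)))) := by
  obtain ⟨K, hK, hk⟩ := ker_minN H T.hτ T.hτ1
  refine ⟨16 * K + 16, by positivity, fun v₀ V₁ hV A hA ψ hψ ε hε v w hvw hv hw S hS Z hZ hZ0 hZi
    J hJ => ?_⟩
  have hL : 0 < len (v - w) := len_sub_pos.2 hvw
  have hN0 : 0 < nsq (v - w) := by
    rw [← len_sq]
    exact pow_pos hL 2
  have hv1 : 0 < len (v - v₀) := len_sub_pos.2 hv
  have hw1 : 0 < len (w - v₀) := len_sub_pos.2 hw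
  have hr1 : 0 < min (len (v - v₀)) 1 := lt_min hv1 one_pos
  have hr2 : 0 < min (len (w - v₀)) 1 := lt_min hw1 one_pos
  obtain ⟨hi1, hb1⟩ := hk ε hε v w hvw (nsq (v - w) / (min (len (v - v₀)) 1) ^ 2) (div_pos hN0 (pow_pos hr1 2))
  obtain ⟨hi2, hb2⟩ := hk ε hε v w hvw (nsq (v - w) / (min (len (w - v₀)) 1) ^ 2) (div_pos hN0 (pow_pos hr2 2))
  set q : ℝ := sP s a with hq
  have hsq : s ≤ q := E.s_le
  set M : ℝ := 8 * (A * om β V₁ (RR v w)) ^ 2 with hM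
  have hM0 : 0 ≤ M := mul_nonneg (by norm_num) (sq_nonneg _)
  set c1 : ℝ := (min (len (v - v₀)) 1) ^ (2 * a) with hc1
  set c2 : ℝ := (min (len (w - v₀)) 1) ^ (2 * a) with hc2
  set c3 : ℝ := (min (len (v - v₀)) 1) ^ (2 * (a - q)) + (min (len (w - v₀)) 1) ^ (2 * (a - q))
    with hc3
  have hc10 : 0 ≤ c1 := Real.rpow_nonneg hr1.le _
  have hc20 : 0 ≤ c2 := Real.rpow_nonneg hr2.le _
  have hc30 : 0 ≤ c3 := add_nonneg (Real.rpow_nonneg hr1.le _) (Real.rpow_nonneg hr2.le _)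
  set F : Vec d → ℝ := fun σ => c1 * (kerB (1 + a) b ε v w σ *
          min (nsq (v - w) / (min (len (v - v₀)) 1) ^ 2 * (1 - cosTh v w σ)) 1 ^ τ) +
        c2 * (kerB (1 + a) b ε v w σ *
          min (nsq (v - w) / (min (len (w - v₀)) 1) ^ 2 * (1 - cosTh v w σ)) 1 ^ τ) +
        c3 * (kerB (1 + a) b ε v w σ * Z σ) with hF
  have hFi : Integrable F (surf d) :=
    ((hi1.const_mul c1).add (hi2.const_mul c2)).add (hZi.const_mul c3)
  have hle : ∫ σ in S, kerB (1 + a) b ε v w σ * dX ψ (v, w, σ) ^ 2 ∂(surf d) ≤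
      ∫ σ in S, M * F σ ∂(surf d) := by
    refine integral_mono_of_nonneg ?_ (hFi.const_mul M).integrableOn ?_
    · refine ae_restrict_of_ae ?_
      filter_upwards [surf_ae] with σ hσ
      exact mul_nonneg (kerB_nonneg (γ := 1 + a) H.bd hε (v := v) (w := w) hσ) (sq_nonneg _)
    · refine (ae_restrict_iff' hS).2 ?_
      filter_upwards [surf_ae] with σ hσ hm
      have hk0 := kerB_nonneg (γ := 1 + a) H.bd hε (v := v) (w := w) hσ
      have h5 := dX_gen E T hV hA hψ hvw hσ hv hw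
      rw [← hM, ← hc1, ← hc2, ← hq, ← hc3] at h5
      have h6 := mul_le_mul_of_nonneg_left (hZ σ hσ hm) hc30
      have h7 := mul_le_mul_of_nonneg_left (h5.trans (mul_le_mul_of_nonneg_left
        (add_le_add le_rfl h6) hM0)) hk0
      refine h7.trans (le_of_eq ?_)
      rw [hF]
      ring
  have hF0 : ∀ᵐ σ ∂(surf d), 0 ≤ M * F σ := by
    filter_upwards [surf_ae] with σ hσ
    have hk0 := kerB_nonneg (γ := 1 + a) H.bd hε (v := v) (w := w) hσ
    have hy := one_sub_cosTh_nonneg (v := v) (w := w) hσ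
    exact mul_nonneg hM0 (add_nonneg (add_nonneg (mul_nonneg hc10 (mul_nonneg hk0
      (Real.rpow_nonneg (le_min (mul_nonneg (div_nonneg (sq_nonneg' _) (sq_nonneg _)) hy)
      zero_le_one) _))) (mul_nonneg hc20 (mul_nonneg hk0
      (Real.rpow_nonneg (le_min (mul_nonneg (div_nonneg (sq_nonneg' _) (sq_nonneg _)) hy)
      zero_le_one) _)))) (mul_nonneg hc30 (mul_nonneg hk0 (hZ0 σ hσ))))
  have hle2 := hle.trans (setIntegral_le_integral (hFi.const_mul M) hF0)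
  have e5 : ∫ σ, F σ ∂(surf d) = c1 * (∫ σ, kerB (1 + a) b ε v w σ *
          min (nsq (v - w) / (min (len (v - v₀)) 1) ^ 2 * (1 - cosTh v w σ)) 1 ^ τ ∂(surf d)) +
        c2 * (∫ σ, kerB (1 + a) b ε v w σ *
          min (nsq (v - w) / (min (len (w - v₀)) 1) ^ 2 * (1 - cosTh v w σ)) 1 ^ τ ∂(surf d)) +
        c3 * ∫ σ, kerB (1 + a) b ε v w σ * Z σ ∂(surf d) := by
    have t1 : ∫ σ, F σ ∂(surf d) = (∫ σ, (c1 * (kerB (1 + a) b ε v w σ *
          min (nsq (v - w) / (min (len (v - v₀)) 1) ^ 2 * (1 - cosTh v w σ)) 1 ^ τ) +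
        c2 * (kerB (1 + a) b ε v w σ *
          min (nsq (v - w) / (min (len (w - v₀)) 1) ^ 2 * (1 - cosTh v w σ)) 1 ^ τ)) ∂(surf d)) +
        ∫ σ, c3 * (kerB (1 + a) b ε v w σ * Z σ) ∂(surf d) :=
      integral_add ((hi1.const_mul c1).add (hi2.const_mul c2)) (hZi.const_mul c3)
    have t2 : ∫ σ, (c1 * (kerB (1 + a) b ε v w σ *
          min (nsq (v - w) / (min (len (v - v₀)) 1) ^ 2 * (1 - cosTh v w σ)) 1 ^ τ) +
        c2 * (kerB (1 + a) b ε v w σ *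
          min (nsq (v - w) / (min (len (w - v₀)) 1) ^ 2 * (1 - cosTh v w σ)) 1 ^ τ)) ∂(surf d) =
        (∫ σ, c1 * (kerB (1 + a) b ε v w σ *
          min (nsq (v - w) / (min (len (v - v₀)) 1) ^ 2 * (1 - cosTh v w σ)) 1 ^ τ) ∂(surf d)) +
        ∫ σ, c2 * (kerB (1 + a) b ε v w σ *
          min (nsq (v - w) / (min (len (w - v₀)) 1) ^ 2 * (1 - cosTh v w σ)) 1 ^ τ) ∂(surf d) :=
      integral_add (hi1.const_mul c1) (hi2.const_mul c2)
    rw [t1, t2, integral_const_mul, integral_const_mul, integral_const_mul]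
  rw [integral_const_mul, e5] at hle2
  have n1 := Nr_gen (a := a) (s := s) (γ := 1 + a) hvw hv1 hsq
  have n2 := Nr_gen (a := a) (s := s) (γ := 1 + a) hvw hw1 hsq
  have m1 := r_gen (a := a) (q := q) hv1
  have m2 := r_gen (a := a) (q := q) hw1
  rw [← hc1] at n1
  rw [← hc2] at n2
  set P : ℝ := len (v - w) ^ (1 + a + 2 * s) with hP
  have hP0 : 0 ≤ P := Real.rpow_nonneg hL.le _
  set x : ℝ := len (v - v₀) ^ (2 * (a - q)) with hx
  set y : ℝ := len (w - v₀) ^ (2 * (a - q)) with hy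
  have hx0 : 0 ≤ x := Real.rpow_nonneg hv1.le _
  have hy0 : 0 ≤ y := Real.rpow_nonneg hw1.le _
  have hI0 : 0 ≤ ∫ σ, kerB (1 + a) b ε v w σ * Z σ ∂(surf d) := by
    refine integral_nonneg_of_ae ?_
    filter_upwards [surf_ae] with σ hσ
    exact mul_nonneg (kerB_nonneg (γ := 1 + a) H.bd hε (v := v) (w := w) hσ) (hZ0 σ hσ)
  have hJ0 : 0 ≤ J := hI0.trans hJ
  have k1 : c1 * (∫ σ, kerB (1 + a) b ε v w σ *
      min (nsq (v - w) / (min (len (v - v₀)) 1) ^ 2 * (1 - cosTh v w σ)) 1 ^ τ ∂(surf d)) ≤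
        K * (P * (1 + x)) := by
    refine (mul_le_mul_of_nonneg_left hb1 hc10).trans ?_
    refine le_trans (le_of_eq ?_) (mul_le_mul_of_nonneg_left n1 hK)
    ring
  have k2 : c2 * (∫ σ, kerB (1 + a) b ε v w σ *
      min (nsq (v - w) / (min (len (w - v₀)) 1) ^ 2 * (1 - cosTh v w σ)) 1 ^ τ ∂(surf d)) ≤
        K * (P * (1 + y)) := by
    refine (mul_le_mul_of_nonneg_left hb2 hc20).trans ?_
    refine le_trans (le_of_eq ?_) (mul_le_mul_of_nonneg_left n2 hK)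
    ring
  have k3 : c3 * (∫ σ, kerB (1 + a) b ε v w σ * Z σ ∂(surf d)) ≤ 2 * ((1 + x + y) * J) := by
    have k4 : c3 ≤ 2 * (1 + x + y) := by
      rw [hc3]
      linarith
    calc c3 * (∫ σ, kerB (1 + a) b ε v w σ * Z σ ∂(surf d)) ≤ c3 * J :=
          mul_le_mul_of_nonneg_left hJ hc30
      _ ≤ (2 * (1 + x + y)) * J := mul_le_mul_of_nonneg_right k4 hJ0
      _ = _ := by ring
  refine hle2.trans ((mul_le_mul_of_nonneg_left (add_le_add (add_le_add k1 k2) k3) hM0).trans ?_)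
  have h8 : M * (K * (P * (1 + x)) + K * (P * (1 + y)) + 2 * ((1 + x + y) * J)) ≤
      M * ((2 * K + 2) * ((P + J) * (1 + x + y))) := by
    refine mul_le_mul_of_nonneg_left ?_ hM0
    exact AngC_three hK hP0 hJ0 hx0 hy0
  refine h8.trans (le_of_eq ?_)
  rw [hM]
  ring

theorem ang_near (H : Hyp d (1 + a) s b C Ca) (E : EP0 s a β) (T : TP s a τ) :
    ∃ K : ℝ, 0 ≤ K ∧
    ∀ (v₀ : Vec d) (V₁ : ℝ), 1 ≤ V₁ → ∀ A : ℝ, 0 ≤ A → ∀ ψ : Vec d → ℝ, CuspT τ a β v₀ V₁ A ψ →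
    ∀ ε : ℝ, 0 < ε → ∀ v w : Vec d, v ≠ w → v ≠ v₀ → w ≠ v₀ →
    ∫ σ, kerB (1 + a) b ε v w σ * dX ψ (v, w, σ) ^ 2 ∂(surf d) ≤
      K * A ^ 2 * om β V₁ (RR v w) ^ 2 * (len (v - w) ^ (1 + a + 2 * s) *
        (1 + len (v - w) ^ (2 * (sP s a - s))) *
        (1 + len (v - v₀) ^ (2 * (a - sP s a)) + len (w - v₀) ^ (2 * (a - sP s a)))) := by
  rcases E.ha.eq_or_lt with h0 | h0
  · obtain ⟨K, hK, hk⟩ := ang_near0 H E T h0.symm
    refine ⟨K, hK, fun v₀ V₁ hV A hA ψ hψ ε hε v w hvw hv hw => ?_⟩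
    refine (hk v₀ V₁ hV A hA ψ hψ ε hε v w hvw hv hw).trans ?_
    have hx : 0 ≤ len (v - v₀) ^ (2 * (a - sP s a)) := Real.rpow_nonneg (len_nonneg _) _
    have hy : 0 ≤ len (w - v₀) ^ (2 * (a - sP s a)) := Real.rpow_nonneg (len_nonneg _) _
    have hP : 0 ≤ len (v - w) ^ (1 + a + 2 * s) := Real.rpow_nonneg (len_nonneg _) _
    refine mul_le_mul_of_nonneg_left ?_ (mul_nonneg (mul_nonneg hK (sq_nonneg _)) (sq_nonneg _))
    refine mul_le_mul_of_nonneg_right ?_ (add_nonneg (add_nonneg zero_le_one hx) hy)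
    exact mul_le_mul_of_nonneg_left (le_add_of_nonneg_left zero_le_one) hP
  · obtain ⟨K₁, hK₁, hk₁⟩ := ang_pos H E T h0
    obtain ⟨K₂, hK₂, hk₂⟩ := ker_full H (s_lt_sP (s := s) h0) E.sP_lt.le
    refine ⟨K₁ * (1 + K₂), by positivity, fun v₀ V₁ hV A hA ψ hψ ε hε v w hvw hv hw => ?_⟩
    obtain ⟨hi, hb⟩ := hk₂ ε hε v w hvw
    have hL : 0 < len (v - w) := len_sub_pos.2 hvw
    have e0 : ∀ σ : Vec d, nsq σ = 1 → (nsq (v - w) * (1 - cosTh v w σ)) ^ sP s a =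
        nsq (v - w) ^ sP s a * (1 - cosTh v w σ) ^ sP s a := fun σ hσ =>
      Real.mul_rpow (sq_nonneg' _) (one_sub_cosTh_nonneg hσ)
    have hi' : Integrable (fun σ => kerB (1 + a) b ε v w σ *
        (nsq (v - w) ^ sP s a * (1 - cosTh v w σ) ^ sP s a)) (surf d) := by
      refine (hi.const_mul (nsq (v - w) ^ sP s a)).congr (Eventually.of_forall fun σ => ?_)
      show nsq (v - w) ^ sP s a * (kerB (1 + a) b ε v w σ * (1 - cosTh v w σ) ^ sP s a) = _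
      ring
    have e : nsq (v - w) ^ sP s a * len (v - w) ^ (1 + a) =
        len (v - w) ^ (1 + a + 2 * s) * len (v - w) ^ (2 * (sP s a - s)) := by
      rw [nsq_rpow, ← Real.rpow_add hL, ← Real.rpow_add hL]
      congr 1
      ring
    have h3 := hk₁ v₀ V₁ hV A hA ψ hψ ε hε v w hvw hv hw univ MeasurableSet.univ
      (fun σ => nsq (v - w) ^ sP s a * (1 - cosTh v w σ) ^ sP s a)
      (fun σ hσ _ => (e0 σ hσ).le) (fun σ hσ => mul_nonneg (Real.rpow_nonneg (sq_nonneg' _) _)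
        (Real.rpow_nonneg (one_sub_cosTh_nonneg hσ) _)) hi'
      (K₂ * (len (v - w) ^ (1 + a + 2 * s) * len (v - w) ^ (2 * (sP s a - s)))) ?_
    · rw [Measure.restrict_univ] at h3
      refine h3.trans ?_
      have hx : 0 ≤ len (v - v₀) ^ (2 * (a - sP s a)) := Real.rpow_nonneg (len_nonneg _) _
      have hy : 0 ≤ len (w - v₀) ^ (2 * (a - sP s a)) := Real.rpow_nonneg (len_nonneg _) _
      have hP : 0 ≤ len (v - w) ^ (1 + a + 2 * s) := Real.rpow_nonneg (len_nonneg _) _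
      have hR : 0 ≤ len (v - w) ^ (2 * (sP s a - s)) := Real.rpow_nonneg (len_nonneg _) _
      set P : ℝ := len (v - w) ^ (1 + a + 2 * s)
      set R : ℝ := len (v - w) ^ (2 * (sP s a - s))
      set X : ℝ := len (v - v₀) ^ (2 * (a - sP s a))
      set Y : ℝ := len (w - v₀) ^ (2 * (a - sP s a))
      have h5 : P + K₂ * (P * R) ≤ (1 + K₂) * (P * (1 + R)) := AngC_nr hK₂ hP hR
      calc K₁ * A ^ 2 * om β V₁ (RR v w) ^ 2 * ((P + K₂ * (P * R)) * (1 + X + Y)) ≤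
            K₁ * A ^ 2 * om β V₁ (RR v w) ^ 2 * (((1 + K₂) * (P * (1 + R))) * (1 + X + Y)) :=
          mul_le_mul_of_nonneg_left (mul_le_mul_of_nonneg_right h5
            (add_nonneg (add_nonneg zero_le_one hx) hy))
            (mul_nonneg (mul_nonneg hK₁ (sq_nonneg _)) (sq_nonneg _))
        _ = _ := by ring
    · have e6 : ∫ σ, kerB (1 + a) b ε v w σ *
          (nsq (v - w) ^ sP s a * (1 - cosTh v w σ) ^ sP s a) ∂(surf d) =
          nsq (v - w) ^ sP s a *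
            ∫ σ, kerB (1 + a) b ε v w σ * (1 - cosTh v w σ) ^ sP s a ∂(surf d) := by
        rw [← integral_const_mul]
        refine integral_congr_ae (Eventually.of_forall fun σ => ?_)
        show kerB (1 + a) b ε v w σ * (nsq (v - w) ^ sP s a * (1 - cosTh v w σ) ^ sP s a) =
          nsq (v - w) ^ sP s a * (kerB (1 + a) b ε v w σ * (1 - cosTh v w σ) ^ sP s a)
        ring
      show ∫ σ, kerB (1 + a) b ε v w σ *
          (nsq (v - w) ^ sP s a * (1 - cosTh v w σ) ^ sP s a) ∂(surf d) ≤ _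
      rw [e6, ← e]
      refine (mul_le_mul_of_nonneg_left hb (Real.rpow_nonneg (sq_nonneg' _) _)).trans
        (le_of_eq ?_)
      ring

private lemma min_int (H : Hyp d (1 + a) s b C Ca) (E : EP0 s a β) (ha : 0 < a) :
    ∃ K : ℝ, 0 ≤ K ∧ ∀ ε : ℝ, 0 < ε → ∀ v w : Vec d, v ≠ w →
      Integrable (fun σ => kerB (1 + a) b ε v w σ *
        min (nsq (v - w) * (1 - cosTh v w σ)) 1 ^ sP s a) (surf d) ∧
      ∫ σ, kerB (1 + a) b ε v w σ * min (nsq (v - w) * (1 - cosTh v w σ)) 1 ^ sP s a ∂(surf d) ≤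
        K * len (v - w) ^ (1 + a + 2 * s) := by
  obtain ⟨K, hK, hk⟩ := ker_minN H (s_lt_sP (s := s) ha) E.sP_lt.le
  refine ⟨K, hK, fun ε hε v w hvw => ?_⟩
  have hL : 0 < len (v - w) := len_sub_pos.2 hvw
  obtain ⟨hi, hb⟩ := hk ε hε v w hvw (nsq (v - w)) (by rw [← len_sq]; positivity)
  refine ⟨hi, hb.trans (le_of_eq ?_)⟩
  rw [nsq_rpow, ← Real.rpow_add hL]

theorem ang_mid (H : Hyp d (1 + a) s b C Ca) (E : EP0 s a β) (T : TP s a τ) :
    ∃ K : ℝ, 0 ≤ K ∧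
    ∀ (v₀ : Vec d) (V₁ : ℝ), 1 ≤ V₁ → ∀ A : ℝ, 0 ≤ A → ∀ ψ : Vec d → ℝ, CuspT τ a β v₀ V₁ A ψ →
    ∀ ε : ℝ, 0 < ε → ∀ v w : Vec d, v ≠ w → v ≠ v₀ → w ≠ v₀ →
    ∫ σ in {σ : Vec d | nsq (v - w) * (1 - cosTh v w σ) < 1},
        kerB (1 + a) b ε v w σ * dX ψ (v, w, σ) ^ 2 ∂(surf d) ≤
      K * A ^ 2 * om β V₁ (RR v w) ^ 2 * (len (v - w) ^ (1 + a + 2 * s) *
        (1 + len (v - v₀) ^ (2 * (a - sP s a)) + len (w - v₀) ^ (2 * (a - sP s a)))) := by
  rcases E.ha.eq_or_lt with h0 | h0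
  · exact ang_mid0 H E T h0.symm
  · obtain ⟨K₁, hK₁, hk₁⟩ := ang_pos H E T h0
    obtain ⟨K₂, hK₂, hk₂⟩ := min_int H E h0
    refine ⟨K₁ * (1 + K₂), by positivity, fun v₀ V₁ hV A hA ψ hψ ε hε v w hvw hv hw => ?_⟩
    obtain ⟨hi, hb⟩ := hk₂ ε hε v w hvw
    have h3 := hk₁ v₀ V₁ hV A hA ψ hψ ε hε v w hvw hv hw _ (mSet1 v w)
      (fun σ => min (nsq (v - w) * (1 - cosTh v w σ)) 1 ^ sP s a)
      (fun σ hσ hm => by
        have hm1 : nsq (v - w) * (1 - cosTh v w σ) < 1 := hm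
        show _ ≤ min (nsq (v - w) * (1 - cosTh v w σ)) 1 ^ sP s a
        rw [min_eq_left hm1.le])
      (fun σ hσ => Real.rpow_nonneg (le_min (mul_nonneg (sq_nonneg' _)
        (one_sub_cosTh_nonneg hσ)) zero_le_one) _) hi _ hb
    refine h3.trans (le_of_eq ?_)
    ring

theorem ang_dir (H : Hyp d (1 + a) s b C Ca) (E : EP0 s a β) : ∃ K : ℝ, 0 ≤ K ∧
    ∀ (v₀ : Vec d) (V₁ : ℝ), 1 ≤ V₁ → ∀ A : ℝ, 0 ≤ A → ∀ ψ : Vec d → ℝ, CuspT τ a β v₀ V₁ A ψ →
    ∀ ε : ℝ, 0 < ε → ∀ v w : Vec d, v ≠ w →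
    ∫ σ in {σ : Vec d | 1 ≤ nsq (v - w) * (1 - cosTh v w σ)},
        kerB (1 + a) b ε v w σ * |dX ψ (v, w, σ)| ∂(surf d) ≤
      K * A * om β V₁ (RR v w) * len (v - w) ^ (1 + a + β) := by
  obtain ⟨K, hK, hk⟩ := ker_full H (τ := β / 2) (by linarith [E.hβ]) (by linarith [E.hβ1])
  refine ⟨2 * K, by positivity, fun v₀ V₁ hV A hA ψ hψ ε hε v w hvw => ?_⟩
  obtain ⟨hi, hb⟩ := hk ε hε v w hvw
  have hL : 0 < len (v - w) := len_sub_pos.2 hvw
  have ho : 0 ≤ om β V₁ (RR v w) := om_nn hV (RR_pos v w).le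
  set M : ℝ := 2 * A * om β V₁ (RR v w) * nsq (v - w) ^ (β / 2) with hM
  have hN0 : 0 ≤ nsq (v - w) ^ (β / 2) := Real.rpow_nonneg (sq_nonneg' _) _
  have hM0 : 0 ≤ M := mul_nonneg (mul_nonneg (mul_nonneg zero_le_two hA) ho) hN0
  have hnn : ∀ᵐ σ ∂(surf d), 0 ≤ M * (kerB (1 + a) b ε v w σ *
      (1 - cosTh v w σ) ^ (β / 2)) := by
    filter_upwards [surf_ae] with σ hσ
    have hk0 := kerB_nonneg (γ := 1 + a) H.bd hε (v := v) (w := w) hσ
    have hy := one_sub_cosTh_nonneg (v := v) (w := w) hσ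
    exact mul_nonneg hM0 (mul_nonneg hk0 (Real.rpow_nonneg hy _))
  have hle : ∫ σ in {σ : Vec d | 1 ≤ nsq (v - w) * (1 - cosTh v w σ)},
      kerB (1 + a) b ε v w σ * |dX ψ (v, w, σ)| ∂(surf d) ≤
      ∫ σ in {σ : Vec d | 1 ≤ nsq (v - w) * (1 - cosTh v w σ)}, M *
        (kerB (1 + a) b ε v w σ * (1 - cosTh v w σ) ^ (β / 2)) ∂(surf d) := by
    refine integral_mono_of_nonneg ?_ (hi.const_mul _).integrableOn ?_
    · refine ae_restrict_of_ae ?_
      filter_upwards [surf_ae] with σ hσ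
      exact mul_nonneg (kerB_nonneg (γ := 1 + a) H.bd hε (v := v) (w := w) hσ) (abs_nonneg _)
    · refine (ae_restrict_iff' (mSet2 v w)).2 ?_
      filter_upwards [surf_ae] with σ hσ hm
      have hm1 : 1 ≤ nsq (v - w) * (1 - cosTh v w σ) := hm
      have hk0 := kerB_nonneg (γ := 1 + a) H.bd hε (v := v) (w := w) hσ
      have hy := one_sub_cosTh_nonneg (v := v) (w := w) hσ
      have h5 : |dX ψ (v, w, σ)| ≤ 2 * A * om β V₁ (RR v w) *
          (nsq (v - w) * (1 - cosTh v w σ)) ^ (a / 2) := by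
        have o1 : ∀ x y : Vec d, jb x ≤ RR v w → jb y ≤ RR v w →
            nsq (x - y) = nsq (v - w) * ((1 - cosTh v w σ) / 2) →
            |ψ x - ψ y| ≤ A * (om β V₁ (RR v w) *
              (nsq (v - w) * (1 - cosTh v w σ)) ^ (a / 2)) := by
          intro x y hx hy' hn
          refine (hψ.h1 x y).trans (mul_le_mul_of_nonneg_left ?_ hA)
          have h4 : om β V₁ (max (jb x) (jb y)) ≤ om β V₁ (RR v w) :=
            om_mono' E.hβ1.le hV (zero_le_one.trans ((one_le_jb x).trans (le_max_left _ _)))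
              (max_le hx hy')
          exact mul_le_mul h4 (len_rpow_le hy E.ha hn) (Real.rpow_nonneg (len_nonneg _) _) ho
        have e1 := o1 v (post v w σ) (jb_le_RR_left v w) (jb_post_le (v := v) (w := w) hσ)
          (pst v w σ hvw hσ)
        have e2 := o1 w (post' v w σ) (jb_le_RR_right v w) (jb_post'_le (v := v) (w := w) hσ)
          (pst' v w σ hvw hσ)
        have e3 : |dX ψ (v, w, σ)| ≤ |ψ v - ψ (post v w σ)| + |ψ w - ψ (post' v w σ)| := by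
          have : dX ψ (v, w, σ) = -((ψ v - ψ (post v w σ)) + (ψ w - ψ (post' v w σ))) := by
            unfold dX
            ring
          rw [this, abs_neg]
          exact abs_add_le _ _
        refine e3.trans ((add_le_add e1 e2).trans (le_of_eq (by ring)))
      have h6 : (nsq (v - w) * (1 - cosTh v w σ)) ^ (a / 2) ≤
          (nsq (v - w) * (1 - cosTh v w σ)) ^ (β / 2) :=
        Real.rpow_le_rpow_of_exponent_le hm1 (by linarith [E.haβ])
      have h7 : |dX ψ (v, w, σ)| ≤ M * (1 - cosTh v w σ) ^ (β / 2) := by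
        refine h5.trans ((mul_le_mul_of_nonneg_left h6
          (mul_nonneg (mul_nonneg zero_le_two hA) ho)).trans (le_of_eq ?_))
        rw [Real.mul_rpow (sq_nonneg' _) hy, hM]
        ring
      show kerB (1 + a) b ε v w σ * |dX ψ (v, w, σ)| ≤ M * (kerB (1 + a) b ε v w σ *
          (1 - cosTh v w σ) ^ (β / 2))
      calc kerB (1 + a) b ε v w σ * |dX ψ (v, w, σ)|
          ≤ kerB (1 + a) b ε v w σ * (M * (1 - cosTh v w σ) ^ (β / 2)) :=
            mul_le_mul_of_nonneg_left h7 hk0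
        _ = _ := by ring
  have hle2 := hle.trans (setIntegral_le_integral (hi.const_mul M) hnn)
  rw [integral_const_mul] at hle2
  refine hle2.trans ((mul_le_mul_of_nonneg_left hb hM0).trans (le_of_eq ?_))
  have e : nsq (v - w) ^ (β / 2) * len (v - w) ^ (1 + a) = len (v - w) ^ (1 + a + β) := by
    rw [nsq_rpow, ← Real.rpow_add hL]
    congr 1
    ring
  calc M * (K * len (v - w) ^ (1 + a))
      = 2 * A * om β V₁ (RR v w) * K * (nsq (v - w) ^ (β / 2) * len (v - w) ^ (1 + a)) := by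
        rw [hM]; ring
    _ = _ := by rw [e]; ring

/-- bounded cusp functions have increments of order `a` -/
lemma cb_h1 (ha : 0 ≤ a) (haτ : a ≤ τ) (hτ1 : τ ≤ 1) {v₀ : Vec d} {A : ℝ} (hA : 0 ≤ A)
    {ψ : Vec d → ℝ} (h : CuspBT τ a v₀ A ψ) (x y : Vec d) :
    |ψ x - ψ y| ≤ 4 * A * len (x - y) ^ a := by
  have hD := len_nonneg (x - y)
  rcases hD.eq_or_lt with h0 | h0
  · have hxy : x = y := by
      by_contra hne
      have := len_sub_pos.2 hne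
      linarith
    rw [hxy, sub_self, abs_zero]
    exact mul_nonneg (mul_nonneg zero_le_four hA) (Real.rpow_nonneg (len_nonneg _) _)
  rcases le_total 1 (len (x - y)) with h1 | h1
  · have h2 : 1 ≤ len (x - y) ^ a := Real.one_le_rpow h1 ha
    have h3 : |ψ x - ψ y| ≤ 2 * A := by
      have h5 := abs_sub (ψ x) (ψ y)
      have h6 := h.h0 x
      have h7 := h.h0 y
      linarith
    exact AngC_c1 hA h2 h3
  · -- one of the points has distance at least half of the length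
    have key : ∀ p : Vec d, len (x - y) / 2 ≤ len (p - v₀) →
        len (x - y) ^ τ * (1 + len (p - v₀) ^ (a - τ)) ≤ 4 * len (x - y) ^ a := by
      intro p hp
      have hp0 : 0 < len (x - y) / 2 := by linarith
      have h2 : len (p - v₀) ^ (a - τ) ≤ (len (x - y) / 2) ^ (a - τ) :=
        Real.rpow_le_rpow_of_nonpos hp0 hp (by linarith)
      have h3 : (len (x - y) / 2) ^ (a - τ) ≤ 2 * len (x - y) ^ (a - τ) := by
        rw [Real.div_rpow hD (by norm_num), div_eq_mul_inv, ← Real.rpow_neg (by norm_num)]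
        have h4 : (2 : ℝ) ^ (-(a - τ)) ≤ 2 := by
          calc (2 : ℝ) ^ (-(a - τ)) ≤ 2 ^ (1 : ℝ) :=
                Real.rpow_le_rpow_of_exponent_le (by norm_num) (by linarith)
            _ = 2 := Real.rpow_one _
        have h5 : 0 ≤ len (x - y) ^ (a - τ) := Real.rpow_nonneg hD _
        exact (mul_le_mul_of_nonneg_left h4 h5).trans (le_of_eq (mul_comm _ _))
      have h6 : len (x - y) ^ τ * len (x - y) ^ (a - τ) = len (x - y) ^ a := by
        rw [← Real.rpow_add h0]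
        congr 1
        ring
      have h7 : len (x - y) ^ τ ≤ len (x - y) ^ a :=
        Real.rpow_le_rpow_of_exponent_ge h0 h1 haτ
      have h8 : 0 ≤ len (x - y) ^ τ := Real.rpow_nonneg hD _
      have h9 : 0 ≤ len (x - y) ^ a := Real.rpow_nonneg hD _
      have h10 := mul_le_mul_of_nonneg_left (h2.trans h3) h8
      exact AngC_key h9 h7 h6 h10
    rcases le_total (len (x - y) / 2) (len (x - v₀)) with h2 | h2
    · have hx0 : x ≠ v₀ := len_sub_pos.1 (by linarith)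
      have h3 := h.h2 x y hx0
      have h4 := mul_le_mul_of_nonneg_left (key x h2) hA
      linarith
    · have h5 : len (x - y) ≤ len (x - v₀) + len (y - v₀) := by
        have e : x - y = (x - v₀) + (v₀ - y) := by abel
        have h6 := len_add_le (x - v₀) (v₀ - y)
        rw [← e, len_comm v₀ y] at h6
        exact h6
      have h7 : len (x - y) / 2 ≤ len (y - v₀) := by linarith
      have hy0 : y ≠ v₀ := len_sub_pos.1 (by linarith)
      have h3 := h.h2 y x hy0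
      have h4 := mul_le_mul_of_nonneg_left (key y h7) hA
      rw [abs_sub_comm, len_comm y x] at h3
      linarith

theorem ang_cb (H : Hyp d (1 + a) s b C Ca) (E : EP0 s a β) (T : TP s a τ) :
    ∃ K : ℝ, 0 ≤ K ∧
    ∀ (v₀ : Vec d) (A : ℝ), 0 ≤ A → ∀ ψ : Vec d → ℝ, CuspBT τ a v₀ A ψ →
    ∀ ε : ℝ, 0 < ε → ∀ v w : Vec d, v ≠ w → v ≠ v₀ →
    ∫ σ, kerB (1 + a) b ε v w σ * (ψ (post v w σ) - ψ v) ^ 2 ∂(surf d) ≤
      K * A ^ 2 * (len (v - w) ^ (1 + a + 2 * s) * (1 + len (v - v₀) ^ (2 * (a - sP s a)))) := by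
  rcases E.ha.eq_or_lt with h0 | h0
  · exact ang_cb0 H E T h0.symm
  obtain ⟨K₁, hK₁, hk₁⟩ := ker_minN H T.hτ T.hτ1
  obtain ⟨K₂, hK₂, hk₂⟩ := min_int H E h0
  refine ⟨64 * (K₁ + K₂), by positivity, fun v₀ A hA ψ hψ ε hε v w hvw hv => ?_⟩
  have hτ0 : 0 < τ := E.hs.trans T.hτ
  have hL : 0 < len (v - w) := len_sub_pos.2 hvw
  have hN0 : 0 < nsq (v - w) := by
    rw [← len_sq]
    exact pow_pos hL 2
  have hv1 : 0 < len (v - v₀) := len_sub_pos.2 hv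
  have hr1 : 0 < min (len (v - v₀)) 1 := lt_min hv1 one_pos
  obtain ⟨hi1, hb1⟩ := hk₁ ε hε v w hvw (nsq (v - w) / (min (len (v - v₀)) 1) ^ 2) (div_pos hN0 (pow_pos hr1 2))
  obtain ⟨hi2, hb2⟩ := hk₂ ε hε v w hvw
  set q : ℝ := sP s a with hq
  have hsq : s ≤ q := E.s_le
  set c1 : ℝ := (min (len (v - v₀)) 1) ^ (2 * a) with hc1
  set c3 : ℝ := (min (len (v - v₀)) 1) ^ (2 * (a - q)) with hc3
  have hc10 : 0 ≤ c1 := Real.rpow_nonneg hr1.le _
  have hc30 : 0 ≤ c3 := Real.rpow_nonneg hr1.le _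
  have hc31 : 1 ≤ c3 :=
    Real.one_le_rpow_of_pos_of_le_one_of_nonpos hr1 (min_le_right _ _)
      (by linarith [a_le_sP s a])
  set M : ℝ := 64 * A ^ 2 with hM
  have hM0 : 0 ≤ M := mul_nonneg (by norm_num) (sq_nonneg _)
  have hle : ∫ σ, kerB (1 + a) b ε v w σ * (ψ (post v w σ) - ψ v) ^ 2 ∂(surf d) ≤
      ∫ σ, M * (c1 * (kerB (1 + a) b ε v w σ *
          min (nsq (v - w) / (min (len (v - v₀)) 1) ^ 2 * (1 - cosTh v w σ)) 1 ^ τ) +
        c3 * (kerB (1 + a) b ε v w σ *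
          min (nsq (v - w) * (1 - cosTh v w σ)) 1 ^ q)) ∂(surf d) := by
    refine integral_mono_of_nonneg ?_ (((hi1.const_mul c1).add (hi2.const_mul c3)).const_mul _) ?_
    · filter_upwards [surf_ae] with σ hσ
      exact mul_nonneg (kerB_nonneg (γ := 1 + a) H.bd hε (v := v) (w := w) hσ) (sq_nonneg _)
    · filter_upwards [surf_ae] with σ hσ
      have hk0 := kerB_nonneg (γ := 1 + a) H.bd hε (v := v) (w := w) hσ
      have hy := one_sub_cosTh_nonneg (v := v) (w := w) hσ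
      have hN : 0 ≤ nsq (v - w) * (1 - cosTh v w σ) := mul_nonneg (sq_nonneg' _) hy
      have hr : 0 ≤ len (v - v₀) ^ (a - τ) := Real.rpow_nonneg (len_nonneg _) _
      set z : ℝ := nsq (v - w) * (1 - cosTh v w σ) with hz
      have hm0 : 0 ≤ min (nsq (v - w) / (min (len (v - v₀)) 1) ^ 2 * (1 - cosTh v w σ)) 1 ^ τ :=
        Real.rpow_nonneg (le_min (mul_nonneg (div_nonneg (sq_nonneg' _) (sq_nonneg _)) hy)
          zero_le_one) _
      have e5 : (ψ v - ψ (post v w σ)) ^ 2 ≤ M * (c1 *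
          min (nsq (v - w) / (min (len (v - v₀)) 1) ^ 2 * (1 - cosTh v w σ)) 1 ^ τ +
            c3 * min z 1 ^ q) := by
        rcases le_total z 1 with h1 | h1
        · rw [min_eq_left h1]
          have g1 : |ψ v - ψ (post v w σ)| ≤ 4 * A * z ^ (a / 2) := by
            refine (cb_h1 E.ha T.haτ T.hτ1 hA hψ v (post v w σ)).trans ?_
            exact mul_le_mul_of_nonneg_left (len_rpow_le hy E.ha (pst v w σ hvw hσ))
              (mul_nonneg zero_le_four hA)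
          have g2 : |ψ v - ψ (post v w σ)| ≤ 4 * A * (z ^ (τ / 2) *
              (1 + len (v - v₀) ^ (a - τ))) := by
            have h3 := hψ.h2 v (post v w σ) hv
            have h4 : len (v - post v w σ) ^ τ * (1 + len (v - v₀) ^ (a - τ)) ≤
                z ^ (τ / 2) * (1 + len (v - v₀) ^ (a - τ)) :=
              mul_le_mul_of_nonneg_right (len_rpow_le hy hτ0.le (pst v w σ hvw hσ)) (by linarith)
            have h5 := mul_le_mul_of_nonneg_left h4 hA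
            have h6 : 0 ≤ A * (z ^ (τ / 2) * (1 + len (v - v₀) ^ (a - τ))) :=
              mul_nonneg hA (mul_nonneg (Real.rpow_nonneg hN _) (add_nonneg zero_le_one hr))
            exact AngC_q h6 h3 h5
          have g3 := inc_gen (q := q) (mul_nonneg zero_le_four hA) hN hv1 (a_le_sP s a) T.haτ
            g1 g2
          rw [← hc1, ← hc3, hz, mul_div_right_comm, ← hz] at g3
          refine g3.trans (le_of_eq ?_)
          rw [hM]
          ring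
        · rw [min_eq_right h1, Real.one_rpow, mul_one]
          have e4 : |ψ v - ψ (post v w σ)| ≤ 2 * A := by
            have h5 := abs_sub (ψ v) (ψ (post v w σ))
            have h6 := hψ.h0 (post v w σ)
            have h7 := hψ.h0 v
            linarith
          calc (ψ v - ψ (post v w σ)) ^ 2 = |ψ v - ψ (post v w σ)| ^ 2 := (sq_abs _).symm
            _ ≤ (2 * A) ^ 2 := pow_le_pow_left₀ (abs_nonneg _) e4 2
            _ ≤ M * 1 := by
              rw [hM]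
              exact AngC_m A
            _ ≤ _ := by
              refine mul_le_mul_of_nonneg_left ?_ hM0
              have := mul_nonneg hc10 hm0
              linarith
      have e6 : (ψ (post v w σ) - ψ v) ^ 2 = (ψ v - ψ (post v w σ)) ^ 2 := by ring
      show kerB (1 + a) b ε v w σ * (ψ (post v w σ) - ψ v) ^ 2 ≤ _
      rw [e6]
      refine (mul_le_mul_of_nonneg_left e5 hk0).trans (le_of_eq ?_)
      ring
  rw [integral_const_mul, integral_add (hi1.const_mul c1) (hi2.const_mul c3), integral_const_mul,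
    integral_const_mul] at hle
  have n1 := Nr_gen (a := a) (s := s) (γ := 1 + a) hvw hv1 hsq
  have m1 := r_gen (a := a) (q := q) hv1
  rw [← hc1] at n1
  rw [← hc3] at m1
  set P : ℝ := len (v - w) ^ (1 + a + 2 * s) with hP
  have hP0 : 0 ≤ P := Real.rpow_nonneg hL.le _
  set x : ℝ := len (v - v₀) ^ (2 * (a - q)) with hx
  have hx0 : 0 ≤ x := Real.rpow_nonneg hv1.le _
  have k1 : c1 * (∫ σ, kerB (1 + a) b ε v w σ *
      min (nsq (v - w) / (min (len (v - v₀)) 1) ^ 2 * (1 - cosTh v w σ)) 1 ^ τ ∂(surf d)) ≤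
        K₁ * (P * (1 + x)) := by
    refine (mul_le_mul_of_nonneg_left hb1 hc10).trans ?_
    refine le_trans (le_of_eq ?_) (mul_le_mul_of_nonneg_left n1 hK₁)
    ring
  have k3 : c3 * (∫ σ, kerB (1 + a) b ε v w σ *
      min (nsq (v - w) * (1 - cosTh v w σ)) 1 ^ q ∂(surf d)) ≤ K₂ * (P * (1 + x)) := by
    have hb0 : 0 ≤ K₂ * P := mul_nonneg hK₂ hP0
    calc _ ≤ c3 * (K₂ * P) := mul_le_mul_of_nonneg_left hb2 hc30
      _ ≤ (1 + x) * (K₂ * P) := mul_le_mul_of_nonneg_right m1 hb0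
      _ = _ := by ring
  refine hle.trans ((mul_le_mul_of_nonneg_left (add_le_add k1 k3) hM0).trans (le_of_eq ?_))
  rw [hM]
  ring

theorem ang_ng (H : Hyp d (1 + a) s b C Ca) : ∃ K : ℝ, 0 ≤ K ∧
    ∀ ε : ℝ, 0 < ε → ∀ v w : Vec d, v ≠ w →
    ∫ σ in {σ : Vec d | cosTh v w σ < 0}, kerB (1 + a) b ε v w σ ∂(surf d) ≤
      K * len (v - w) ^ (1 + a) := by
  obtain ⟨A, hA, hk⟩ := ker_large H
  refine ⟨A, hA, fun ε hε v w hvw => ?_⟩
  obtain ⟨hi, hb⟩ := hk ε hε v w hvw 1 one_pos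
  have hsub : {σ : Vec d | cosTh v w σ < 0} ⊆ {σ : Vec d | 1 ≤ 1 - cosTh v w σ} := by
    intro σ hσ
    have h5 : cosTh v w σ < 0 := hσ
    show 1 ≤ 1 - cosTh v w σ
    linarith
  have h6 : ∫ σ in {σ : Vec d | cosTh v w σ < 0}, kerB (1 + a) b ε v w σ ∂(surf d) ≤
      ∫ σ in {σ : Vec d | 1 ≤ 1 - cosTh v w σ}, kerB (1 + a) b ε v w σ ∂(surf d) := by
    refine setIntegral_mono_set hi ?_ (Eventually.of_forall hsub)
    have h7 : ∀ᵐ σ ∂(surf d), 0 ≤ kerB (1 + a) b ε v w σ := by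
      filter_upwards [surf_ae] with σ hσ
      exact kerB_nonneg (γ := 1 + a) H.bd hε (v := v) (w := w) hσ
    exact ae_restrict_of_ae h7
  rw [Real.one_rpow, mul_one] at hb
  exact h6.trans hb

end Pool.Agent.H87.PZ
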