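import Pool.Agent.H87.PZ.Defs

/-!
# Module Base: lemmas used by all modules (complete)
-/

set_option autoImplicit false

open MeasureTheory Set Filter Topology Pool.Agent.H25.Kin Pool.Agent.H48.PL
open Pool.Agent.H48.PI (om)
open Pool.Agent.H48.PW (sP)
open Pool.Agent.H87.PE
open Pool.Agent.H87.PF (wN XN wS SS AnnS PrN PrS WA Sn Sm Sd)

namespace Pool.Agent.H87.PZ

variable {d : ℕ} {s a β τ C Ca : ℝ} {b : ℝ → ℝ}

/-! ### exponents -/

lemma EP0.β0 (E : EP0 s a β) : 0 < β := by linarith [E.hs, E.hβ]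
lemma EP0.a1 (E : EP0 s a β) : a < 1 := by linarith [E.haβ, E.hβ1]

/-- `s' = s + a/2` if `a ≤ 2s` -/
lemma sP_small (h : a ≤ 2 * s) : sP s a = s + a / 2 := max_eq_right (by linarith)

/-- the exponent of the cusp if `a ≤ 2s` -/
lemma sP_exp (h : a ≤ 2 * s) : 2 * (a - sP s a) = -(2 * s - a) := by
  rw [sP_small h]; ring

/-- `s' = a` if `2s ≤ a` -/
lemma sP_large (h : 2 * s ≤ a) : sP s a = a := max_eq_left (by linarith)

lemma a_le_sP (s a : ℝ) : a ≤ sP s a := le_max_left _ _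

lemma EP0.s_le (E : EP0 s a β) : s ≤ sP s a := by
  have h : s + a / 2 ≤ sP s a := le_max_right _ _
  linarith [E.ha]

lemma EP0.sP_lt (E : EP0 s a β) : sP s a < 1 :=
  max_lt E.a1 (by linarith [E.hβ, E.haβ, E.hβ1])

/-- `-1 < -b' ≤ 0` -/
lemma EP0.b0 (E : EP0 s a β) : 2 * (a - sP s a) ≤ 0 := by linarith [a_le_sP s a]
lemma EP0.b1 (E : EP0 s a β) : -1 < 2 * (a - sP s a) := by
  rcases le_total a (2 * s) with h | h
  · rw [sP_exp h]; linarith [E.ha, E.hβ, E.hβ1]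
  · rw [sP_large h]; linarith

/-- `0 ≤ 2(s'-s) ≤ 2` -/
lemma EP0.d0 (E : EP0 s a β) : 0 ≤ 2 * (sP s a - s) := by linarith [E.s_le]
lemma EP0.d2 (E : EP0 s a β) : 2 * (sP s a - s) ≤ 2 := by linarith [E.sP_lt, E.hs]

/-! ### the weight `om` -/

lemma om_nn {V R : ℝ} (hV : 1 ≤ V) (hR : 0 ≤ R) : 0 ≤ om β V R :=
  Real.rpow_nonneg (le_min zero_le_one (div_nonneg hR (by linarith))) _

lemma om_le1 (hβ : β ≤ 1) {V R : ℝ} (hV : 1 ≤ V) (hR : 0 ≤ R) : om β V R ≤ 1 :=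
  Real.rpow_le_one (le_min zero_le_one (div_nonneg hR (by linarith))) (min_le_left _ _)
    (by linarith)

lemma om_mono' (hβ : β ≤ 1) {V : ℝ} (hV : 1 ≤ V) {x y : ℝ} (hx : 0 ≤ x) (hxy : x ≤ y) :
    om β V x ≤ om β V y := by
  unfold om
  refine Real.rpow_le_rpow (le_min zero_le_one (div_nonneg hx (by linarith))) ?_ (by linarith)
  exact min_le_min le_rfl (div_le_div_of_nonneg_right hxy (by linarith))

/-- `om_V(R) ≤ om_{max(V,R₁)}(R)` for `R > R₁` -/
lemma om_max' (hβ : β ≤ 1) {V R₁ R : ℝ} (hV : 1 ≤ V) (hR₁ : 1 ≤ R₁) (hR : R₁ < R) :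
    om β V R ≤ om β (max V R₁) R := by
  rcases le_total R₁ V with h | h
  · rw [max_eq_left h]
  · rw [max_eq_right h]
    have h1 : om β R₁ R = 1 := by
      unfold om
      rw [min_eq_left ((one_le_div (by linarith)).2 hR.le), Real.one_rpow]
    rw [h1]
    exact om_le1 hβ hV (by linarith)

lemma om_cont' (hβ : β ≤ 1) (V : ℝ) : Continuous fun R : ℝ => om β V R := by
  unfold om
  exact (continuous_const.min (continuous_id.div_const V)).rpow_const fun _ => Or.inr (by linarith)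

/-- `om_1(R) = 1` for `R ≥ 1` -/
lemma om_one {R : ℝ} (hR : 1 ≤ R) : om β 1 R = 1 := by
  unfold om
  rw [div_one, min_eq_left hR, Real.one_rpow]

lemma om_RR (hβ : β ≤ 1) {V : ℝ} (hV : 1 ≤ V) (v w : Vec d) :
    0 ≤ om β V (RR v w) ∧ om β V (RR v w) ≤ 1 :=
  ⟨om_nn hV (RR_pos v w).le, om_le1 hβ hV (RR_pos v w).le⟩

/-! ### lengths -/

lemma len_pos' {x : Vec d} : 0 < len x ↔ x ≠ 0 := by
  refine ⟨fun h h0 => ?_, len_pos⟩
  rw [h0, len_zero] at h
  exact lt_irrefl _ h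

lemma len_sub_pos {x y : Vec d} : 0 < len (x - y) ↔ x ≠ y := by
  rw [len_pos', sub_ne_zero]

lemma len_le_two (v w : Vec d) : len (v - w) ≤ 2 * RR v w := len_le_RR v w

/-! ### measurability -/

lemma m_len (v₀ : Vec d) : Measurable fun p : Vec d × Vec d × Vec d => len (p.1 - v₀) :=
  (continuous_len.comp (by fun_prop : Continuous fun p : Vec d × Vec d × Vec d =>
    p.1 - v₀)).measurable

lemma m_nsq0 (v₀ : Vec d) : Measurable fun p : Vec d × Vec d × Vec d => nsq (p.1 - v₀) :=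
  (continuous_sq.comp (by fun_prop : Continuous fun p : Vec d × Vec d × Vec d =>
    p.1 - v₀)).measurable

lemma m_lenV : Measurable fun p : Vec d × Vec d × Vec d => len (p.1 - p.2.1) :=
  (continuous_len.comp (by fun_prop : Continuous fun p : Vec d × Vec d × Vec d =>
    p.1 - p.2.1)).measurable

lemma m_nsqV : Measurable fun p : Vec d × Vec d × Vec d => nsq (p.1 - p.2.1) :=
  (continuous_sq.comp (by fun_prop : Continuous fun p : Vec d × Vec d × Vec d =>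
    p.1 - p.2.1)).measurable

lemma m_RR : Measurable fun p : Vec d × Vec d × Vec d => RR p.1 p.2.1 :=
  (RR_cont.comp (by fun_prop : Continuous fun p : Vec d × Vec d × Vec d =>
    ((p.1, p.2.1) : Vec d × Vec d))).measurable

lemma m_ang : Measurable fun p : Vec d × Vec d × Vec d =>
    nsq (p.1 - p.2.1) * (1 - cosTh p.1 p.2.1 p.2.2) :=
  m_nsqV.mul (measurable_const.sub measurable_cosTh)

lemma m_len2 (v₀ : Vec d) : Measurable fun q : Vec d × Vec d => len (q.1 - v₀) :=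
  (continuous_len.comp (by fun_prop : Continuous fun q : Vec d × Vec d => q.1 - v₀)).measurable

lemma m_nsq2 (v₀ : Vec d) : Measurable fun q : Vec d × Vec d => nsq (q.1 - v₀) :=
  (continuous_sq.comp (by fun_prop : Continuous fun q : Vec d × Vec d => q.1 - v₀)).measurable

lemma m_lenV2 : Measurable fun q : Vec d × Vec d => len (q.1 - q.2) :=
  (continuous_len.comp (by fun_prop : Continuous fun q : Vec d × Vec d => q.1 - q.2)).measurable

lemma m_nsqV2 : Measurable fun q : Vec d × Vec d => nsq (q.1 - q.2) :=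
  (continuous_sq.comp (by fun_prop : Continuous fun q : Vec d × Vec d => q.1 - q.2)).measurable

lemma wN_meas (hβ : β ≤ 1) (a V : ℝ) : Measurable fun q : Vec d × Vec d => wN a β V q := by
  unfold wN
  exact ((m_lenV2.pow_const _).mul (measurable_const.add (m_lenV2.pow_const _))).mul
    ((om_cont' hβ V).comp RR_cont).measurable

lemma wS_meas (hβ : β ≤ 1) (s a V : ℝ) (v₀ : Vec d) :
    Measurable fun q : Vec d × Vec d => wS s a β V v₀ q := by
  unfold wS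
  exact ((m_lenV2.pow_const _).mul ((m_len2 v₀).pow_const _)).mul
    ((om_cont' hβ V).comp RR_cont).measurable

lemma WA_meas (hβ : β ≤ 1) (a V : ℝ) (v₀ : Vec d) : Measurable (WA (d := d) a β V v₀) := by
  unfold WA
  exact ((m_len v₀).pow_const _).mul ((om_cont' hβ V).measurable.comp m_RR)

lemma AnnS_meas (Λ t : ℝ) (v₀ : Vec d) : MeasurableSet (AnnS Λ t v₀) := by
  have h1 : MeasurableSet {p : Vec d × Vec d × Vec d | 0 < len (p.1 - v₀)} :=
    measurableSet_lt measurable_const (m_len v₀)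
  have h2 : MeasurableSet {p : Vec d × Vec d × Vec d | len (p.1 - v₀) ≤ 1} :=
    measurableSet_le (m_len v₀) measurable_const
  have h3 : MeasurableSet {p : Vec d × Vec d × Vec d |
      12 * Λ * len (p.1 - v₀) ≤ len (p.1 - p.2.1)} :=
    measurableSet_le ((m_len v₀).const_mul _) m_lenV
  have h4 : MeasurableSet {p : Vec d × Vec d × Vec d |
      t * nsq (p.1 - p.2.1) ≤ 2 * Λ ^ 2 * nsq (p.1 - v₀)} :=
    measurableSet_le (m_nsqV.const_mul _) ((m_nsq0 v₀).const_mul _)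
  have h5 : MeasurableSet {p : Vec d × Vec d × Vec d |
      2 * Λ ^ 2 * nsq (p.1 - v₀) ≤ nsq (p.1 - p.2.1) * (1 - cosTh p.1 p.2.1 p.2.2)} :=
    measurableSet_le ((m_nsq0 v₀).const_mul _) m_ang
  have h6 : MeasurableSet {p : Vec d × Vec d × Vec d |
      nsq (p.1 - p.2.1) * (1 - cosTh p.1 p.2.1 p.2.2) ≤ 32 * (2 * Λ ^ 2 * nsq (p.1 - v₀))} :=
    measurableSet_le m_ang (((m_nsq0 v₀).const_mul _).const_mul _)
  exact h1.inter (h2.inter (h3.inter (h4.inter (h5.inter h6))))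

lemma PrN_meas (Λ t : ℝ) (v₀ : Vec d) : MeasurableSet (PrN Λ t v₀) := by
  have h1 : MeasurableSet {q : Vec d × Vec d | 0 < len (q.1 - v₀)} :=
    measurableSet_lt measurable_const (m_len2 v₀)
  have h2 : MeasurableSet {q : Vec d × Vec d | len (q.1 - v₀) ≤ 1} :=
    measurableSet_le (m_len2 v₀) measurable_const
  have h3 : MeasurableSet {q : Vec d × Vec d | 12 * Λ * len (q.1 - v₀) ≤ len (q.1 - q.2)} :=
    measurableSet_le ((m_len2 v₀).const_mul _) m_lenV2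
  have h4 : MeasurableSet {q : Vec d × Vec d |
      t * nsq (q.1 - q.2) ≤ 2 * Λ ^ 2 * nsq (q.1 - v₀)} :=
    measurableSet_le (m_nsqV2.const_mul _) ((m_nsq2 v₀).const_mul _)
  exact h1.inter (h2.inter (h3.inter h4))

lemma PrS_meas (Λ t : ℝ) (v₀ : Vec d) : MeasurableSet (PrS Λ t v₀) := by
  have h1 : MeasurableSet {q : Vec d × Vec d | 0 < len (q.1 - v₀)} :=
    measurableSet_lt measurable_const (m_len2 v₀)
  have h4 : MeasurableSet {q : Vec d × Vec d |
      t * nsq (q.1 - q.2) ≤ 2 * Λ ^ 2 * nsq (q.1 - v₀)} :=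
    measurableSet_le (m_nsqV2.const_mul _) ((m_nsq2 v₀).const_mul _)
  exact h1.inter h4

lemma Sn_meas (R₁ : ℝ) : MeasurableSet (Sn d R₁) := measurableSet_le m_RR measurable_const

lemma Sm_meas (R₁ : ℝ) : MeasurableSet (Sm d R₁) :=
  (measurableSet_lt measurable_const m_RR).inter (measurableSet_lt m_ang measurable_const)

lemma Sd_meas (R₁ : ℝ) : MeasurableSet (Sd d R₁) :=
  (measurableSet_lt measurable_const m_RR).inter (measurableSet_le measurable_const m_ang)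

/-! ### collisions -/

lemma RR_coll {v w σ : Vec d} (hσ : nsq σ = 1) :
    RR (coll (v, w, σ)).1 (coll (v, w, σ)).2.1 = RR v w := RR_post hσ

lemma nsq_coll {v w σ : Vec d} (hσ : nsq σ = 1) :
    nsq ((coll (v, w, σ)).1 - (coll (v, w, σ)).2.1) = nsq (v - w) := by
  have h := len_post (v := v) (w := w) hσ
  show nsq (post v w σ - post' v w σ) = nsq (v - w)
  rw [← len_sq, ← len_sq, h]

lemma cosTh_coll {v w σ : Vec d} (h : v ≠ w) (hσ : nsq σ = 1) :
    cosTh (coll (v, w, σ)).1 (coll (v, w, σ)).2.1 (coll (v, w, σ)).2.2 = cosTh v w σ :=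
  cosTh_post h hσ

lemma coll_coll {v w σ : Vec d} (h : v ≠ w) (hσ : nsq σ = 1) :
    coll (coll (v, w, σ)) = (v, w, σ) := by
  show (post (post v w σ) (post' v w σ) (dirk v w), post' (post v w σ) (post' v w σ) (dirk v w),
    dirk (post v w σ) (post' v w σ)) = (v, w, σ)
  rw [post_post h hσ, post'_post h hσ, dirk_post h hσ]

lemma Sn_coll (R₁ : ℝ) {v w σ : Vec d} (_ : v ≠ w) (hσ : nsq σ = 1) :
    coll (v, w, σ) ∈ Sn d R₁ ↔ (v, w, σ) ∈ Sn d R₁ := by
  show RR (coll (v, w, σ)).1 (coll (v, w, σ)).2.1 ≤ R₁ ↔ RR v w ≤ R₁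
  rw [RR_coll hσ]

lemma Sm_coll (R₁ : ℝ) {v w σ : Vec d} (h : v ≠ w) (hσ : nsq σ = 1) :
    coll (v, w, σ) ∈ Sm d R₁ ↔ (v, w, σ) ∈ Sm d R₁ := by
  show (R₁ < RR (coll (v, w, σ)).1 (coll (v, w, σ)).2.1 ∧
    nsq ((coll (v, w, σ)).1 - (coll (v, w, σ)).2.1) *
      (1 - cosTh (coll (v, w, σ)).1 (coll (v, w, σ)).2.1 (coll (v, w, σ)).2.2) < 1) ↔
    (R₁ < RR v w ∧ nsq (v - w) * (1 - cosTh v w σ) < 1)
  rw [RR_coll hσ, nsq_coll hσ, cosTh_coll h hσ]

/-- the three sets cover the collisions -/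
lemma S_split {R₁ : ℝ} {F : Vec d × Vec d × Vec d → ℝ} (hF : Integrable F (mu3 d)) :
    ∫ p, F p ∂(mu3 d) = (∫ p in Sn d R₁, F p ∂(mu3 d)) + (∫ p in Sm d R₁, F p ∂(mu3 d)) +
      ∫ p in Sd d R₁, F p ∂(mu3 d) := by
  have h1 : (Sn d R₁)ᶜ = Sm d R₁ ∪ Sd d R₁ := by
    ext p
    simp only [Sn, Sm, Sd, mem_compl_iff, mem_ofPred_eq, mem_union, not_le]
    constructor
    · intro h
      rcases lt_or_ge (nsq (p.1 - p.2.1) * (1 - cosTh p.1 p.2.1 p.2.2)) 1 with h2 | h2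
      · exact Or.inl ⟨h, h2⟩
      · exact Or.inr ⟨h, h2⟩
    · rintro (h | h) <;> exact h.1
  have h2 : Disjoint (Sm d R₁) (Sd d R₁) := by
    rw [Set.disjoint_left]
    intro p hp hq
    exact absurd hp.2 (not_lt.2 hq.2)
  rw [← integral_add_compl (Sn_meas R₁) hF, h1,
    setIntegral_union h2 (Sd_meas R₁) hF.integrableOn hF.integrableOn, add_assoc]

/-! ### Fubini -/

lemma fub (H : Hyp d (1 + a) s b C Ca) {ε : ℝ} (hε : 0 < ε) {G : Vec d → ℝ} (hG : RD G)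
    (hGc : Continuous G) {X : Vec d × Vec d × Vec d → ℝ} (hX : Measurable X) (hB : PB X)
    {S : Set (Vec d × Vec d × Vec d)} (hS : MeasurableSet S) :
    Integrable (fun q : Vec d × Vec d => G q.1 * G q.2 *
      ∫ σ in {σ : Vec d | (q.1, q.2, σ) ∈ S},
        kerB (1 + a) b ε q.1 q.2 σ * X (q.1, q.2, σ) ∂(surf d)) ∧
    ∫ p in S, kx (1 + a) b ε G p * X p ∂(mu3 d) =
      ∫ q : Vec d × Vec d, G q.1 * G q.2 *
        ∫ σ in {σ : Vec d | (q.1, q.2, σ) ∈ S}, kerB (1 + a) b ε q.1 q.2 σ * X (q.1, q.2, σ)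
          ∂(surf d) := by
  have i := (kx_int H hε hG hGc hX hB).indicator hS
  have h3 : MeasurePreserving (MeasurableEquiv.prodAssoc (α := Vec d) (β := Vec d) (γ := Vec d))
      (((volume : Measure (Vec d)).prod volume).prod (surf d)) (mu3 d) :=
    measurePreserving_prodAssoc _ _ _
  have i2 := h3.integrable_comp_of_integrable i
  have e0 := h3.integral_comp' (S.indicator fun p : Vec d × Vec d × Vec d =>
    kx (1 + a) b ε G p * X p)
  have ei : (fun q : Vec d × Vec d => ∫ σ, ((S.indicator fun p : Vec d × Vec d × Vec d =>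
      kx (1 + a) b ε G p * X p) ∘
      (MeasurableEquiv.prodAssoc (α := Vec d) (β := Vec d) (γ := Vec d))) (q, σ) ∂(surf d)) =
      fun q : Vec d × Vec d => G q.1 * G q.2 *
        ∫ σ in {σ : Vec d | (q.1, q.2, σ) ∈ S}, kerB (1 + a) b ε q.1 q.2 σ * X (q.1, q.2, σ)
          ∂(surf d) := by
    funext q
    have hSq : MeasurableSet {σ : Vec d | (q.1, q.2, σ) ∈ S} :=
      (measurable_const.prodMk (measurable_const.prodMk measurable_id)) hS
    rw [← integral_const_mul, ← integral_indicator hSq]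
    refine integral_congr_ae (Eventually.of_forall fun σ => ?_)
    change S.indicator (fun p : Vec d × Vec d × Vec d => kx (1 + a) b ε G p * X p)
      (q.1, q.2, σ) = {σ : Vec d | (q.1, q.2, σ) ∈ S}.indicator
        (fun σ => G q.1 * G q.2 * (kerB (1 + a) b ε q.1 q.2 σ * X (q.1, q.2, σ))) σ
    by_cases hm : (q.1, q.2, σ) ∈ S
    · rw [indicator_of_mem hm, indicator_of_mem (show σ ∈ {σ : Vec d | (q.1, q.2, σ) ∈ S} from hm)]
      unfold kx
      ring
    · rw [indicator_of_notMem hm,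
        indicator_of_notMem (show σ ∉ {σ : Vec d | (q.1, q.2, σ) ∈ S} from hm)]
  have i3 := i2.integral_prod_left
  have e2 := integral_prod _ i2
  rw [ei] at i3 e2
  refine ⟨i3, ?_⟩
  rw [← integral_indicator hS]
  exact e0.symm.trans e2

/-- almost every pair has `v ≠ w`, `v ≠ v₀`, `w ≠ v₀` -/
lemma ae_off (hd : 1 ≤ d) (v₀ : Vec d) : ∀ᵐ q ∂(volume : Measure (Vec d × Vec d)),
    q.1 ≠ q.2 ∧ q.1 ≠ v₀ ∧ q.2 ≠ v₀ := by
  have hne : Nonempty (Fin d) := ⟨⟨0, by omega⟩⟩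
  have hs : MeasurableSet {q : Vec d × Vec d | q.1 ≠ q.2 ∧ q.1 ≠ v₀ ∧ q.2 ≠ v₀} :=
    (isClosed_eq continuous_fst continuous_snd).measurableSet.compl.inter
      ((isClosed_eq continuous_fst continuous_const).measurableSet.compl.inter
        (isClosed_eq continuous_snd continuous_const).measurableSet.compl)
  have h0 : (volume : Measure (Vec d)) {v₀} = 0 := measure_singleton v₀
  refine (Measure.ae_prod_iff_ae_ae hs).2 ?_
  filter_upwards [compl_mem_ae_iff.2 h0] with v hv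
  have : (volume : Measure (Vec d)) {v} = 0 := measure_singleton v
  filter_upwards [compl_mem_ae_iff.2 this, compl_mem_ae_iff.2 h0] with w hw hw0
  exact ⟨fun h => hw h.symm, fun h => hv h, fun h => hw0 h⟩

/-- an upper bound of a collision integral by an integral over the pairs -/
lemma maj (H : Hyp d (1 + a) s b C Ca) {ε : ℝ} (hε : 0 < ε) {G : Vec d → ℝ} (hG : RD G)
    (hGc : Continuous G) {X : Vec d × Vec d × Vec d → ℝ} (hX : Measurable X) (hB : PB X)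
    {S : Set (Vec d × Vec d × Vec d)} (hS : MeasurableSet S) (v₀ : Vec d) {M : Vec d × Vec d → ℝ}
    (hM : Integrable M) (hle : ∀ v w : Vec d, v ≠ w → v ≠ v₀ → w ≠ v₀ → G v * G w *
      ∫ σ in {σ : Vec d | (v, w, σ) ∈ S}, kerB (1 + a) b ε v w σ * X (v, w, σ) ∂(surf d) ≤
        M (v, w)) :
    ∫ p in S, kx (1 + a) b ε G p * X p ∂(mu3 d) ≤ ∫ q, M q := by
  obtain ⟨i1, e1⟩ := fub H hε hG hGc hX hB hS
  rw [e1]
  refine integral_mono_ae i1 hM ?_
  filter_upwards [ae_off H.hd1 v₀] with q hq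
  exact hle q.1 q.2 hq.1 hq.2.1 hq.2.2

/-! ### test functions -/

lemma cu_bd (E : EP0 s a β) {v₀ : Vec d} {V₁ A : ℝ} (hV : 1 ≤ V₁) (hA : 0 ≤ A) {ψ : Vec d → ℝ}
    (h : CuspT τ a β v₀ V₁ A ψ) (w w' : Vec d) : |ψ w - ψ w'| ≤ A * len (w - w') ^ a := by
  refine (h.h1 w w').trans (mul_le_mul_of_nonneg_left ?_ hA)
  have h4 : om β V₁ (max (jb w) (jb w')) ≤ 1 :=
    om_le1 E.hβ1.le hV (zero_le_one.trans ((one_le_jb w).trans (le_max_left _ _)))
  calc om β V₁ (max (jb w) (jb w')) * len (w - w') ^ a ≤ 1 * len (w - w') ^ a :=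
        mul_le_mul_of_nonneg_right h4 (Real.rpow_nonneg (len_nonneg _) _)
    _ = _ := one_mul _

lemma cu_lin (E : EP0 s a β) {v₀ : Vec d} {V₁ A : ℝ} (hV : 1 ≤ V₁) (hA : 0 ≤ A) {ψ : Vec d → ℝ}
    (h : CuspT τ a β v₀ V₁ A ψ) (v : Vec d) :
    |ψ v - ψ 0| ≤ A * ((d : ℝ) + 1) * (1 + ‖v‖) := by
  have h4 := cu_bd E hV hA h v 0
  rw [sub_zero] at h4
  have h5 : len v ^ a ≤ jb v := by
    calc len v ^ a ≤ jb v ^ a := Real.rpow_le_rpow (len_nonneg v) (len_le_jb v) E.ha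
      _ ≤ jb v ^ (1 : ℝ) := Real.rpow_le_rpow_of_exponent_le (one_le_jb v) E.a1.le
      _ = jb v := Real.rpow_one _
  have h6 := jb_le_w v
  calc |ψ v - ψ 0| ≤ A * len v ^ a := h4
    _ ≤ A * (((d : ℝ) + 1) * (1 + ‖v‖)) := mul_le_mul_of_nonneg_left (h5.trans h6) hA
    _ = _ := by ring

lemma cu_PG (E : EP0 s a β) {v₀ : Vec d} {V₁ A : ℝ} (hV : 1 ≤ V₁) (hA : 0 ≤ A) {ψ : Vec d → ℝ}
    (h : CuspT τ a β v₀ V₁ A ψ) : PG ψ := by
  refine ⟨1, |ψ 0| + A * ((d : ℝ) + 1), fun v => ?_⟩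
  have h2 := cu_lin E hV hA h v
  have h3 : |ψ v| ≤ |ψ v - ψ 0| + |ψ 0| := by
    have := abs_add_le (ψ v - ψ 0) (ψ 0)
    rwa [sub_add_cancel] at this
  have h4 : (0 : ℝ) ≤ ‖v‖ := norm_nonneg v
  rw [Real.norm_eq_abs, pow_one]
  nlinarith [abs_nonneg (ψ 0)]

/-- the weak form at the cut-off level -/
lemma weak_c (H : Hyp d (1 + a) s b C Ca) {ε : ℝ} (hε : 0 < ε) {G : Vec d → ℝ} (hG : RD G)
    (hGc : Continuous G) {φ : Vec d → ℝ} (hφ : PG φ) (hφm : Measurable φ) :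
    ∫ v, boltzCut (1 + a) b ε G v * φ v =
      (1 / 2) * ∫ p, kx (1 + a) b ε G p * dX φ p ∂(mu3 d) :=
  weak_cut H.hd H.g1 H.g2 H.bm H.bd H.β0 hε hG hGc hφ hφm

end Pool.Agent.H87.PZ
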