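import Pool.Agent.H87.PZ.IntC

/-!
# Module CutC: a cusp test function at the cut-off level

As `eh_cut` in H87/PE/Hold.lean. `2 ∫ Q_ε(G) ψ = ∫ kx dX ψ` (`weak_c`; `cu_cont`, `cu_PG`), integrable (`kx_int`, `dX_meas`, `dX_PB`), `= ∫_{Sn} + ∫_{Sm} + ∫_{Sd}` (`S_split`).
`Sn`: `cs_cut` with `lam`: `≤ (1/lam) Pc + (lam/4) ∫_{Sn} kx dX²`, `int_nr`. `Sm`: `cs_cut` with `1`: `≤ Pc + (1/4) ∫_{Sm} kx dX²`, `int_md`. `Sd`: `int_dr`. Invariance of the sets: `Sn_coll`, `Sm_coll`. `K` = sum of the three constants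
(`XN, SS, Pc ≥ 0`: `XN_nonneg`, `SS_nonneg`, `Pc_nonneg`).
-/

set_option autoImplicit false

open MeasureTheory Set Filter Topology Pool.Agent.H25.Kin Pool.Agent.H48.PL
open Pool.Agent.H48.PI (om)
open Pool.Agent.H48.PW (sP)
open Pool.Agent.H87.PE
open Pool.Agent.H87.PF (wN XN wS SS AnnS PrN PrS WA Sn Sm Sd)

namespace Pool.Agent.H87.PZ

variable {d : ℕ} {s a β τ C Ca : ℝ} {b : ℝ → ℝ}

theorem cusp_cut (H : Hyp d (1 + a) s b C Ca) (E : EP0 s a β) (T : TP s a τ) : ∃ K : ℝ, 0 ≤ K ∧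
    ∀ R₁ : ℝ, 1 ≤ R₁ → ∀ lam : ℝ, 0 < lam → ∀ G : Vec d → ℝ, Gd G → ∀ ε : ℝ, 0 < ε →
    ∀ V₁ : ℝ, 1 ≤ V₁ → ∀ A : ℝ, 0 ≤ A → ∀ (v₀ : Vec d) (ψ : Vec d → ℝ), CuspT τ a β v₀ V₁ A ψ →
    2 * |∫ v, boltzCut (1 + a) b ε G v * ψ v| ≤ (1 / lam + 1) * Pc (1 + a) b ε G +
      lam * K * A ^ 2 * (R₁ ^ 2 * om β V₁ R₁ ^ 2) * (XN a β 1 G + SS s a β 1 v₀ G) +
      K * (A + A ^ 2) * (XN a β (max V₁ R₁) G + SS s a β (max V₁ R₁) v₀ G) := by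
  obtain ⟨K₁, hK₁, hnr⟩ := int_nr (τ := τ) H E T
  obtain ⟨K₂, hK₂, hmd⟩ := int_md (τ := τ) H E T
  obtain ⟨K₃, hK₃, hdr⟩ := int_dr (τ := τ) H E
  refine ⟨K₁ + K₂ + K₃, by positivity, ?_⟩
  intro R₁ hR₁ lam hl G hG ε hε V₁ hV₁ A hA v₀ ψ hψ
  have hG0 : ∀ v, 0 ≤ G v := fun v => (hG.pos v).le
  have hPG := cu_PG E hV₁ hA hψ
  have hm := hψ.meas
  have hi : Integrable (fun p => kx (1 + a) b ε G p * dX ψ p) (mu3 d) :=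
    kx_int H hε hG.rd hG.cont (dX_meas hm) (dX_PB hPG)
  have hw := weak_c H hε hG.rd hG.cont hPG hm
  rw [S_split (R₁ := R₁) hi] at hw
  have a1 := cs_cut H hε hG hPG hm (Sn_meas R₁) (fun v w σ h hσ => Sn_coll R₁ h hσ) hl
  have a2 := cs_cut H hε hG hPG hm (Sm_meas R₁) (fun v w σ h hσ => Sm_coll R₁ h hσ) one_pos
  have a3 := hdr G hG.rd hG.cont hG0 ε hε V₁ hV₁ R₁ hR₁ A hA v₀ ψ hψ
  have c1 := hnr G hG.rd hG.cont hG0 ε hε V₁ hV₁ R₁ hR₁ A hA v₀ ψ hψ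
  have c2 := hmd G hG.rd hG.cont hG0 ε hε V₁ hV₁ R₁ hR₁ A hA v₀ ψ hψ
  have hmx : 1 ≤ max V₁ R₁ := hV₁.trans (le_max_left _ _)
  have n1 : 0 ≤ XN a β 1 G + SS s a β 1 v₀ G :=
    add_nonneg (XN_nonneg hG0 le_rfl) (SS_nonneg hG0 le_rfl v₀)
  have n2 := XN_nonneg (a := a) (β := β) hG0 hmx
  have n3 := SS_nonneg (s := s) (a := a) (β := β) hG0 hmx v₀
  generalize XN a β 1 G + SS s a β 1 v₀ G = X₁ at c1 n1 ⊢
  generalize XN a β (max V₁ R₁) G = Y at a3 c2 n2 ⊢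
  generalize SS s a β (max V₁ R₁) v₀ G = Z at c2 n3 ⊢
  have hT : 0 ≤ R₁ ^ 2 * om β V₁ R₁ ^ 2 := by positivity
  generalize R₁ ^ 2 * om β V₁ R₁ ^ 2 = T at c1 hT ⊢
  have b1 : (lam / 4) * (K₁ * A ^ 2 * T * X₁) ≤ lam * (K₁ + K₂ + K₃) * A ^ 2 * T * X₁ := by
    have e1 : (lam / 4) * (K₁ * A ^ 2 * T * X₁) = (lam * K₁ / 4) * (A ^ 2 * T * X₁) := by ring
    have e2 : lam * (K₁ + K₂ + K₃) * A ^ 2 * T * X₁ =
        (lam * K₁ + lam * K₂ + lam * K₃) * (A ^ 2 * T * X₁) := by ring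
    rw [e1, e2]
    refine mul_le_mul_of_nonneg_right ?_ (by positivity)
    have f1 : 0 ≤ lam * K₁ := by positivity
    have f2 : 0 ≤ lam * K₂ := by positivity
    have f3 : 0 ≤ lam * K₃ := by positivity
    linarith
  have b2 : (1 / 4) * (K₂ * A ^ 2 * (Y + Z)) + K₃ * A * Y ≤
      (K₁ + K₂ + K₃) * (A + A ^ 2) * (Y + Z) := by
    have f1 : 0 ≤ K₁ * (A + A ^ 2) * (Y + Z) := by positivity
    have f2 : 0 ≤ K₂ * A * (Y + Z) := by positivity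
    have f3 : 0 ≤ K₂ * A ^ 2 * (Y + Z) := by positivity
    have f4 : 0 ≤ K₃ * A ^ 2 * (Y + Z) := by positivity
    have f5 : 0 ≤ K₃ * A * Z := by positivity
    have e1 : (K₁ + K₂ + K₃) * (A + A ^ 2) * (Y + Z) = K₁ * (A + A ^ 2) * (Y + Z) +
        K₂ * A * (Y + Z) + K₂ * A ^ 2 * (Y + Z) + K₃ * A ^ 2 * (Y + Z) + K₃ * A * Y +
        K₃ * A * Z := by ring
    rw [e1]
    linarith
  have b3 := mul_le_mul_of_nonneg_left c1 (by positivity : (0 : ℝ) ≤ lam / 4)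
  have b4 := mul_le_mul_of_nonneg_left c2 (by norm_num : (0 : ℝ) ≤ 1 / 4)
  have b5 : 2 * |∫ v, boltzCut (1 + a) b ε G v * ψ v| ≤
      |∫ p in Sn d R₁, kx (1 + a) b ε G p * dX ψ p ∂(mu3 d)| +
      |∫ p in Sm d R₁, kx (1 + a) b ε G p * dX ψ p ∂(mu3 d)| +
      |∫ p in Sd d R₁, kx (1 + a) b ε G p * dX ψ p ∂(mu3 d)| := by
    rw [hw, abs_mul, abs_of_pos (by norm_num : (0 : ℝ) < 1 / 2)]
    have := abs_add_three (∫ p in Sn d R₁, kx (1 + a) b ε G p * dX ψ p ∂(mu3 d))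
      (∫ p in Sm d R₁, kx (1 + a) b ε G p * dX ψ p ∂(mu3 d))
      (∫ p in Sd d R₁, kx (1 + a) b ε G p * dX ψ p ∂(mu3 d))
    linarith
  rw [one_div_one, one_mul] at a2
  have e1 : (1 / lam + 1) * Pc (1 + a) b ε G = (1 / lam) * Pc (1 + a) b ε G + Pc (1 + a) b ε G := by
    ring
  rw [e1]
  linarith

end Pool.Agent.H87.PZ
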