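import Pool.Agent.H87.PZ.IntC
import Pool.Agent.H87.PE.Coe
import Pool.Agent.H87.PE.Cs

/-!
# Module CutR: the renormalised part at the cut-off level

Copy `er_sq`, `er_inc`, `er_cut` of H87/PE/Ren.lean with `XS a G univ` replaced by `Y = XN a β 1 G + SS s a β 1 v₀ G`, `int_inc` by `int_cb`, `int_neg` by `int_ng`, `GG_le` by `GG_le'` (`SS ≥ 0`: `SS_nonneg`). `ψ` is measurable and bounded by `A` (`CuspB`), it need not be continuous.
`∫ kx (bet' G' ψ' - bet' G ψ)² ≤ 2A² ∫ kx (bet' G' - bet' G)² + 2 ∫ kx (ψ' - ψ)²`, first part: `Hf`: `9 (Pc + K₂ GG)` (`bet_sq`, `coer`), `Hfᶜ`: `int_ng`.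
-/

set_option autoImplicit false

open MeasureTheory Set Filter Topology Pool.Agent.H25.Kin Pool.Agent.H48.PL
open Pool.Agent.H48.PI (om bet')
open Pool.Agent.H48.PW (sP)
open Pool.Agent.H87.PE
open Pool.Agent.H87.PF (wN XN wS SS AnnS PrN PrS WA Sn Sm Sd)

namespace Pool.Agent.H87.PZ

variable {d : ℕ} {s a β τ C Ca : ℝ} {b : ℝ → ℝ}

private lemma er_PG {φ : Vec d → ℝ} {A : ℝ} (h : ∀ v, |φ v| ≤ A) : PG φ := by
  refine ⟨0, A, fun v => ?_⟩
  rw [pow_zero, mul_one, Real.norm_eq_abs]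
  exact h v

private lemma er_PB {X : Vec d × Vec d × Vec d → ℝ} {A : ℝ} (hA : 0 ≤ A) (h : ∀ p, |X p| ≤ A) :
    PB X := ⟨0, A, hA, fun v w σ _ => by rw [pow_zero, mul_one]; exact h _⟩

/-- the square of the increment of a bounded function -/
private lemma er_sq {γ : ℝ} (H : Hyp d γ s b C Ca) {ε : ℝ} (hε : 0 < ε) {G : Vec d → ℝ} (hG : RD G)
    (hGc : Continuous G) (hG0 : ∀ v, 0 ≤ G v) {L : Vec d → ℝ} {A : ℝ} (hL : ∀ v, |L v| ≤ A)
    (hLm : Measurable L) :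
    ∫ p, kx γ b ε G p * dX L p ^ 2 ∂(mu3 d) ≤
      4 * ∫ p, kx γ b ε G p * (L (post p.1 p.2.1 p.2.2) - L p.1) ^ 2 ∂(mu3 d) := by
  have hA : 0 ≤ A := (abs_nonneg _).trans (hL 0)
  have mpost := (continuous_post (d := d)).measurable
  have mpost' := (continuous_post' (d := d)).measurable
  have mv : Measurable fun p : Vec d × Vec d × Vec d => p.1 := measurable_fst
  have mw : Measurable fun p : Vec d × Vec d × Vec d => p.2.1 := measurable_fst.comp measurable_snd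
  have m1 : Measurable fun p : Vec d × Vec d × Vec d => (L (post p.1 p.2.1 p.2.2) - L p.1) ^ 2 :=
    ((hLm.comp mpost).sub (hLm.comp mv)).pow_const 2
  have m2 : Measurable fun p : Vec d × Vec d × Vec d => (L (post' p.1 p.2.1 p.2.2) - L p.2.1) ^ 2 :=
    ((hLm.comp mpost').sub (hLm.comp mw)).pow_const 2
  have hsq : ∀ x y : Vec d, (L x - L y) ^ 2 ≤ (2 * A) ^ 2 := by
    intro x y
    have h1 := abs_le.1 (hL x)
    have h2 := abs_le.1 (hL y)
    have h3 : |L x - L y| ≤ 2 * A := by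
      rw [abs_le]
      constructor <;> linarith
    calc (L x - L y) ^ 2 = |L x - L y| ^ 2 := (sq_abs _).symm
      _ ≤ (2 * A) ^ 2 := pow_le_pow_left₀ (abs_nonneg _) h3 2
  have B1 : PB fun p : Vec d × Vec d × Vec d => (L (post p.1 p.2.1 p.2.2) - L p.1) ^ 2 :=
    er_PB (A := (2 * A) ^ 2) (by positivity) fun p => by
      rw [abs_of_nonneg (sq_nonneg _)]; exact hsq _ _
  have B2 : PB fun p : Vec d × Vec d × Vec d => (L (post' p.1 p.2.1 p.2.2) - L p.2.1) ^ 2 :=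
    er_PB (A := (2 * A) ^ 2) (by positivity) fun p => by
      rw [abs_of_nonneg (sq_nonneg _)]; exact hsq _ _
  have i1 := kx_int H hε hG hGc m1 B1
  have i2 := kx_int H hε hG hGc m2 B2
  have e : ∫ p, kx γ b ε G p * (L (post' p.1 p.2.1 p.2.2) - L p.2.1) ^ 2 ∂(mu3 d) =
      ∫ p, kx γ b ε G p * (L (post p.1 p.2.1 p.2.2) - L p.1) ^ 2 ∂(mu3 d) := by
    rw [← exch_sw H ε hGc.measurable m1]
    refine integral_congr_ae (Eventually.of_forall fun p => ?_)
    obtain ⟨v, w, σ⟩ := p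
    have hp : post w v (-σ) = post' v w σ := by
      have hl : len (w - v) = len (v - w) := by
        have h : nsq (w - v) = nsq (v - w) := by
          unfold nsq
          exact Finset.sum_congr rfl fun i _ => by simp only [Pi.sub_apply]; ring
        unfold len
        rw [h]
      unfold post post'
      rw [hl, smul_neg, add_comm w v, ← sub_eq_add_neg]
    simp only [exch]
    rw [hp]
  have hk := kx_nonneg H hε hG0
  have step : ∫ p, kx γ b ε G p * dX L p ^ 2 ∂(mu3 d) ≤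
      ∫ p, (2 * (kx γ b ε G p * (L (post p.1 p.2.1 p.2.2) - L p.1) ^ 2) +
        2 * (kx γ b ε G p * (L (post' p.1 p.2.1 p.2.2) - L p.2.1) ^ 2)) ∂(mu3 d) := by
    refine integral_mono_of_nonneg ?_ ((i1.const_mul 2).add (i2.const_mul 2)) ?_
    · filter_upwards [hk] with p hp
      exact mul_nonneg hp (sq_nonneg _)
    · filter_upwards [hk] with p hp
      have h1 : dX L p ^ 2 ≤ 2 * (L (post p.1 p.2.1 p.2.2) - L p.1) ^ 2 +
          2 * (L (post' p.1 p.2.1 p.2.2) - L p.2.1) ^ 2 := by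
        unfold dX
        nlinarith [sq_nonneg ((L (post p.1 p.2.1 p.2.2) - L p.1) -
          (L (post' p.1 p.2.1 p.2.2) - L p.2.1))]
      have h2 := mul_le_mul_of_nonneg_left h1 hp
      linarith
  rw [integral_add (i1.const_mul 2) (i2.const_mul 2), integral_const_mul, integral_const_mul, e] at step
  linarith

/-- the increments of the renormalization -/
private lemma er_inc (H : Hyp d (1 + a) s b C Ca) (E : EP0 s a β) (T : TP s a τ) : ∃ K : ℝ, 0 ≤ K ∧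
    ∀ C₀ : ℝ, 0 < C₀ → ∀ G : Vec d → ℝ, Gd G → ∀ ε : ℝ, 0 < ε → ∀ A : ℝ, 0 ≤ A → ∀ (v₀ : Vec d)
    (ψ : Vec d → ℝ), CuspBT τ a v₀ A ψ →
    ∫ p, kx (1 + a) b ε G p * (bet' C₀ (G (post p.1 p.2.1 p.2.2)) * ψ (post p.1 p.2.1 p.2.2) -
        bet' C₀ (G p.1) * ψ p.1) ^ 2 ∂(mu3 d) ≤
      A ^ 2 * (18 * Pc (1 + a) b ε G + K * (XN a β 1 G + SS s a β 1 v₀ G)) := by
  obtain ⟨K₁, hK₁, hinc⟩ := int_cb (τ := τ) H E T
  obtain ⟨K₂, hK₂, hcoer⟩ := coer H
  obtain ⟨K₃, hK₃, hneg⟩ := int_ng H E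
  refine ⟨2 * K₁ + 18 * K₂ + 2 * K₃, by positivity, ?_⟩
  intro C₀ hC₀ G hG ε hε A hA v₀ ψ hψ
  have hψA := hψ.h0
  have hψm := hψ.meas
  have hG0 : ∀ v, 0 ≤ G v := fun v => (hG.pos v).le
  have mpost := (continuous_post (d := d)).measurable
  have mv : Measurable fun p : Vec d × Vec d × Vec d => p.1 := measurable_fst
  have hbm : Measurable fun v => bet' C₀ (G v) := by
    unfold bet'
    exact ((measurable_const.div (hG.cont.measurable.const_add C₀))).pow_const 2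
  have hbc0 : ∀ v, 0 ≤ bet' C₀ (G v) := fun v => bet_nonneg _ _
  have hbc1 : ∀ v, bet' C₀ (G v) ≤ 1 := fun v => bet_le_one hC₀ (hG0 v)
  -- the two pieces
  set X : Vec d × Vec d × Vec d → ℝ := fun p =>
    (bet' C₀ (G (post p.1 p.2.1 p.2.2)) - bet' C₀ (G p.1)) ^ 2 with hX
  set Y : Vec d × Vec d × Vec d → ℝ := fun p => (ψ (post p.1 p.2.1 p.2.2) - ψ p.1) ^ 2 with hY
  have mX : Measurable X := ((hbm.comp mpost).sub (hbm.comp mv)).pow_const 2
  have mY : Measurable Y := ((hψm.comp mpost).sub (hψm.comp mv)).pow_const 2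
  have hX1 : ∀ p, X p ≤ 1 := by
    intro p
    have a1 := hbc0 (post p.1 p.2.1 p.2.2)
    have a2 := hbc1 (post p.1 p.2.1 p.2.2)
    have a3 := hbc0 p.1
    have a4 := hbc1 p.1
    simp only [hX]
    nlinarith
  have hX0 : ∀ p, 0 ≤ X p := fun p => sq_nonneg _
  have hY0 : ∀ p, 0 ≤ Y p := fun p => sq_nonneg _
  have hY1 : ∀ p, Y p ≤ (2 * A) ^ 2 := by
    intro p
    have h1 := abs_le.1 (hψA (post p.1 p.2.1 p.2.2))
    have h2 := abs_le.1 (hψA p.1)
    have h3 : |ψ (post p.1 p.2.1 p.2.2) - ψ p.1| ≤ 2 * A := by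
      rw [abs_le]
      constructor <;> linarith
    calc Y p = |ψ (post p.1 p.2.1 p.2.2) - ψ p.1| ^ 2 := (sq_abs _).symm
      _ ≤ (2 * A) ^ 2 := pow_le_pow_left₀ (abs_nonneg _) h3 2
  have iX : Integrable (fun p => kx (1 + a) b ε G p * X p) (mu3 d) :=
    kx_int H hε hG.rd hG.cont mX (er_PB (A := 1) zero_le_one fun p => by
      rw [abs_of_nonneg (hX0 p)]; exact hX1 p)
  have iY : Integrable (fun p => kx (1 + a) b ε G p * Y p) (mu3 d) :=
    kx_int H hε hG.rd hG.cont mY (er_PB (A := (2 * A) ^ 2) (by positivity) fun p => by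
      rw [abs_of_nonneg (hY0 p)]; exact hY1 p)
  have hk := kx_nonneg H hε hG0
  have step : ∫ p, kx (1 + a) b ε G p * (bet' C₀ (G (post p.1 p.2.1 p.2.2)) *
        ψ (post p.1 p.2.1 p.2.2) - bet' C₀ (G p.1) * ψ p.1) ^ 2 ∂(mu3 d) ≤
      ∫ p, (2 * A ^ 2 * (kx (1 + a) b ε G p * X p) + 2 * (kx (1 + a) b ε G p * Y p)) ∂(mu3 d) := by
    refine integral_mono_of_nonneg ?_ ((iX.const_mul _).add (iY.const_mul 2)) ?_
    · filter_upwards [hk] with p hp
      exact mul_nonneg hp (sq_nonneg _)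
    · filter_upwards [hk] with p hp
      have h1 : (bet' C₀ (G (post p.1 p.2.1 p.2.2)) * ψ (post p.1 p.2.1 p.2.2) -
          bet' C₀ (G p.1) * ψ p.1) ^ 2 ≤ 2 * A ^ 2 * X p + 2 * Y p := by
        have e : bet' C₀ (G (post p.1 p.2.1 p.2.2)) * ψ (post p.1 p.2.1 p.2.2) -
            bet' C₀ (G p.1) * ψ p.1 =
            (bet' C₀ (G (post p.1 p.2.1 p.2.2)) - bet' C₀ (G p.1)) * ψ (post p.1 p.2.1 p.2.2) +
              bet' C₀ (G p.1) * (ψ (post p.1 p.2.1 p.2.2) - ψ p.1) := by ring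
        rw [e]
        set u := bet' C₀ (G (post p.1 p.2.1 p.2.2)) - bet' C₀ (G p.1) with hu
        set z := ψ (post p.1 p.2.1 p.2.2) with hz
        set y := ψ (post p.1 p.2.1 p.2.2) - ψ p.1 with hy
        set c := bet' C₀ (G p.1) with hcd
        have c0 : 0 ≤ c := hbc0 _
        have c1 : c ≤ 1 := hbc1 _
        have z1 : z ^ 2 ≤ A ^ 2 := by
          rw [← sq_abs]
          exact pow_le_pow_left₀ (abs_nonneg _) (hψA _) 2
        have c2 : c ^ 2 ≤ 1 := pow_le_one₀ c0 c1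
        have eX : X p = u ^ 2 := rfl
        have eY : Y p = y ^ 2 := rfl
        rw [eX, eY]
        have q1 : (u * z) ^ 2 ≤ A ^ 2 * u ^ 2 := by
          have := mul_le_mul_of_nonneg_right z1 (sq_nonneg u)
          calc (u * z) ^ 2 = z ^ 2 * u ^ 2 := by ring
            _ ≤ _ := this
        have q2 : (c * y) ^ 2 ≤ y ^ 2 := by
          have := mul_le_mul_of_nonneg_right c2 (sq_nonneg y)
          calc (c * y) ^ 2 = c ^ 2 * y ^ 2 := by ring
            _ ≤ 1 * y ^ 2 := this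
            _ = y ^ 2 := one_mul _
        nlinarith [sq_nonneg (u * z - c * y)]
      have h2 := mul_le_mul_of_nonneg_left h1 hp
      linarith
  rw [integral_add (iX.const_mul _) (iY.const_mul 2), integral_const_mul, integral_const_mul] at step
  have bY : ∫ p, kx (1 + a) b ε G p * Y p ∂(mu3 d) ≤ K₁ * A ^ 2 * (XN a β 1 G + SS s a β 1 v₀ G) :=
    hinc G hG.rd hG.cont hG0 ε hε A hA v₀ ψ hψ
  have hXN : 0 ≤ XN a β 1 G := XN_nonneg hG0 le_rfl
  have hSS : 0 ≤ SS s a β 1 v₀ G := SS_nonneg hG0 le_rfl v₀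
  have hGG : GG (1 + a) G ≤ (XN a β 1 G + SS s a β 1 v₀ G) := by
    have := GG_le' E hG.rd hG.cont hG0
    linarith
  -- the coercive piece
  have bX : ∫ p, kx (1 + a) b ε G p * X p ∂(mu3 d) ≤
      9 * (Pc (1 + a) b ε G + K₂ * (XN a β 1 G + SS s a β 1 v₀ G)) + K₃ * (XN a β 1 G + SS s a β 1 v₀ G) := by
    rw [← integral_add_compl Hf_meas iX]
    obtain ⟨ic, hc1⟩ := hcoer ε hε G hG
    have p1 : ∫ p in Hf d, kx (1 + a) b ε G p * X p ∂(mu3 d) ≤
        ∫ p in Hf d, 9 * (kerB (1 + a) b ε p.1 p.2.1 p.2.2 *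
          (G p.2.1 * (Real.sqrt (G (post p.1 p.2.1 p.2.2)) - Real.sqrt (G p.1)) ^ 2)) ∂(mu3 d) := by
      refine integral_mono_ae iX.integrableOn (ic.const_mul 9) (ae_restrict_of_ae ?_)
      filter_upwards [ae_good H.hd1] with p hp
      obtain ⟨v, w, σ⟩ := p
      have hkb : 0 ≤ kerB (1 + a) b ε v w σ := kerB_nonneg H.bd hε hp.2
      have h4 := bet_sq hC₀ (hG0 v) (hG0 (post v w σ))
      have h5 := mul_le_mul_of_nonneg_left h4 (mul_nonneg hkb (hG0 w))
      show kerB (1 + a) b ε v w σ * (G w * G v) *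
          (bet' C₀ (G (post v w σ)) - bet' C₀ (G v)) ^ 2 ≤
        9 * (kerB (1 + a) b ε v w σ *
          (G w * (Real.sqrt (G (post v w σ)) - Real.sqrt (G v)) ^ 2))
      calc kerB (1 + a) b ε v w σ * (G w * G v) * (bet' C₀ (G (post v w σ)) - bet' C₀ (G v)) ^ 2
          = kerB (1 + a) b ε v w σ * G w *
            (G v * (bet' C₀ (G (post v w σ)) - bet' C₀ (G v)) ^ 2) := by ring
        _ ≤ _ := h5
        _ = _ := by ring
    rw [integral_const_mul] at p1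
    have ik : Integrable (fun p => kx (1 + a) b ε G p) (mu3 d) := by
      have := kx_int H hε hG.rd hG.cont (measurable_const (a := (1 : ℝ)))
        (er_PB (A := 1) zero_le_one fun _ => by simp)
      simpa using this
    have p2 : ∫ p in (Hf d)ᶜ, kx (1 + a) b ε G p * X p ∂(mu3 d) ≤
        ∫ p in (Hf d)ᶜ, kx (1 + a) b ε G p ∂(mu3 d) := by
      refine integral_mono_ae iX.integrableOn ik.integrableOn (ae_restrict_of_ae ?_)
      filter_upwards [hk] with p hp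
      exact mul_le_of_le_one_right hp (hX1 p)
    have p3 : ∫ p in (Hf d)ᶜ, kx (1 + a) b ε G p ∂(mu3 d) ≤
        K₃ * (XN a β 1 G + SS s a β 1 v₀ G) := by
      have q := hneg G hG.rd hG.cont hG0 ε hε
      have q' := mul_le_mul_of_nonneg_left (le_add_of_nonneg_right hSS :
        XN a β 1 G ≤ XN a β 1 G + SS s a β 1 v₀ G) hK₃
      exact q.trans q'
    have p4 : K₂ * GG (1 + a) G ≤ K₂ * (XN a β 1 G + SS s a β 1 v₀ G) := mul_le_mul_of_nonneg_left hGG hK₂
    linarith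
  have f1 := mul_le_mul_of_nonneg_left bX (by positivity : (0 : ℝ) ≤ 2 * A ^ 2)
  have f2 : 2 * A ^ 2 * (9 * (Pc (1 + a) b ε G + K₂ * (XN a β 1 G + SS s a β 1 v₀ G)) + K₃ * (XN a β 1 G + SS s a β 1 v₀ G)) +
      2 * (K₁ * A ^ 2 * (XN a β 1 G + SS s a β 1 v₀ G)) =
      A ^ 2 * (18 * Pc (1 + a) b ε G + (2 * K₁ + 18 * K₂ + 2 * K₃) * (XN a β 1 G + SS s a β 1 v₀ G)) := by ring
  linarith

theorem ren_cut (H : Hyp d (1 + a) s b C Ca) (E : EP0 s a β) (T : TP s a τ) : ∃ K : ℝ, 0 ≤ K ∧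
    ∀ e₀ : ℝ, 0 < e₀ → e₀ ≤ 1 → ∀ C₀ : ℝ, 0 < C₀ → ∀ G : Vec d → ℝ, Gd G → ∀ ε : ℝ, 0 < ε →
    ∀ A : ℝ, 0 ≤ A → ∀ (v₀ : Vec d) (ψ : Vec d → ℝ), CuspBT τ a v₀ A ψ →
    2 * |∫ v, boltzCut (1 + a) b ε G v * (bet' C₀ (G v) * ψ v)| ≤
      A * ((1 / e₀ + K) * Pc (1 + a) b ε G +
        e₀ * K * (XN a β 1 G + SS s a β 1 v₀ G)) := by
  obtain ⟨K, hK, hinc⟩ := er_inc (τ := τ) H E T
  refine ⟨K + 18, by positivity, ?_⟩
  intro e₀ he₀ he₁ C₀ hC₀ G hG ε hε A hA v₀ ψ hψ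
  have hψA := hψ.h0
  have hψm := hψ.meas
  have hG0 : ∀ v, 0 ≤ G v := fun v => (hG.pos v).le
  have hPc : 0 ≤ Pc (1 + a) b ε G := by
    have q1 := prd_eq H hε hG
    have q2 : 0 ≤ ∫ p, (kx (1 + a) b ε G p - ky (1 + a) b ε G p) * lg G p ∂(mu3 d) :=
      integral_nonneg_of_ae (prd_nonneg H hε hG)
    linarith
  have hXS : 0 ≤ XN a β 1 G + SS s a β 1 v₀ G :=
    add_nonneg (XN_nonneg hG0 le_rfl) (SS_nonneg hG0 le_rfl v₀)
  rcases hA.eq_or_lt with hA0 | hA0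
  · have hz : ∀ v, ψ v = 0 := fun v => by
      have := hψA v
      rw [← hA0] at this
      exact abs_eq_zero.1 (le_antisymm this (abs_nonneg _))
    have : ∫ v, boltzCut (1 + a) b ε G v * (bet' C₀ (G v) * ψ v) = 0 := by
      simp only [hz, mul_zero, integral_zero]
    rw [this, ← hA0]
    simp
  · have hbm : Measurable fun v => bet' C₀ (G v) := by
      unfold bet'
      exact ((measurable_const.div (hG.cont.measurable.const_add C₀))).pow_const 2
    set L : Vec d → ℝ := fun v => bet' C₀ (G v) * ψ v with hL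
    have hLm : Measurable L := hbm.mul hψm
    have hLA : ∀ v, |L v| ≤ A := by
      intro v
      simp only [hL]
      rw [abs_mul, abs_of_nonneg (bet_nonneg _ _)]
      calc bet' C₀ (G v) * |ψ v| ≤ 1 * A :=
            mul_le_mul (bet_le_one hC₀ (hG0 v)) (hψA v) (abs_nonneg _) zero_le_one
        _ = A := one_mul A
    have hLP : PG L := er_PG hLA
    have hw := weak_c H hε hG.rd hG.cont hLP hLm
    have a1 := cs_cut H hε hG hLP hLm MeasurableSet.univ (fun _ _ _ _ _ => by simp)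
      (lam := e₀ / A) (by positivity)
    simp only [Measure.restrict_univ] at a1
    have a2 := er_sq H hε hG.rd hG.cont hG0 hLA hLm
    have a3 := hinc C₀ hC₀ G hG ε hε A hA v₀ ψ hψ
    have a4 : 2 * |∫ v, boltzCut (1 + a) b ε G v * L v| =
        |∫ p, kx (1 + a) b ε G p * dX L p ∂(mu3 d)| := by
      rw [hw, abs_mul, abs_of_pos (by norm_num : (0 : ℝ) < 1 / 2)]
      ring
    rw [a4]
    have a5 : ∫ p, kx (1 + a) b ε G p * dX L p ^ 2 ∂(mu3 d) ≤
        4 * (A ^ 2 * (18 * Pc (1 + a) b ε G + K * (XN a β 1 G + SS s a β 1 v₀ G))) := by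
      refine a2.trans (mul_le_mul_of_nonneg_left a3 (by norm_num))
    have a6 := mul_le_mul_of_nonneg_left a5 (by positivity : (0 : ℝ) ≤ e₀ / A / 4)
    have a7 : e₀ / A / 4 * (4 * (A ^ 2 * (18 * Pc (1 + a) b ε G + K * (XN a β 1 G + SS s a β 1 v₀ G)))) =
        A * (e₀ * 18 * Pc (1 + a) b ε G + e₀ * K * (XN a β 1 G + SS s a β 1 v₀ G)) := by
      field_simp
    have a8 : 1 / (e₀ / A) * Pc (1 + a) b ε G = A * (1 / e₀ * Pc (1 + a) b ε G) := by
      field_simp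
    have a9 : A * (e₀ * 18 * Pc (1 + a) b ε G + e₀ * K * (XN a β 1 G + SS s a β 1 v₀ G)) +
        A * (1 / e₀ * Pc (1 + a) b ε G) ≤
        A * ((1 / e₀ + (K + 18)) * Pc (1 + a) b ε G + e₀ * (K + 18) * (XN a β 1 G + SS s a β 1 v₀ G)) := by
      rw [← mul_add]
      refine mul_le_mul_of_nonneg_left ?_ hA
      have q1 : e₀ * 18 * Pc (1 + a) b ε G ≤ (K + 18) * Pc (1 + a) b ε G := by
        refine mul_le_mul_of_nonneg_right ?_ hPc
        linarith
      have q2 : e₀ * K * (XN a β 1 G + SS s a β 1 v₀ G) ≤ e₀ * (K + 18) * (XN a β 1 G + SS s a β 1 v₀ G) := by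
        refine mul_le_mul_of_nonneg_right ?_ hXS
        have := mul_le_mul_of_nonneg_left (by linarith : K ≤ K + 18) he₀.le
        exact this
      linarith
    rw [a8] at a1
    rw [a7] at a6
    linarith

end Pool.Agent.H87.PZ
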