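import Pool.Agent.H87.PF.Defs

/-!
# Cusp test functions (MP_c15324_an, plane symmetric solutions, `1 ≤ γ`): definitions

As H87/PF, for `0 ≤ a` and for a Hölder exponent `τ ∈ (s, 1]`, `a ≤ τ`, of the test functions away from the cusp.
For `a = 0` the exponent `sP s a` of H87/PF is `s`, and the squares of the increments are not integrable over small angles; here the angular integral is split at `y = (min ρ 1 / |V|)²`.
`b' = 2 (sP s a - a) = max (0, 2s - a)`.
-/

set_option autoImplicit false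

open MeasureTheory Set Filter Topology Pool.Agent.H25.Kin Pool.Agent.H48.PL
open Pool.Agent.H48.PI (om)
open Pool.Agent.H48.PW (sP)
open Pool.Agent.H87.PE

namespace Pool.Agent.H87.PZ

variable {d : ℕ}

/-- the conditions on the exponents -/
structure EP0 (s a β : ℝ) : Prop where
  hs : 0 < s
  ha : 0 ≤ a
  hβ : 2 * s < β
  haβ : a ≤ β
  hβ1 : β < 1

/-- the Hölder exponent away from the cusp -/
structure TP (s a τ : ℝ) : Prop where
  hτ : s < τ
  haτ : a ≤ τ
  hτ1 : τ ≤ 1

/-- test functions with a cusp at `v₀` -/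
structure CuspT (τ a m : ℝ) (v₀ : Vec d) (V₁ A : ℝ) (ψ : Vec d → ℝ) : Prop where
  meas : Measurable ψ
  h1 : ∀ w w', |ψ w - ψ w'| ≤ A * (om m V₁ (max (jb w) (jb w')) * len (w - w') ^ a)
  h2 : ∀ w w', w ≠ v₀ → |ψ w - ψ w'| ≤
    A * (om m V₁ (max (jb w) (jb w')) * (len (w - w') ^ τ * (1 + len (w - v₀) ^ (a - τ))))

/-- bounded test functions with a cusp at `v₀` -/
structure CuspBT (τ a : ℝ) (v₀ : Vec d) (A : ℝ) (ψ : Vec d → ℝ) : Prop where
  meas : Measurable ψ
  h0 : ∀ w, |ψ w| ≤ A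
  h2 : ∀ w w', w ≠ v₀ → |ψ w - ψ w'| ≤ A * (len (w - w') ^ τ * (1 + len (w - v₀) ^ (a - τ)))

end Pool.Agent.H87.PZ
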