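import Pool.Agent.H87.PZ.CutC
import Pool.Agent.H87.PZ.SFin
import Pool.Agent.H87.PE.Tra

/-!
# Module ErrC: the collision operator tested with a cusp function

As `err_hold` in H87/PE/Hold.lean. `K₂` of `cusp_cut`, `K₃` of `sing_G`. `G = g + δ gau` (`gd_reg`). `tra` with the constant `A₁(d+1)` (`cu_lin`): `|∫ Q_ε(g)ψ| ≤ 2|∫ Q_ε(G)ψ| + η'`. `cusp_cut` with `lam = ε`. For small cut-off `Pc ≤ Dn + η'` (`Pc_lim`),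
`XN(G) ≤ XN(g) + η'` (`XN_reg`), `SS(G) ≤ K₃ (Dn + XN(g)) + η'` (`sing_G`, for `V = 1` and `V = max V₁ R₁`). The limit of the cut-off: `boltz_weak_tendsto`. So, with `q = R₁^2 om β V₁ R₁ ^ 2` (`om² ≤ om ≤ 1`), `J = A₁ + A₁²`:
`|∫ Q(g)ψ| ≤ [1/ε + 1 + ε K₂ A₁² q K₃ + K₂ J K₃] Dn + ε K₂ A₁² q (1+K₃) XN_1(g) + K₂ J (1+K₃) XN_max(g) + (sum) η'`. `K = K₂ J (1+K₃)`, `K₁ = 2 + K₂A₁²R₁^2 K₃ + K₂ J K₃ + K₂A₁²R₁^2(1+K₃)`: the bracket is `≤ K₁/ε`;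
replacing it costs `(K₁/ε)·η'` since `Dn ≥ -η'` (`Dn_ge`, or the first part of `Pc_lim`). `η'` small depending on `K₁, ε, K, η` (not on `V₁`).
-/

set_option autoImplicit false

open MeasureTheory Set Filter Topology Pool.Agent.H25.Kin Pool.Agent.H48.PL
open Pool.Agent.H82.CM
open Pool.Agent.H15.AV (gau UNice)
open Pool.Agent.H48.PI (om Dn)
open Pool.Agent.H48.PW (sP)
open Pool.Agent.H87.PE
open Pool.Agent.H87.PF (wN XN wS SS AnnS PrN PrS WA Sn Sm Sd)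

namespace Pool.Agent.H87.PZ

variable {d : ℕ} {s a β τ C Ca cb : ℝ} {b : ℝ → ℝ}

private lemma erc_arith {u e K₃ L J T Rp o D X1 Xm S1 Sm P x1 xm Q η' : ℝ} (hu : 1 ≤ u)
    (he : 0 ≤ e) (he1 : e ≤ 1) (hK₃ : 0 ≤ K₃) (hL : 0 ≤ L) (hJ : 0 ≤ J) (hT : 0 ≤ T)
    (hTR : T ≤ Rp) (hTo : T ≤ Rp * o) (hR : 0 ≤ Rp) (ho : 0 ≤ o) (hη : 0 ≤ η') (hD : -η' ≤ D)
    (hx1 : 0 ≤ x1)
    (hQ : Q ≤ (u + 1) * P + e * L * T * (X1 + S1) + J * (Xm + Sm) + η')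
    (hP : P ≤ D + η') (h1 : X1 ≤ x1 + η') (h2 : Xm ≤ xm + η')
    (h3 : S1 ≤ K₃ * (D + x1) + η') (h4 : Sm ≤ K₃ * (D + xm) + η') :
    Q ≤ (2 + L * Rp * K₃ + J * K₃ + L * Rp * (1 + K₃)) * u * D +
      e * (2 + L * Rp * K₃ + J * K₃ + L * Rp * (1 + K₃)) * o * x1 + J * (1 + K₃) * xm +
      ((2 + L * Rp * K₃ + J * K₃ + L * Rp * (1 + K₃)) * u + (u + 1) + 2 * (L * Rp) + 2 * J + 1) *
        η' := by
  have hLR : 0 ≤ L * Rp := mul_nonneg hL hR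
  have hLK : 0 ≤ L * Rp * K₃ := mul_nonneg hLR hK₃
  have hJK : 0 ≤ J * K₃ := mul_nonneg hJ hK₃
  have hLL : 0 ≤ L * Rp * (1 + K₃) := mul_nonneg hLR (by linarith)
  have heLT : 0 ≤ e * L * T := by positivity
  have hLT : L * T ≤ L * Rp := mul_le_mul_of_nonneg_left hTR hL
  have hLT0 : 0 ≤ L * T := mul_nonneg hL hT
  have heLT' : e * L * T ≤ L * Rp := by
    have c1 : e * (L * T) ≤ 1 * (L * T) := mul_le_mul_of_nonneg_right he1 hLT0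
    calc e * L * T = e * (L * T) := by ring
      _ ≤ 1 * (L * T) := c1
      _ = L * T := one_mul _
      _ ≤ L * Rp := hLT
  have a1 : (u + 1) * P ≤ (u + 1) * (D + η') := mul_le_mul_of_nonneg_left hP (by linarith)
  have a2 : e * L * T * (X1 + S1) ≤ e * L * T * ((1 + K₃) * x1 + K₃ * D + 2 * η') :=
    mul_le_mul_of_nonneg_left (by linarith) heLT
  have a3 : J * (Xm + Sm) ≤ J * ((1 + K₃) * xm + K₃ * D + 2 * η') :=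
    mul_le_mul_of_nonneg_left (by linarith) hJ
  have a4 : e * L * T * K₃ ≤ L * Rp * K₃ := mul_le_mul_of_nonneg_right heLT' hK₃
  have a5 : L * Rp * K₃ ≤ L * Rp * K₃ * u := le_mul_of_one_le_right hLK hu
  have a6 : J * K₃ ≤ J * K₃ * u := le_mul_of_one_le_right hJK hu
  have a7 : 0 ≤ L * Rp * (1 + K₃) * u := mul_nonneg hLL (by linarith)
  have a8 : 0 ≤ ((2 + L * Rp * K₃ + J * K₃ + L * Rp * (1 + K₃)) * u -
      ((u + 1) + e * L * T * K₃ + J * K₃)) * (D + η') := by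
    refine mul_nonneg ?_ (by linarith)
    have : (2 + L * Rp * K₃ + J * K₃ + L * Rp * (1 + K₃)) * u = 2 * u + L * Rp * K₃ * u +
      J * K₃ * u + L * Rp * (1 + K₃) * u := by ring
    linarith
  have a9 : 0 ≤ ((u + 1) + e * L * T * K₃ + J * K₃) * η' := by positivity
  have b1 : L * T * (1 + K₃) ≤ (2 + L * Rp * K₃ + J * K₃ + L * Rp * (1 + K₃)) * o := by
    have c1 : L * T ≤ L * (Rp * o) := mul_le_mul_of_nonneg_left hTo hL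
    have c2 := mul_le_mul_of_nonneg_right c1 (by linarith : (0 : ℝ) ≤ 1 + K₃)
    have c3 : 0 ≤ (2 + L * Rp * K₃ + J * K₃) * o := by positivity
    have c4 : (2 + L * Rp * K₃ + J * K₃ + L * Rp * (1 + K₃)) * o =
      (2 + L * Rp * K₃ + J * K₃) * o + L * (Rp * o) * (1 + K₃) := by ring
    linarith
  have b2 := mul_le_mul_of_nonneg_right b1 (mul_nonneg he hx1)
  have b3 := mul_le_mul_of_nonneg_right heLT' (by positivity : (0 : ℝ) ≤ 2 * η')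
  linear_combination hQ + a1 + a2 + a3 + a8 + a9 + b2 + b3

theorem err_c (HL : HypL d (1 + a) s b C Ca cb) (E : EP0 s a β) (T : TP s a τ) (A₁ : ℝ) (hA₁ : 0 ≤ A₁) :
    ∃ K : ℝ, 0 ≤ K ∧ ∀ R₁ : ℝ, 1 ≤ R₁ → ∃ K₁ : ℝ, 0 ≤ K₁ ∧ ∀ ε : ℝ, 0 < ε → ε ≤ 1 →
      ∀ (Cl : ℕ → ℝ) (η : ℝ), 0 < η → ∃ δ₀ > 0, ∀ δ ∈ Ioc (0 : ℝ) δ₀, ∀ g : Vec d → ℝ,
      UNice Cl g → ∀ (v₀ : Vec d) (V₁ : ℝ), 1 ≤ V₁ → ∀ ψ : Vec d → ℝ, CuspT τ a β v₀ V₁ A₁ ψ →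
      |∫ w, boltzQ (1 + a) b g w * ψ w| ≤ K₁ / ε * Dn (1 + a) b δ g +
        ε * K₁ * om β V₁ R₁ * XN a β 1 g + K * XN a β (max V₁ R₁) g + η := by
  have H := HL.H
  have hβ1 : β ≤ 1 := E.hβ1.le
  obtain ⟨K₂, hK₂, hcut⟩ := cusp_cut (τ := τ) H E T
  obtain ⟨K₃, hK₃, hsing⟩ := sing_G HL E
  have hL : 0 ≤ K₂ * A₁ ^ 2 := by positivity
  have hJ : 0 ≤ K₂ * (A₁ + A₁ ^ 2) := by positivity
  refine ⟨K₂ * (A₁ + A₁ ^ 2) * (1 + K₃), by positivity, fun R₁ hR₁ => ?_⟩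
  have hR0 : 0 ≤ R₁ ^ 2 := by positivity
  set K₁ : ℝ := 2 + K₂ * A₁ ^ 2 * R₁ ^ 2 * K₃ + K₂ * (A₁ + A₁ ^ 2) * K₃ +
    K₂ * A₁ ^ 2 * R₁ ^ 2 * (1 + K₃) with hK₁
  have hK₁0 : 0 ≤ K₁ := by positivity
  refine ⟨K₁, hK₁0, fun ε hε hε1 Cl η hη => ?_⟩
  have hu : 1 ≤ 1 / ε := by
    rw [le_div_iff₀ hε]
    linarith
  have hu0 : 0 ≤ 1 / ε := by linarith
  set B : ℝ := K₁ * (1 / ε) + (1 / ε + 1) + 2 * (K₂ * A₁ ^ 2 * R₁ ^ 2) +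
    2 * (K₂ * (A₁ + A₁ ^ 2)) + 1 with hB
  have hB0 : 0 < B := by positivity
  set η' : ℝ := η / B with hη'
  have hη'0 : 0 < η' := div_pos hη hB0
  have hηB : B * η' = η := by
    rw [hη']
    field_simp
  obtain ⟨δa, hδa, hδah, htra⟩ := tra H Cl (A₁ * ((d : ℝ) + 1)) hη'0
  obtain ⟨δb, hδb, hδbh, hPc⟩ := Pc_lim H Cl hη'0
  obtain ⟨δc, hδc, hXN⟩ := XN_reg (d := d) E Cl hη'0
  obtain ⟨δe, hδe, hSS⟩ := hsing Cl η' hη'0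
  refine ⟨min (min δa δb) (min δc δe), lt_min (lt_min hδa hδb) (lt_min hδc hδe), ?_⟩
  intro δ hδ g hg v₀ V₁ hV₁ ψ hψ
  have hd0 : 0 < δ := hδ.1
  have hda : δ ≤ δa := hδ.2.trans ((min_le_left _ _).trans (min_le_left _ _))
  have hdb : δ ≤ δb := hδ.2.trans ((min_le_left _ _).trans (min_le_right _ _))
  have hdc : δ ≤ δc := hδ.2.trans ((min_le_right _ _).trans (min_le_left _ _))
  have hde : δ ≤ δe := hδ.2.trans ((min_le_right _ _).trans (min_le_right _ _))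
  have hd1 : δ ≤ 1 := by linarith
  have hVm : 1 ≤ max V₁ R₁ := hV₁.trans (le_max_left _ _)
  have hPG := cu_PG E hV₁ hA₁ hψ
  have hG := gd_reg hg hd0 hd1
  obtain ⟨hDn, hev⟩ := hPc δ ⟨hd0, hdb⟩ g hg
  have hx1 := hXN δ ⟨hd0, hdc⟩ g hg 1 le_rfl
  have hx2 := hXN δ ⟨hd0, hdc⟩ g hg (max V₁ R₁) hVm
  have hs1 := hSS δ ⟨hd0, hde⟩ g hg 1 le_rfl v₀
  have hs2 := hSS δ ⟨hd0, hde⟩ g hg (max V₁ R₁) hVm v₀
  have hX0 : 0 ≤ XN a β 1 g := XN_nonneg hg.nonneg le_rfl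
  have hlim := (boltz_weak_tendsto H hg.nice hPG hψ.meas).abs
  refine le_of_tendsto hlim ?_
  filter_upwards [hev, self_mem_nhdsWithin] with e hPe he
  have he0 : 0 < e := he
  have t1 := htra δ ⟨hd0, hda⟩ g hg ψ hψ.meas (cu_lin E hV₁ hA₁ hψ) e he0
  have t2 := hcut R₁ hR₁ ε hε _ hG e he0 V₁ hV₁ A₁ hA₁ v₀ ψ hψ
  have ho : 0 ≤ om β V₁ R₁ := om_nn hV₁ (by linarith)
  have ho1 : om β V₁ R₁ ≤ 1 := om_le1 hβ1 hV₁ (by linarith)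
  have hoo : om β V₁ R₁ ^ 2 ≤ om β V₁ R₁ := by
    rw [sq]
    exact mul_le_of_le_one_left ho ho1
  have hT0 : 0 ≤ R₁ ^ 2 * om β V₁ R₁ ^ 2 := by positivity
  have hTo : R₁ ^ 2 * om β V₁ R₁ ^ 2 ≤ R₁ ^ 2 * om β V₁ R₁ := mul_le_mul_of_nonneg_left hoo hR0
  have hTR : R₁ ^ 2 * om β V₁ R₁ ^ 2 ≤ R₁ ^ 2 := hTo.trans (mul_le_of_le_one_right hR0 ho1)
  have hQ : |∫ v, boltzCut (1 + a) b e g v * ψ v| ≤
      (1 / ε + 1) * Pc (1 + a) b e (fun v => g v + δ * gau v) +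
      ε * (K₂ * A₁ ^ 2) * (R₁ ^ 2 * om β V₁ R₁ ^ 2) *
        (XN a β 1 (fun v => g v + δ * gau v) + SS s a β 1 v₀ (fun v => g v + δ * gau v)) +
      K₂ * (A₁ + A₁ ^ 2) * (XN a β (max V₁ R₁) (fun v => g v + δ * gau v) +
        SS s a β (max V₁ R₁) v₀ (fun v => g v + δ * gau v)) + η' := by
    have t3 : ε * (K₂ * A₁ ^ 2) * (R₁ ^ 2 * om β V₁ R₁ ^ 2) = ε * K₂ * A₁ ^ 2 *
      (R₁ ^ 2 * om β V₁ R₁ ^ 2) := by ring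
    rw [t3]
    linarith
  have fin := erc_arith hu hε.le hε1 hK₃ hL hJ hT0 hTR hTo hR0 ho hη'0.le hDn hX0 hQ hPe
    hx1 hx2 hs1 hs2
  rw [← hK₁, ← hB, hηB] at fin
  have f1 : K₁ / ε = K₁ * (1 / ε) := by ring
  rw [f1]
  exact fin

end Pool.Agent.H87.PZ
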