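import Pool.Agent.H87.PZ.Base

/-!
# Module WInt: integrability and regularisation

`wN ≤ 16 RR² ≤ 64 (jb v * jb w)²` (`len_le_RR`, `1+a+β ≤ 2`... `len^(1+a) ≤ (2RR)^(1+a) ≤ 4RR²`, and `len^(1+a+β) ≤ (2RR)^3 = 8 RR³`; `om ≤ 1`; `RR ≤ jb v + jb w ≤ 2 jb v jb w`), see `dens_integrable` (H48/PL/XB.lean).
`wS_int`: `len (v-w)^(1+a+2s) ≤ (2RR)^3 ≤ 64 (jb v jb w)^3`, and `len (v-v₀)^(-(2s-a)) ≤ ‖v-v₀‖^(-(2s-a))`; `v ↦ |G v| jb v^3 ‖v-v₀‖^(-b')` is integrable by `int_norm_rpow hd (-2 < -b' ≤ 0)` and the decay of `G jb³`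
(as `Real_term2` in H82/BK/Real.lean, copy); times the integrable `|G w| jb w^3` (`Integrable.mul_prod`). Measurability: `wN_meas`, `wS_meas`.
`XN_reg`: `G = g + δ gau`: `G G_* - g g_* = δ (g gau_* + gau g_*) + δ² gau gau_*`, `0 ≤ wN ≤ 64·…(jb v jb w)^3`, `0 ≤ g ≤ Cl`-decay (`UNice`: `hg` gives `g v ≤ K(Cl) wt`-type bounds, see `XS_reg` in H48/PL/EntB.lean and `XW_reg` in H87/PE/Tra.lean),
so the difference is `≤ δ K(Cl)` uniformly in `V ≥ 1`. `XN_le`: `wN ≤ 2 len^(1+a) ≤ 2·[weight of Xn]` if `len ≤ 1`, and `≤ 2 len^(1+a+β) = 2 len^(1+β) len^a ≤ 4 len^(1+β) RR^a` if `len > 1` (weight of `Xb`);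
`dens β g p * wb = g g_* len^(1+β) RR^a om`, `dens a g p * wn = g g_* len^(1+a) [len ≤ 1] om` (`RR > 0`). `XN_mono`: `om` monotone. `SS_mono`: `g ≤ G`.
-/

set_option autoImplicit false

open MeasureTheory Set Filter Topology Pool.Agent.H25.Kin Pool.Agent.H48.PL
open Pool.Agent.H15.AV (gau UNice)
open Pool.Agent.H48.PI (om)
open Pool.Agent.H48.PW (sP)
open Pool.Agent.H87.PF (wN XN wS SS AnnS PrN PrS WA Sn Sm Sd)

namespace Pool.Agent.H87.PZ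

variable {d : ℕ} {s a β : ℝ}

private lemma wint_RR3 (v w : Vec d) :
    RR v w ^ 3 ≤ (2 * ((d : ℝ) + 1) ^ 2) ^ 3 * ((1 + ‖v‖) ^ 3 * (1 + ‖w‖) ^ 3) := by
  have hR1 := one_le_RR v w
  have hd0 : (0 : ℝ) ≤ d := Nat.cast_nonneg d
  have hwv := w_pos v
  have hww := w_pos w
  have h4 : RR v w ≤ 2 * ((d : ℝ) + 1) ^ 2 * ((1 + ‖v‖) * (1 + ‖w‖)) := by
    have q1 := RR_le v w
    have q2 := jb_le_w v
    have q3 := jb_le_w w
    have q4 := one_le_w v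
    have q5 := one_le_w w
    have q6 : 1 + ‖v‖ ≤ (1 + ‖v‖) * (1 + ‖w‖) := le_mul_of_one_le_right hwv.le q5
    have q7 : 1 + ‖w‖ ≤ (1 + ‖v‖) * (1 + ‖w‖) := le_mul_of_one_le_left hww.le q4
    have q8 : (d : ℝ) + 1 ≤ ((d : ℝ) + 1) ^ 2 := by nlinarith
    have q9 : 0 ≤ (1 + ‖v‖) * (1 + ‖w‖) := by positivity
    have q10 : ((d : ℝ) + 1) * (1 + ‖v‖) ≤ ((d : ℝ) + 1) ^ 2 * ((1 + ‖v‖) * (1 + ‖w‖)) :=
      mul_le_mul q8 q6 hwv.le (by positivity)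
    have q11 : ((d : ℝ) + 1) * (1 + ‖w‖) ≤ ((d : ℝ) + 1) ^ 2 * ((1 + ‖v‖) * (1 + ‖w‖)) :=
      mul_le_mul q8 q7 hww.le (by positivity)
    linarith
  have h5 : RR v w ^ 3 ≤ (2 * ((d : ℝ) + 1) ^ 2 * ((1 + ‖v‖) * (1 + ‖w‖))) ^ 3 :=
    pow_le_pow_left₀ (by linarith) h4 3
  calc RR v w ^ 3 ≤ (2 * ((d : ℝ) + 1) ^ 2 * ((1 + ‖v‖) * (1 + ‖w‖))) ^ 3 := h5
    _ = (2 * ((d : ℝ) + 1) ^ 2) ^ 3 * ((1 + ‖v‖) ^ 3 * (1 + ‖w‖) ^ 3) := by ring

private lemma wint_len {e : ℝ} (h0 : 0 ≤ e) {n : ℕ} (he : e ≤ n) (v w : Vec d) :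
    len (v - w) ^ e ≤ (2 * RR v w) ^ n := by
  have hR1 := one_le_RR v w
  calc len (v - w) ^ e ≤ (2 * RR v w) ^ e := Real.rpow_le_rpow (len_nonneg _) (len_le_RR v w) h0
    _ ≤ (2 * RR v w) ^ (n : ℝ) := Real.rpow_le_rpow_of_exponent_le (by linarith) he
    _ = (2 * RR v w) ^ n := Real.rpow_natCast _ _

lemma wN_nonneg {V : ℝ} (hV : 1 ≤ V) (q : Vec d × Vec d) : 0 ≤ wN a β V q := by
  unfold wN
  have h1 : 0 ≤ len (q.1 - q.2) ^ (1 + a) := Real.rpow_nonneg (len_nonneg _) _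
  have h2 : 0 ≤ len (q.1 - q.2) ^ β := Real.rpow_nonneg (len_nonneg _) _
  exact mul_nonneg (mul_nonneg h1 (by linarith)) (om_nn hV (RR_pos _ _).le)

lemma wS_nonneg {V : ℝ} (hV : 1 ≤ V) (v₀ : Vec d) (q : Vec d × Vec d) :
    0 ≤ wS s a β V v₀ q := by
  unfold wS
  have h1 : 0 ≤ len (q.1 - q.2) ^ (1 + a + 2 * s) := Real.rpow_nonneg (len_nonneg _) _
  have h2 : 0 ≤ len (q.1 - v₀) ^ (2 * (a - sP s a)) := Real.rpow_nonneg (len_nonneg _) _
  exact mul_nonneg (mul_nonneg h1 h2) (om_nn hV (RR_pos _ _).le)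

private noncomputable def wintW (d : ℕ) : ℝ := 16 * (2 * ((d : ℝ) + 1) ^ 2) ^ 3

private lemma wintW_nonneg (d : ℕ) : 0 ≤ wintW d := by
  unfold wintW
  positivity

private lemma wint_wN_le (E : EP0 s a β) {V : ℝ} (hV : 1 ≤ V) (v w : Vec d) :
    wN a β V (v, w) ≤ wintW d * ((1 + ‖v‖) ^ 3 * (1 + ‖w‖) ^ 3) := by
  have hR1 := one_le_RR v w
  obtain ⟨o0, o1⟩ := om_RR (β := β) E.hβ1.le hV v w
  have h1 : len (v - w) ^ (1 + a) ≤ (2 * RR v w) ^ 2 :=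
    wint_len (by linarith [E.ha]) (by push_cast; linarith [E.a1]) v w
  have h2 : len (v - w) ^ β ≤ (2 * RR v w) ^ 1 :=
    wint_len E.β0.le (by push_cast; linarith [E.hβ1]) v w
  have n1 : 0 ≤ len (v - w) ^ (1 + a) := Real.rpow_nonneg (len_nonneg _) _
  have n2 : 0 ≤ len (v - w) ^ β := Real.rpow_nonneg (len_nonneg _) _
  have h3 : len (v - w) ^ (1 + a) * (1 + len (v - w) ^ β) ≤ (2 * RR v w) ^ 2 * (4 * RR v w) := by
    refine mul_le_mul h1 ?_ (by linarith) (by positivity)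
    rw [pow_one] at h2
    linarith
  have h4 : (len (v - w) ^ (1 + a) * (1 + len (v - w) ^ β)) * om β V (RR v w) ≤
      (2 * RR v w) ^ 2 * (4 * RR v w) := by
    refine le_trans (mul_le_of_le_one_right (mul_nonneg n1 (by linarith)) o1) h3
  have h5 := wint_RR3 v w
  show len (v - w) ^ (1 + a) * (1 + len (v - w) ^ β) * om β V (RR v w) ≤ _
  calc len (v - w) ^ (1 + a) * (1 + len (v - w) ^ β) * om β V (RR v w)
      ≤ (2 * RR v w) ^ 2 * (4 * RR v w) := h4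
    _ = 16 * RR v w ^ 3 := by ring
    _ ≤ 16 * ((2 * ((d : ℝ) + 1) ^ 2) ^ 3 * ((1 + ‖v‖) ^ 3 * (1 + ‖w‖) ^ 3)) := by linarith
    _ = wintW d * ((1 + ‖v‖) ^ 3 * (1 + ‖w‖) ^ 3) := by unfold wintW; ring

private lemma wint_b {h : ℝ} {v : Vec d} {M : ℝ} {n : ℕ}
    (hb : (1 + ‖v‖) ^ (n + 3) * h ≤ M) : h * (1 + ‖v‖) ^ 3 ≤ M * ((1 + ‖v‖) ^ n)⁻¹ := by
  have hw := w_pos v
  rw [← div_eq_mul_inv, le_div_iff₀ (pow_pos hw _)]
  calc h * (1 + ‖v‖) ^ 3 * (1 + ‖v‖) ^ n = (1 + ‖v‖) ^ (n + 3) * h := by ring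
    _ ≤ M := hb

private lemma wint_rd {G : Vec d → ℝ} (hG : RD G) (n : ℕ) :
    ∃ K, 0 ≤ K ∧ ∀ v, ‖G v‖ * (1 + ‖v‖) ^ 3 ≤ K * ((1 + ‖v‖) ^ n)⁻¹ := by
  obtain ⟨K, hK⟩ := hG (n + 3)
  refine ⟨K, ?_, fun v => wint_b (hK v)⟩
  exact le_trans (by positivity) (hK 0)

theorem wN_int (E : EP0 s a β) {G : Vec d → ℝ} (hG : RD G) (hGc : Continuous G) {V : ℝ}
    (hV : 1 ≤ V) : Integrable fun q : Vec d × Vec d => G q.1 * G q.2 * wN a β V q := by
  obtain ⟨K, hK0, hK⟩ := wint_rd hG (d + 1)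
  have iw : Integrable fun p : Vec d × Vec d => wt d p.1 * wt d p.2 :=
    (integrable_wt (d := d)).mul_prod integrable_wt
  have hm : Measurable fun q : Vec d × Vec d => G q.1 * G q.2 * wN a β V q :=
    ((hGc.measurable.comp measurable_fst).mul (hGc.measurable.comp measurable_snd)).mul
      (wN_meas E.hβ1.le a V)
  refine (iw.const_mul (wintW d * (K * K))).mono' hm.aestronglyMeasurable
    (Eventually.of_forall fun q => ?_)
  obtain ⟨v, w⟩ := q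
  have h1 := wint_wN_le E hV v w
  have h0 := wN_nonneg (a := a) (β := β) hV (v, w)
  have e1 : ‖G v‖ * (1 + ‖v‖) ^ 3 ≤ K * wt d v := hK v
  have e2 : ‖G w‖ * (1 + ‖w‖) ^ 3 ≤ K * wt d w := hK w
  have hv := w_pos v
  have hw := w_pos w
  rw [norm_mul, norm_mul, Real.norm_eq_abs (wN a β V (v, w)), abs_of_nonneg h0]
  calc ‖G v‖ * ‖G w‖ * wN a β V (v, w)
      ≤ ‖G v‖ * ‖G w‖ * (wintW d * ((1 + ‖v‖) ^ 3 * (1 + ‖w‖) ^ 3)) :=
        mul_le_mul_of_nonneg_left h1 (by positivity)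
    _ = wintW d * ((‖G v‖ * (1 + ‖v‖) ^ 3) * (‖G w‖ * (1 + ‖w‖) ^ 3)) := by ring
    _ ≤ wintW d * ((K * wt d v) * (K * wt d w)) := by
        refine mul_le_mul_of_nonneg_left ?_ (wintW_nonneg d)
        exact mul_le_mul e1 e2 (by positivity) (mul_nonneg hK0 (wt_nonneg v))
    _ = wintW d * (K * K) * (wt d v * wt d w) := by ring

private lemma wint_len_rpow_le {μ : ℝ} (hμ : μ ≤ 0) (z : Vec d) : len z ^ μ ≤ ‖z‖ ^ μ := by
  by_cases hz : z = 0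
  · rw [hz, len_zero, norm_zero]
  · exact Real.rpow_le_rpow_of_nonpos (norm_pos_iff.2 hz) (norm_le_len z) hμ

private lemma wint_sing (hd : 2 ≤ d) {G : Vec d → ℝ} (hG : RD G) (hGc : Continuous G) {μ : ℝ}
    (h1 : -2 < μ) (h2 : μ ≤ 0) (v₀ : Vec d) :
    Integrable fun z : Vec d => ‖G z‖ * (1 + ‖z‖) ^ 3 * len (z - v₀) ^ μ := by
  obtain ⟨K, hK0, hK⟩ := wint_rd hG (d + 3)
  have i1 := ((int_norm_rpow hd h1 h2).comp_sub_right v₀).const_mul (K * (1 + ‖v₀‖) ^ (d + 3))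
  have hm : Measurable fun z : Vec d => ‖G z‖ * (1 + ‖z‖) ^ 3 * len (z - v₀) ^ μ := by
    have c1 : Continuous fun z : Vec d => ‖G z‖ * (1 + ‖z‖) ^ 3 := by fun_prop
    exact c1.measurable.mul
      ((continuous_len.comp (continuous_id.sub continuous_const)).measurable.pow_const μ)
  refine i1.mono' hm.aestronglyMeasurable (Eventually.of_forall fun z => ?_)
  have hl := Real.rpow_nonneg (len_nonneg (z - v₀)) μ
  have hnn := Real.rpow_nonneg (norm_nonneg (z - v₀)) μ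
  have hw := w_pos (z - v₀)
  have hv := w_pos v₀
  have hz := w_pos z
  rw [Real.norm_eq_abs, abs_of_nonneg (by positivity)]
  have e1 : ((1 + ‖z‖) ^ (d + 3))⁻¹ ≤ (1 + ‖v₀‖) ^ (d + 3) * ((1 + ‖z - v₀‖) ^ (d + 3))⁻¹ := by
    have e2 : (1 + ‖z - v₀‖) ^ (d + 3) ≤ (1 + ‖v₀‖) ^ (d + 3) * (1 + ‖z‖) ^ (d + 3) := by
      rw [← mul_pow]
      refine pow_le_pow_left₀ hw.le ?_ _
      have := norm_sub_le z v₀
      nlinarith [norm_nonneg z, norm_nonneg v₀, mul_nonneg (norm_nonneg v₀) (norm_nonneg z)]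
    rw [inv_eq_one_div, div_le_iff₀ (pow_pos hz _), mul_assoc,
      mul_comm ((1 + ‖z - v₀‖) ^ (d + 3))⁻¹,
      ← mul_assoc, ← div_eq_mul_inv, le_div_iff₀ (pow_pos hw _), one_mul]
    exact e2
  calc ‖G z‖ * (1 + ‖z‖) ^ 3 * len (z - v₀) ^ μ
      ≤ (K * ((1 + ‖z‖) ^ (d + 3))⁻¹) * ‖z - v₀‖ ^ μ :=
        mul_le_mul (hK z) (wint_len_rpow_le h2 _) hl
          (mul_nonneg hK0 (inv_nonneg.2 (pow_nonneg hz.le _)))
    _ ≤ (K * ((1 + ‖v₀‖) ^ (d + 3) * ((1 + ‖z - v₀‖) ^ (d + 3))⁻¹)) * ‖z - v₀‖ ^ μ := by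
        gcongr
    _ = K * (1 + ‖v₀‖) ^ (d + 3) * (‖z - v₀‖ ^ μ * ((1 + ‖z - v₀‖) ^ (d + 3))⁻¹) := by ring

theorem wS_int (hd : 2 ≤ d) (E : EP0 s a β) {G : Vec d → ℝ} (hG : RD G) (hGc : Continuous G)
    {V : ℝ} (hV : 1 ≤ V) (v₀ : Vec d) :
    Integrable fun q : Vec d × Vec d => G q.1 * G q.2 * wS s a β V v₀ q := by
  have b0 := E.b0
  have b1 := E.b1
  have i1 := wint_sing hd hG hGc (μ := 2 * (a - sP s a)) (by linarith) (by linarith) v₀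
  have i2 : Integrable fun z : Vec d => ‖G z‖ * (1 + ‖z‖) ^ 3 := by
    obtain ⟨K, hK0, hK⟩ := wint_rd hG (d + 1)
    have c1 : Continuous fun z : Vec d => ‖G z‖ * (1 + ‖z‖) ^ 3 := by fun_prop
    refine ((integrable_wt (d := d)).const_mul K).mono' c1.aestronglyMeasurable
      (Eventually.of_forall fun z => ?_)
    have hz := w_pos z
    rw [Real.norm_eq_abs, abs_of_nonneg (by positivity)]
    exact hK z
  have i3 := (i1.mul_prod i2).const_mul (wintW d)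
  have hm : Measurable fun q : Vec d × Vec d => G q.1 * G q.2 * wS s a β V v₀ q :=
    ((hGc.measurable.comp measurable_fst).mul (hGc.measurable.comp measurable_snd)).mul
      (wS_meas E.hβ1.le s a V v₀)
  refine i3.mono' hm.aestronglyMeasurable (Eventually.of_forall fun q => ?_)
  obtain ⟨v, w⟩ := q
  have h0 := wS_nonneg (s := s) (a := a) (β := β) hV v₀ (v, w)
  have hR1 := one_le_RR v w
  obtain ⟨o0, o1⟩ := om_RR (β := β) E.hβ1.le hV v w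
  have h1 : len (v - w) ^ (1 + a + 2 * s) ≤ (2 * RR v w) ^ 3 :=
    wint_len (by linarith [E.ha, E.hs]) (by push_cast; linarith [E.a1, E.hβ, E.hβ1]) v w
  have n1 : 0 ≤ len (v - w) ^ (1 + a + 2 * s) := Real.rpow_nonneg (len_nonneg _) _
  have n2 : 0 ≤ len (v - v₀) ^ (2 * (a - sP s a)) := Real.rpow_nonneg (len_nonneg _) _
  have h5 := wint_RR3 v w
  have hv := w_pos v
  have hw := w_pos w
  have h6 : (2 * RR v w) ^ 3 ≤ wintW d * ((1 + ‖v‖) ^ 3 * (1 + ‖w‖) ^ 3) := by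
    have h7 : 0 ≤ (2 * ((d : ℝ) + 1) ^ 2) ^ 3 * ((1 + ‖v‖) ^ 3 * (1 + ‖w‖) ^ 3) := by positivity
    calc (2 * RR v w) ^ 3 = 8 * RR v w ^ 3 := by ring
      _ ≤ 8 * ((2 * ((d : ℝ) + 1) ^ 2) ^ 3 * ((1 + ‖v‖) ^ 3 * (1 + ‖w‖) ^ 3)) := by linarith
      _ ≤ 16 * ((2 * ((d : ℝ) + 1) ^ 2) ^ 3 * ((1 + ‖v‖) ^ 3 * (1 + ‖w‖) ^ 3)) := by linarith
      _ = wintW d * ((1 + ‖v‖) ^ 3 * (1 + ‖w‖) ^ 3) := by unfold wintW; ring
  have h8 : wS s a β V v₀ (v, w) ≤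
      wintW d * ((1 + ‖v‖) ^ 3 * (1 + ‖w‖) ^ 3) * len (v - v₀) ^ (2 * (a - sP s a)) := by
    show len (v - w) ^ (1 + a + 2 * s) * len (v - v₀) ^ (2 * (a - sP s a)) * om β V (RR v w) ≤ _
    refine le_trans (mul_le_of_le_one_right (mul_nonneg n1 n2) o1) ?_
    exact mul_le_mul_of_nonneg_right (h1.trans h6) n2
  rw [norm_mul, norm_mul, Real.norm_eq_abs (wS s a β V v₀ (v, w)), abs_of_nonneg h0]
  calc ‖G v‖ * ‖G w‖ * wS s a β V v₀ (v, w)
      ≤ ‖G v‖ * ‖G w‖ * (wintW d * ((1 + ‖v‖) ^ 3 * (1 + ‖w‖) ^ 3) *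
          len (v - v₀) ^ (2 * (a - sP s a))) := mul_le_mul_of_nonneg_left h8 (by positivity)
    _ = wintW d * ((‖G v‖ * (1 + ‖v‖) ^ 3 * len (v - v₀) ^ (2 * (a - sP s a))) *
          (‖G w‖ * (1 + ‖w‖) ^ 3)) := by ring

private theorem wint_gau_pos (v : Vec d) : 0 < gau v := Real.exp_pos _

theorem XN_reg (E : EP0 s a β) (Cl : ℕ → ℝ) {η : ℝ} (hη : 0 < η) :
    ∃ δ₀ > 0, ∀ δ ∈ Ioc (0 : ℝ) δ₀, ∀ g : Vec d → ℝ, UNice Cl g → ∀ V : ℝ, 1 ≤ V →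
      XN a β V (fun v => g v + δ * gau v) ≤ XN a β V g + η := by
  obtain ⟨cg, hcg⟩ : ∃ c, ∀ v : Vec d, (1 + ‖v‖) ^ (d + 4) * ‖gau v‖ ≤ c :=
    (Pool.Agent.H15.AV.nice_gau (d := d)).rd (d + 4)
  set M : ℝ := max (max (Cl (d + 4)) cg) 0 with hM
  have hM0 : 0 ≤ M := le_max_right _ _
  have hMC : Cl (d + 4) ≤ M := (le_max_left _ _).trans (le_max_left _ _)
  have hMg : cg ≤ M := (le_max_right _ _).trans (le_max_left _ _)
  have hW0 : 0 ≤ wintW d := wintW_nonneg d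
  set I : ℝ := (∫ z, wt d z) * ∫ z, wt d z with hI
  have hI1 : 0 ≤ ∫ z, wt d z := integral_nonneg fun z => wt_nonneg z
  have hI0 : 0 ≤ I := mul_nonneg hI1 hI1
  set K : ℝ := 3 * (M * M) * wintW d with hK
  have hK0 : 0 ≤ K := by positivity
  have hKI : 0 ≤ K * I := mul_nonneg hK0 hI0
  refine ⟨min 1 (η / (K * I + 1)), lt_min one_pos (div_pos hη (by linarith)),
    fun δ hδ g hg V hV => ?_⟩
  have hδ0 : 0 < δ := hδ.1
  have hδ1 : δ ≤ 1 := hδ.2.trans (min_le_left _ _)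
  have hδ2 : δ * (K * I) ≤ η := by
    have h1 : δ ≤ η / (K * I + 1) := hδ.2.trans (min_le_right _ _)
    rw [le_div_iff₀ (by linarith)] at h1
    have h2 : δ * (K * I) ≤ δ * (K * I + 1) := mul_le_mul_of_nonneg_left (by linarith) hδ0.le
    linarith
  obtain ⟨hGrd, hGc, hGpos, -⟩ := reg_props hg hδ0 hδ1
  have iG := wN_int (V := V) E hGrd hGc hV
  have ig := wN_int (V := V) E hg.nice.rd hg.nice.cont hV
  have iw : Integrable fun p : Vec d × Vec d => wt d p.1 * wt d p.2 :=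
    (integrable_wt (d := d)).mul_prod integrable_wt
  have bg : ∀ v, g v * (1 + ‖v‖) ^ 3 ≤ M * wt d v := fun v => wint_b (n := d + 1) (by
    have h1 := hg.le (d + 4) v
    have h2 : 0 ≤ (1 + ‖v‖) ^ (d + 4) := pow_nonneg (w_pos v).le _
    have h3 : (1 + ‖v‖) ^ (d + 4) * g v ≤
        (1 + ‖v‖) ^ (d + 4) * (g v + ‖fderiv ℝ g v‖ + ‖fderiv ℝ (fderiv ℝ g) v‖) :=
      mul_le_mul_of_nonneg_left (by
        have := norm_nonneg (fderiv ℝ g v)
        have := norm_nonneg (fderiv ℝ (fderiv ℝ g) v)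
        linarith) h2
    show (1 + ‖v‖) ^ (d + 4) * g v ≤ M
    linarith)
  have bm : ∀ v, gau v * (1 + ‖v‖) ^ 3 ≤ M * wt d v := fun v => wint_b (n := d + 1) (by
    have h1 := hcg v
    rw [Real.norm_eq_abs, abs_of_pos (wint_gau_pos v)] at h1
    show (1 + ‖v‖) ^ (d + 4) * gau v ≤ M
    linarith)
  have key : ∀ p : Vec d × Vec d,
      (g p.1 + δ * gau p.1) * (g p.2 + δ * gau p.2) * wN a β V p ≤
      g p.1 * g p.2 * wN a β V p + δ * K * (wt d p.1 * wt d p.2) := by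
    rintro ⟨v, w⟩
    have hwv := w_pos v
    have hww := w_pos w
    have gv := hg.nonneg v
    have gw := hg.nonneg w
    have mv := (wint_gau_pos v).le
    have mw := (wint_gau_pos w).le
    have hwt0 := wN_nonneg (a := a) (β := β) hV (v, w)
    have hwt := wint_wN_le E hV v w
    have hS0 : 0 ≤ g v * gau w + gau v * g w + gau v * gau w := by positivity
    have hprod : (g v + δ * gau v) * (g w + δ * gau w) ≤
        g v * g w + δ * (g v * gau w + gau v * g w + gau v * gau w) := by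
      have h1 : δ * δ * (gau v * gau w) ≤ δ * (gau v * gau w) := by
        refine mul_le_mul_of_nonneg_right ?_ (mul_nonneg mv mw)
        nlinarith
      nlinarith
    have hterm : ∀ x y : ℝ, 0 ≤ x → 0 ≤ y → x * (1 + ‖v‖) ^ 3 ≤ M * wt d v →
        y * (1 + ‖w‖) ^ 3 ≤ M * wt d w →
        x * y * ((1 + ‖v‖) ^ 3 * (1 + ‖w‖) ^ 3) ≤ M * M * (wt d v * wt d w) := by
      intro x y hx hy h1 h2
      have h3 : 0 ≤ M * wt d v := mul_nonneg hM0 (wt_nonneg v)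
      have := mul_le_mul h1 h2 (mul_nonneg hy (pow_nonneg hww.le _)) h3
      calc x * y * ((1 + ‖v‖) ^ 3 * (1 + ‖w‖) ^ 3)
          = x * (1 + ‖v‖) ^ 3 * (y * (1 + ‖w‖) ^ 3) := by ring
        _ ≤ M * wt d v * (M * wt d w) := this
        _ = M * M * (wt d v * wt d w) := by ring
    have t1 := hterm (g v) (gau w) gv mw (bg v) (bm w)
    have t2 := hterm (gau v) (g w) mv gw (bm v) (bg w)
    have t3 := hterm (gau v) (gau w) mv mw (bm v) (bm w)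
    have hsum : (g v * gau w + gau v * g w + gau v * gau w) * wN a β V (v, w) ≤
        K * (wt d v * wt d w) := by
      have h1 := mul_le_mul_of_nonneg_left hwt hS0
      have h2 : (g v * gau w + gau v * g w + gau v * gau w) *
          ((1 + ‖v‖) ^ 3 * (1 + ‖w‖) ^ 3) ≤ 3 * (M * M * (wt d v * wt d w)) := by linarith
      have h3 := mul_le_mul_of_nonneg_left h2 hW0
      calc (g v * gau w + gau v * g w + gau v * gau w) * wN a β V (v, w)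
          ≤ (g v * gau w + gau v * g w + gau v * gau w) *
            (wintW d * ((1 + ‖v‖) ^ 3 * (1 + ‖w‖) ^ 3)) := h1
        _ = wintW d * ((g v * gau w + gau v * g w + gau v * gau w) *
            ((1 + ‖v‖) ^ 3 * (1 + ‖w‖) ^ 3)) := by ring
        _ ≤ wintW d * (3 * (M * M * (wt d v * wt d w))) := h3
        _ = K * (wt d v * wt d w) := by rw [hK]; ring
    have h1 := mul_le_mul_of_nonneg_right hprod hwt0
    have h2 := mul_le_mul_of_nonneg_left hsum hδ0.le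
    simp only
    calc (g v + δ * gau v) * (g w + δ * gau w) * wN a β V (v, w)
        ≤ (g v * g w + δ * (g v * gau w + gau v * g w + gau v * gau w)) * wN a β V (v, w) := h1
      _ = g v * g w * wN a β V (v, w) +
          δ * ((g v * gau w + gau v * g w + gau v * gau w) * wN a β V (v, w)) := by ring
      _ ≤ g v * g w * wN a β V (v, w) + δ * K * (wt d v * wt d w) := by
          linarith
  have hmono : XN a β V (fun v => g v + δ * gau v) ≤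
      ∫ p : Vec d × Vec d, (g p.1 * g p.2 * wN a β V p + δ * K * (wt d p.1 * wt d p.2)) := by
    unfold XN
    exact integral_mono iG (ig.add (iw.const_mul _)) key
  have hsplit : ∫ p : Vec d × Vec d, (g p.1 * g p.2 * wN a β V p +
      δ * K * (wt d p.1 * wt d p.2)) = XN a β V g + δ * K * I := by
    unfold XN
    rw [integral_add ig (iw.const_mul _), integral_const_mul, hI]
    congr 2
    exact integral_prod_mul (wt d) (wt d)
  have h4 : δ * K * I = δ * (K * I) := by ring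
  linarith

lemma XN_nonneg {G : Vec d → ℝ} (h0 : ∀ v, 0 ≤ G v) {V : ℝ} (hV : 1 ≤ V) : 0 ≤ XN a β V G :=
  integral_nonneg fun q => mul_nonneg (mul_nonneg (h0 _) (h0 _)) (wN_nonneg hV q)

lemma SS_nonneg {G : Vec d → ℝ} (h0 : ∀ v, 0 ≤ G v) {V : ℝ} (hV : 1 ≤ V) (v₀ : Vec d) :
    0 ≤ SS s a β V v₀ G :=
  integral_nonneg fun q => mul_nonneg (mul_nonneg (h0 _) (h0 _)) (wS_nonneg hV v₀ q)

lemma SS_mono (hd : 2 ≤ d) (E : EP0 s a β) {g G : Vec d → ℝ} (hg : RD g) (hgc : Continuous g)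
    (hG : RD G) (hGc : Continuous G) (h0 : ∀ v, 0 ≤ g v) (h1 : ∀ v, g v ≤ G v) {V : ℝ}
    (hV : 1 ≤ V) (v₀ : Vec d) : SS s a β V v₀ g ≤ SS s a β V v₀ G := by
  unfold SS
  refine integral_mono (wS_int hd E hg hgc hV v₀) (wS_int hd E hG hGc hV v₀) fun q => ?_
  exact mul_le_mul_of_nonneg_right
    (mul_le_mul (h1 _) (h1 _) (h0 _) ((h0 _).trans (h1 _))) (wS_nonneg hV v₀ q)

end Pool.Agent.H87.PZ
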