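import Pool.Agent.H87.PZ.AngC
import Pool.Agent.H87.PZ.WInt

/-!
# Module IntC: the increments of a cusp function against `B G G_*`

`maj` (Base) for `X = dX ψ ^ 2`, `|dX ψ|`, `(ψ v' - ψ v)²`, `1` (measurable, `PB`: `cu_cont`/`h.meas`, `cu_PG`, `dX_meas`, `dX_PB`, `PB_mul`; see H87/PE/IntH.lean, the proofs of `int_far`, `int_near`, `int_inc`, `int_neg`).
With `P = len^(1+a+2s)(1 + ρ^(-b') + ρ₂^(-b'))`: `len^(1+a+2s) om ≤ wN` (`len^(2s) ≤ 1 + len^β`), `len^(1+a+2s) ρ^(-b') om = wS q`, `len^(1+a+2s) ρ₂^(-b') om = wS (q.2, q.1)` (`RR_comm`, `len` symmetric), and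
`∫ G G_* wS (q.2,q.1) = SS` (`integral_prod_swap` / `Measure.prod` swap; `measurePreserving_swap`), so `∫ GG_* P om = XN + 2 SS` at most.
* `int_nr`: on `Sn`: `om β V₁ (RR)² ≤ om β V₁ R₁²` (`om_mono'`), `len^(2(s'-s)) ≤ (2 R₁)^(2(s'-s)) ≤ (2 R₁)^2 = 4 R₁²` (`EP0.d0`, `EP0.d2`, `len_le_RR`), and `1 = om β 1 (RR)` (`om_one`, `one_le_RR`); outside of `Sn` the inner integral is over the empty set.
* `int_md`: `{σ : (v,w,σ) ∈ Sm} = {N y < 1}` if `R₁ < RR`, empty else; `om β V₁ (RR)² ≤ om β V₁ (RR) ≤ om β (max V₁ R₁) (RR)` (`om_max'`).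
* `int_dr`: `|∫ kx dX| ≤ ∫ kx |dX|`, `ang_dir`, `len^(1+a+β) ≤ len^(1+a)(1+len^β)`. * `int_cb`: `ang_cb`, `om β 1 (RR) = 1`. * `int_ng`: `ang_ng`, `len^(1+a) ≤ wN` (`om_one`).
* `GG_le'`: `len^(1+a) ≤ wN a β 1`.
-/

set_option autoImplicit false

open MeasureTheory Set Filter Topology Pool.Agent.H25.Kin Pool.Agent.H48.PL
open Pool.Agent.H48.PI (om)
open Pool.Agent.H48.PW (sP)
open Pool.Agent.H87.PE
open Pool.Agent.H87.PF (wN XN wS SS AnnS PrN PrS WA Sn Sm Sd)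

namespace Pool.Agent.H87.PZ

variable {d : ℕ} {s a β τ C Ca : ℝ} {b : ℝ → ℝ}

/-! ### the majorant -/

private noncomputable def Pw (s a : ℝ) (v₀ v w : Vec d) : ℝ :=
  len (v - w) ^ (1 + a + 2 * s) *
    (1 + len (v - v₀) ^ (2 * (a - sP s a)) + len (w - v₀) ^ (2 * (a - sP s a)))

private noncomputable def MM (s a β V : ℝ) (v₀ : Vec d) (G : Vec d → ℝ) (q : Vec d × Vec d) : ℝ :=
  G q.1 * G q.2 * wN a β V q + G q.1 * G q.2 * wS s a β V v₀ q +
    G q.2 * G q.1 * wS s a β V v₀ (q.2, q.1)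

private lemma Pw_nonneg (v₀ v w : Vec d) : 0 ≤ Pw s a v₀ v w := by
  unfold Pw
  have h1 : 0 ≤ len (v - v₀) ^ (2 * (a - sP s a)) := Real.rpow_nonneg (len_nonneg _) _
  have h2 : 0 ≤ len (w - v₀) ^ (2 * (a - sP s a)) := Real.rpow_nonneg (len_nonneg _) _
  exact mul_nonneg (Real.rpow_nonneg (len_nonneg _) _) (by linarith)

private lemma MM_integrable (hd : 2 ≤ d) (E : EP0 s a β) {G : Vec d → ℝ} (hG : RD G)
    (hGc : Continuous G) {V : ℝ} (hV : 1 ≤ V) (v₀ : Vec d) : Integrable (MM s a β V v₀ G) := by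
  have i1 := wN_int E hG hGc hV
  have i2 := wS_int hd E hG hGc hV v₀
  have i3 : Integrable fun q : Vec d × Vec d => G q.2 * G q.1 * wS s a β V v₀ (q.2, q.1) :=
    i2.swap
  exact (i1.add i2).add i3

private lemma MM_integral (hd : 2 ≤ d) (E : EP0 s a β) {G : Vec d → ℝ} (hG : RD G)
    (hGc : Continuous G) {V : ℝ} (hV : 1 ≤ V) (v₀ : Vec d) :
    ∫ q, MM s a β V v₀ G q = XN a β V G + 2 * SS s a β V v₀ G := by
  have i1 := wN_int E hG hGc hV
  have i2 := wS_int hd E hG hGc hV v₀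
  have i3 : Integrable fun q : Vec d × Vec d => G q.2 * G q.1 * wS s a β V v₀ (q.2, q.1) :=
    i2.swap
  have e3 : ∫ q : Vec d × Vec d, G q.2 * G q.1 * wS s a β V v₀ (q.2, q.1) = SS s a β V v₀ G :=
    integral_prod_swap (μ := (volume : Measure (Vec d))) (ν := (volume : Measure (Vec d)))
      (fun q : Vec d × Vec d => G q.1 * G q.2 * wS s a β V v₀ q)
  have e1 : ∫ q, MM s a β V v₀ G q =
      (∫ q : Vec d × Vec d, (G q.1 * G q.2 * wN a β V q + G q.1 * G q.2 * wS s a β V v₀ q)) +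
        ∫ q : Vec d × Vec d, G q.2 * G q.1 * wS s a β V v₀ (q.2, q.1) :=
    integral_add (i1.add i2) i3
  have e2 : ∫ q : Vec d × Vec d, (G q.1 * G q.2 * wN a β V q + G q.1 * G q.2 * wS s a β V v₀ q) =
      XN a β V G + SS s a β V v₀ G := integral_add i1 i2
  rw [e1, e2, e3]
  ring

private lemma len_pow_le (E : EP0 s a β) (v w : Vec d) :
    len (v - w) ^ (1 + a + 2 * s) ≤ len (v - w) ^ (1 + a) * (1 + len (v - w) ^ β) := by
  have hL := len_nonneg (v - w)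
  rw [Real.rpow_add_of_nonneg hL (by linarith [E.ha]) (by linarith [E.hs])]
  refine mul_le_mul_of_nonneg_left ?_ (Real.rpow_nonneg hL _)
  rcases le_total (len (v - w)) 1 with h | h
  · have h1 : len (v - w) ^ (2 * s) ≤ 1 := Real.rpow_le_one hL h (by linarith [E.hs])
    have h2 : 0 ≤ len (v - w) ^ β := Real.rpow_nonneg hL _
    linarith
  · have h1 : len (v - w) ^ (2 * s) ≤ len (v - w) ^ β :=
      Real.rpow_le_rpow_of_exponent_le h E.hβ.le
    linarith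

private lemma Pw_le (E : EP0 s a β) {V : ℝ} (hV : 1 ≤ V) (v₀ v w : Vec d) :
    Pw s a v₀ v w * om β V (RR v w) ≤
      wN a β V (v, w) + wS s a β V v₀ (v, w) + wS s a β V v₀ (w, v) := by
  have h0 := om_nn (β := β) hV (RR_pos v w).le
  have h1 := mul_le_mul_of_nonneg_right (len_pow_le E v w) h0
  have e1 : wN a β V (v, w) =
      len (v - w) ^ (1 + a) * (1 + len (v - w) ^ β) * om β V (RR v w) := rfl
  have e2 : wS s a β V v₀ (v, w) = len (v - w) ^ (1 + a + 2 * s) *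
      len (v - v₀) ^ (2 * (a - sP s a)) * om β V (RR v w) := rfl
  have e3 : wS s a β V v₀ (w, v) = len (v - w) ^ (1 + a + 2 * s) *
      len (w - v₀) ^ (2 * (a - sP s a)) * om β V (RR v w) := by
    show len (w - v) ^ (1 + a + 2 * s) *
      len (w - v₀) ^ (2 * (a - sP s a)) * om β V (RR w v) = _
    rw [len_comm w v, RR_comm w v]
  rw [e1, e2, e3]
  unfold Pw
  calc len (v - w) ^ (1 + a + 2 * s) *
        (1 + len (v - v₀) ^ (2 * (a - sP s a)) + len (w - v₀) ^ (2 * (a - sP s a))) *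
        om β V (RR v w)
      = len (v - w) ^ (1 + a + 2 * s) * om β V (RR v w) +
        len (v - w) ^ (1 + a + 2 * s) * len (v - v₀) ^ (2 * (a - sP s a)) * om β V (RR v w) +
        len (v - w) ^ (1 + a + 2 * s) * len (w - v₀) ^ (2 * (a - sP s a)) * om β V (RR v w) := by
        ring
    _ ≤ _ := by linarith

private lemma MM_ge (E : EP0 s a β) {V : ℝ} (hV : 1 ≤ V) {G : Vec d → ℝ} (h0 : ∀ v, 0 ≤ G v)
    (v₀ v w : Vec d) :
    G v * G w * (Pw s a v₀ v w * om β V (RR v w)) ≤ MM s a β V v₀ G (v, w) := by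
  have h1 := mul_le_mul_of_nonneg_left (Pw_le E hV v₀ v w) (mul_nonneg (h0 v) (h0 w))
  refine h1.trans (le_of_eq ?_)
  show _ = G v * G w * wN a β V (v, w) + G v * G w * wS s a β V v₀ (v, w) +
    G w * G v * wS s a β V v₀ (w, v)
  ring

private lemma MM_nonneg {V : ℝ} (hV : 1 ≤ V) {G : Vec d → ℝ} (h0 : ∀ v, 0 ≤ G v)
    (v₀ : Vec d) (q : Vec d × Vec d) : 0 ≤ MM s a β V v₀ G q := by
  unfold MM
  have h1 := mul_nonneg (mul_nonneg (h0 q.1) (h0 q.2)) (wN_nonneg (a := a) (β := β) hV q)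
  have h2 := mul_nonneg (mul_nonneg (h0 q.1) (h0 q.2))
    (wS_nonneg (s := s) (a := a) (β := β) hV v₀ q)
  have h3 := mul_nonneg (mul_nonneg (h0 q.2) (h0 q.1))
    (wS_nonneg (s := s) (a := a) (β := β) hV v₀ (q.2, q.1))
  linarith

/-- `maj` with the majorant `c MM` -/
private lemma majM (H : Hyp d (1 + a) s b C Ca) (E : EP0 s a β) {ε : ℝ} (hε : 0 < ε)
    {G : Vec d → ℝ} (hG : RD G) (hGc : Continuous G) (h0 : ∀ v, 0 ≤ G v)
    {X : Vec d × Vec d × Vec d → ℝ} (hX : Measurable X)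
    (hB : PB X) {S : Set (Vec d × Vec d × Vec d)} (hS : MeasurableSet S) (v₀ : Vec d) {V : ℝ}
    (hV : 1 ≤ V) {c : ℝ} (hc : 0 ≤ c) (hle : ∀ v w : Vec d, v ≠ w → v ≠ v₀ → w ≠ v₀ →
      ∫ σ in {σ : Vec d | (v, w, σ) ∈ S}, kerB (1 + a) b ε v w σ * X (v, w, σ) ∂(surf d) ≤
        c * (Pw s a v₀ v w * om β V (RR v w))) :
    ∫ p in S, kx (1 + a) b ε G p * X p ∂(mu3 d) ≤
      2 * c * (XN a β V G + SS s a β V v₀ G) := by
  have hi := MM_integrable H.hd E hG hGc hV v₀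
  have e2 := maj H hε hG hGc hX hB hS v₀ (M := fun q => c * MM s a β V v₀ G q)
    (hi.const_mul c) ?_
  · refine e2.trans ?_
    rw [integral_const_mul, MM_integral H.hd E hG hGc hV v₀]
    have h1 := mul_nonneg hc (XN_nonneg (a := a) (β := β) h0 hV)
    calc c * (XN a β V G + 2 * SS s a β V v₀ G)
        = 2 * c * (XN a β V G + SS s a β V v₀ G) - c * XN a β V G := by ring
      _ ≤ _ := by linarith
  · intro v w h1 h2 h3
    have h4 := mul_le_mul_of_nonneg_left (hle v w h1 h2 h3) (mul_nonneg (h0 v) (h0 w))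
    have h5 := mul_le_mul_of_nonneg_left (MM_ge E hV h0 v₀ v w) hc
    refine h4.trans (le_trans (le_of_eq ?_) h5)
    ring

private lemma dX_pair {ψ : Vec d → ℝ} (hm : Measurable ψ) (hp : PG ψ) :
    Measurable (fun p : Vec d × Vec d × Vec d => dX ψ p ^ 2) ∧
      PB (fun p : Vec d × Vec d × Vec d => dX ψ p ^ 2) := by
  have hXm : Measurable (dX ψ) := dX_meas hm
  have hXB : PB (dX ψ) := dX_PB hp
  refine ⟨hXm.pow_const 2, ?_⟩
  have := PB_mul hXB hXB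
  simpa only [sq] using this

theorem int_nr (H : Hyp d (1 + a) s b C Ca) (E : EP0 s a β) (T : TP s a τ) : ∃ K : ℝ, 0 ≤ K ∧
    ∀ G : Vec d → ℝ, RD G → Continuous G → (∀ v, 0 ≤ G v) → ∀ ε : ℝ, 0 < ε → ∀ V₁ : ℝ, 1 ≤ V₁ →
    ∀ R₁ : ℝ, 1 ≤ R₁ → ∀ A : ℝ, 0 ≤ A → ∀ (v₀ : Vec d) (ψ : Vec d → ℝ), CuspT τ a β v₀ V₁ A ψ →
    ∫ p in Sn d R₁, kx (1 + a) b ε G p * dX ψ p ^ 2 ∂(mu3 d) ≤
      K * A ^ 2 * (R₁ ^ 2 * om β V₁ R₁ ^ 2) * (XN a β 1 G + SS s a β 1 v₀ G) := by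
  obtain ⟨K, hK0, hK⟩ := ang_near (τ := τ) H E T
  refine ⟨10 * K, by positivity, fun G hG hGc h0 ε hε V₁ hV₁ R₁ hR₁ A hA v₀ ψ hψ => ?_⟩
  obtain ⟨hXm, hXB⟩ := dX_pair hψ.meas (cu_PG E hV₁ hA hψ)
  have hc : 0 ≤ 5 * K * A ^ 2 * (R₁ ^ 2 * om β V₁ R₁ ^ 2) := by positivity
  have e := majM H E hε hG hGc h0 hXm hXB (Sn_meas R₁) v₀ le_rfl hc ?_
  · refine e.trans (le_of_eq ?_)
    ring
  · intro v w hvw hv hw
    have hR0 := RR_pos v w
    by_cases hR : RR v w ≤ R₁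
    · have hset : {σ : Vec d | (v, w, σ) ∈ Sn d R₁} = univ := by
        ext σ
        simp only [mem_ofPred_eq, mem_univ, iff_true]
        exact hR
      rw [hset, Measure.restrict_univ]
      have h5 := hK v₀ V₁ hV₁ A hA ψ hψ ε hε v w hvw hv hw
      have h6 : om β V₁ (RR v w) ^ 2 ≤ om β V₁ R₁ ^ 2 :=
        pow_le_pow_left₀ (om_nn hV₁ hR0.le) (om_mono' E.hβ1.le hV₁ hR0.le hR) 2
      have h7 : 1 + len (v - w) ^ (2 * (sP s a - s)) ≤ 5 * R₁ ^ 2 := by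
        have h7' : len (v - w) ^ (2 * (sP s a - s)) ≤ 4 * R₁ ^ 2 := by
         calc len (v - w) ^ (2 * (sP s a - s))
            ≤ (2 * R₁) ^ (2 * (sP s a - s)) :=
              Real.rpow_le_rpow (len_nonneg _) ((len_le_two v w).trans (by linarith)) E.d0
          _ ≤ (2 * R₁) ^ (2 : ℝ) := Real.rpow_le_rpow_of_exponent_le (by linarith) E.d2
          _ = 4 * R₁ ^ 2 := by
              rw [show (2 : ℝ) = ((2 : ℕ) : ℝ) by norm_num, Real.rpow_natCast]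
              push_cast
              ring
        nlinarith
      have h8 := Pw_nonneg (s := s) (a := a) v₀ v w
      rw [om_one (one_le_RR v w), mul_one]
      calc ∫ σ, kerB (1 + a) b ε v w σ * dX ψ (v, w, σ) ^ 2 ∂(surf d)
          ≤ K * A ^ 2 * om β V₁ (RR v w) ^ 2 * (len (v - w) ^ (1 + a + 2 * s) *
              (1 + len (v - w) ^ (2 * (sP s a - s))) * (1 + len (v - v₀) ^ (2 * (a - sP s a)) +
              len (w - v₀) ^ (2 * (a - sP s a)))) := h5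
        _ = K * A ^ 2 * (om β V₁ (RR v w) ^ 2 * (1 + len (v - w) ^ (2 * (sP s a - s)))) *
              Pw s a v₀ v w := by
            unfold Pw
            ring
        _ ≤ K * A ^ 2 * (om β V₁ R₁ ^ 2 * (5 * R₁ ^ 2)) * Pw s a v₀ v w := by
            refine mul_le_mul_of_nonneg_right (mul_le_mul_of_nonneg_left ?_ (by positivity)) h8
            exact mul_le_mul h6 h7 (add_nonneg zero_le_one (Real.rpow_nonneg (len_nonneg _) _))
              (sq_nonneg _)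
        _ = 5 * K * A ^ 2 * (R₁ ^ 2 * om β V₁ R₁ ^ 2) * Pw s a v₀ v w := by ring
    · have hset : {σ : Vec d | (v, w, σ) ∈ Sn d R₁} = ∅ := by
        ext σ
        simp only [mem_ofPred_eq, mem_empty_iff_false, iff_false]
        exact hR
      rw [hset, setIntegral_empty]
      exact mul_nonneg hc (mul_nonneg (Pw_nonneg v₀ v w) (om_nn le_rfl hR0.le))

theorem int_md (H : Hyp d (1 + a) s b C Ca) (E : EP0 s a β) (T : TP s a τ) : ∃ K : ℝ, 0 ≤ K ∧
    ∀ G : Vec d → ℝ, RD G → Continuous G → (∀ v, 0 ≤ G v) → ∀ ε : ℝ, 0 < ε → ∀ V₁ : ℝ, 1 ≤ V₁ →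
    ∀ R₁ : ℝ, 1 ≤ R₁ → ∀ A : ℝ, 0 ≤ A → ∀ (v₀ : Vec d) (ψ : Vec d → ℝ), CuspT τ a β v₀ V₁ A ψ →
    ∫ p in Sm d R₁, kx (1 + a) b ε G p * dX ψ p ^ 2 ∂(mu3 d) ≤
      K * A ^ 2 * (XN a β (max V₁ R₁) G + SS s a β (max V₁ R₁) v₀ G) := by
  obtain ⟨K, hK0, hK⟩ := ang_mid (τ := τ) H E T
  refine ⟨2 * K, by positivity, fun G hG hGc h0 ε hε V₁ hV₁ R₁ hR₁ A hA v₀ ψ hψ => ?_⟩
  obtain ⟨hXm, hXB⟩ := dX_pair hψ.meas (cu_PG E hV₁ hA hψ)
  have hmx : 1 ≤ max V₁ R₁ := hV₁.trans (le_max_left _ _)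
  have hc : 0 ≤ K * A ^ 2 := by positivity
  have e := majM H E hε hG hGc h0 hXm hXB (Sm_meas R₁) v₀ hmx hc ?_
  · refine e.trans (le_of_eq ?_)
    ring
  · intro v w hvw hv hw
    have hR0 := RR_pos v w
    by_cases hR : R₁ < RR v w
    · have hset : {σ : Vec d | (v, w, σ) ∈ Sm d R₁} =
          {σ : Vec d | nsq (v - w) * (1 - cosTh v w σ) < 1} := by
        ext σ
        exact ⟨fun h => h.2, fun h => ⟨hR, h⟩⟩
      rw [hset]
      have h5 := hK v₀ V₁ hV₁ A hA ψ hψ ε hε v w hvw hv hw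
      have o0 := om_nn (β := β) hV₁ hR0.le
      have o1 := om_le1 (β := β) E.hβ1.le hV₁ hR0.le
      have o2 := om_max' (β := β) E.hβ1.le hV₁ hR₁ hR
      have h6 : om β V₁ (RR v w) ^ 2 ≤ om β (max V₁ R₁) (RR v w) := by nlinarith
      have h8 := Pw_nonneg (s := s) (a := a) v₀ v w
      calc ∫ σ in {σ : Vec d | nsq (v - w) * (1 - cosTh v w σ) < 1},
              kerB (1 + a) b ε v w σ * dX ψ (v, w, σ) ^ 2 ∂(surf d)
          ≤ K * A ^ 2 * om β V₁ (RR v w) ^ 2 * Pw s a v₀ v w := h5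
        _ ≤ K * A ^ 2 * om β (max V₁ R₁) (RR v w) * Pw s a v₀ v w :=
            mul_le_mul_of_nonneg_right (mul_le_mul_of_nonneg_left h6 hc) h8
        _ = K * A ^ 2 * (Pw s a v₀ v w * om β (max V₁ R₁) (RR v w)) := by ring
    · have hset : {σ : Vec d | (v, w, σ) ∈ Sm d R₁} = ∅ := by
        ext σ
        simp only [mem_ofPred_eq, mem_empty_iff_false, iff_false]
        exact fun h => hR h.1
      rw [hset, setIntegral_empty]
      exact mul_nonneg hc (mul_nonneg (Pw_nonneg v₀ v w) (om_nn hmx hR0.le))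

theorem int_dr (H : Hyp d (1 + a) s b C Ca) (E : EP0 s a β) : ∃ K : ℝ, 0 ≤ K ∧
    ∀ G : Vec d → ℝ, RD G → Continuous G → (∀ v, 0 ≤ G v) → ∀ ε : ℝ, 0 < ε → ∀ V₁ : ℝ, 1 ≤ V₁ →
    ∀ R₁ : ℝ, 1 ≤ R₁ → ∀ A : ℝ, 0 ≤ A → ∀ (v₀ : Vec d) (ψ : Vec d → ℝ), CuspT τ a β v₀ V₁ A ψ →
    |∫ p in Sd d R₁, kx (1 + a) b ε G p * dX ψ p ∂(mu3 d)| ≤
      K * A * XN a β (max V₁ R₁) G := by
  obtain ⟨K, hK0, hK⟩ := ang_dir (τ := τ) H E
  refine ⟨K, hK0, fun G hG hGc h0 ε hε V₁ hV₁ R₁ hR₁ A hA v₀ ψ hψ => ?_⟩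
  have hXm : Measurable (dX ψ) := dX_meas hψ.meas
  have hXB : PB (dX ψ) := dX_PB (cu_PG E hV₁ hA hψ)
  have hXm' : Measurable fun p => |dX ψ p| := hXm.abs
  have hXB' : PB fun p => |dX ψ p| := by
    obtain ⟨N, B, hB0, hB⟩ := hXB
    refine ⟨N, B, hB0, fun v w σ hσ => ?_⟩
    rw [abs_abs]
    exact hB v w σ hσ
  have hmx : 1 ≤ max V₁ R₁ := hV₁.trans (le_max_left _ _)
  have hKA : 0 ≤ K * A := mul_nonneg hK0 hA
  have e1 : |∫ p in Sd d R₁, kx (1 + a) b ε G p * dX ψ p ∂(mu3 d)| ≤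
      ∫ p in Sd d R₁, kx (1 + a) b ε G p * |dX ψ p| ∂(mu3 d) := by
    rw [← Real.norm_eq_abs]
    refine (norm_integral_le_integral_norm _).trans (le_of_eq ?_)
    refine integral_congr_ae ?_
    refine ae_restrict_of_ae ?_
    filter_upwards [kx_nonneg H hε h0] with p hp
    rw [norm_mul, Real.norm_eq_abs, Real.norm_eq_abs, abs_of_nonneg hp]
  refine e1.trans ?_
  have e2 := maj H hε hG hGc hXm' hXB' (Sd_meas R₁) v₀
    (M := fun q => K * A * (G q.1 * G q.2 * wN a β (max V₁ R₁) q))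
    ((wN_int E hG hGc hmx).const_mul (K * A)) ?_
  · refine e2.trans (le_of_eq ?_)
    rw [integral_const_mul]
    rfl
  · intro v w hvw _ _
    have hGG : 0 ≤ G v * G w := mul_nonneg (h0 v) (h0 w)
    have hR0 := RR_pos v w
    by_cases hR : R₁ < RR v w
    · have hset : {σ : Vec d | (v, w, σ) ∈ Sd d R₁} =
          {σ : Vec d | 1 ≤ nsq (v - w) * (1 - cosTh v w σ)} := by
        ext σ
        exact ⟨fun h => h.2, fun h => ⟨hR, h⟩⟩
      rw [hset]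
      have h5 := hK v₀ V₁ hV₁ A hA ψ hψ ε hε v w hvw
      have o0 := om_nn (β := β) hmx hR0.le
      have o2 := om_max' (β := β) E.hβ1.le hV₁ hR₁ hR
      have hL := len_nonneg (v - w)
      have hL1 : 0 ≤ len (v - w) ^ (1 + a) := Real.rpow_nonneg hL _
      have h6 : len (v - w) ^ (1 + a + β) ≤ len (v - w) ^ (1 + a) * (1 + len (v - w) ^ β) := by
        rw [Real.rpow_add_of_nonneg hL (by linarith [E.ha]) E.β0.le]
        nlinarith
      have h7 : om β V₁ (RR v w) * len (v - w) ^ (1 + a + β) ≤ wN a β (max V₁ R₁) (v, w) := by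
        calc om β V₁ (RR v w) * len (v - w) ^ (1 + a + β)
            ≤ om β (max V₁ R₁) (RR v w) * (len (v - w) ^ (1 + a) * (1 + len (v - w) ^ β)) :=
              mul_le_mul o2 h6 (Real.rpow_nonneg hL _) o0
          _ = wN a β (max V₁ R₁) (v, w) := by
              unfold wN
              ring
      have h8 := mul_le_mul_of_nonneg_left h7 hKA
      have h9 : ∫ σ in {σ : Vec d | 1 ≤ nsq (v - w) * (1 - cosTh v w σ)},
          kerB (1 + a) b ε v w σ * |dX ψ (v, w, σ)| ∂(surf d) ≤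
          K * A * wN a β (max V₁ R₁) (v, w) := by
        refine h5.trans (le_trans (le_of_eq ?_) h8)
        ring
      refine (mul_le_mul_of_nonneg_left h9 hGG).trans (le_of_eq ?_)
      ring
    · have hset : {σ : Vec d | (v, w, σ) ∈ Sd d R₁} = ∅ := by
        ext σ
        simp only [mem_ofPred_eq, mem_empty_iff_false, iff_false]
        exact fun h => hR h.1
      rw [hset, setIntegral_empty, mul_zero]
      exact mul_nonneg hKA (mul_nonneg hGG (wN_nonneg hmx _))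

theorem int_cb (H : Hyp d (1 + a) s b C Ca) (E : EP0 s a β) (T : TP s a τ) : ∃ K : ℝ, 0 ≤ K ∧
    ∀ G : Vec d → ℝ, RD G → Continuous G → (∀ v, 0 ≤ G v) → ∀ ε : ℝ, 0 < ε →
    ∀ A : ℝ, 0 ≤ A → ∀ (v₀ : Vec d) (ψ : Vec d → ℝ), CuspBT τ a v₀ A ψ →
    ∫ p, kx (1 + a) b ε G p * (ψ (post p.1 p.2.1 p.2.2) - ψ p.1) ^ 2 ∂(mu3 d) ≤
      K * A ^ 2 * (XN a β 1 G + SS s a β 1 v₀ G) := by
  obtain ⟨K, hK0, hK⟩ := ang_cb (τ := τ) H E T
  refine ⟨2 * K, by positivity, fun G hG hGc h0 ε hε A hA v₀ ψ hψ => ?_⟩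
  have hXm : Measurable fun p : Vec d × Vec d × Vec d =>
      (ψ (post p.1 p.2.1 p.2.2) - ψ p.1) ^ 2 := by
    have hp : Measurable fun p : Vec d × Vec d × Vec d => post p.1 p.2.1 p.2.2 :=
      continuous_post.measurable
    exact ((hψ.meas.comp hp).sub (hψ.meas.comp measurable_fst)).pow_const 2
  have hXB : PB fun p : Vec d × Vec d × Vec d => (ψ (post p.1 p.2.1 p.2.2) - ψ p.1) ^ 2 := by
    refine ⟨0, (2 * A) ^ 2, sq_nonneg _, fun v w σ _ => ?_⟩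
    rw [pow_zero, mul_one, abs_of_nonneg (sq_nonneg _)]
    have h4 := abs_le.1 (hψ.h0 (post v w σ))
    have h5 := abs_le.1 (hψ.h0 v)
    exact sq_le_sq' (by linarith) (by linarith)
  have hc : 0 ≤ K * A ^ 2 := by positivity
  have e := majM H E hε hG hGc h0 hXm hXB MeasurableSet.univ v₀ le_rfl hc ?_
  · rw [Measure.restrict_univ] at e
    refine e.trans (le_of_eq ?_)
    ring
  · intro v w hvw hv hw
    have hset : {σ : Vec d | (v, w, σ) ∈ (univ : Set (Vec d × Vec d × Vec d))} = univ := by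
      ext σ
      simp
    rw [hset, Measure.restrict_univ, om_one (one_le_RR v w), mul_one]
    refine (hK v₀ A hA ψ hψ ε hε v w hvw hv).trans (mul_le_mul_of_nonneg_left ?_ hc)
    unfold Pw
    refine mul_le_mul_of_nonneg_left ?_ (Real.rpow_nonneg (len_nonneg _) _)
    have h2 : 0 ≤ len (w - v₀) ^ (2 * (a - sP s a)) := Real.rpow_nonneg (len_nonneg _) _
    linarith

private lemma len_le_wN (v w : Vec d) : len (v - w) ^ (1 + a) ≤ wN a β 1 (v, w) := by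
  have hL := len_nonneg (v - w)
  have h1 : 0 ≤ len (v - w) ^ (1 + a) := Real.rpow_nonneg hL _
  have h2 : 0 ≤ len (v - w) ^ β := Real.rpow_nonneg hL _
  show _ ≤ len (v - w) ^ (1 + a) * (1 + len (v - w) ^ β) * om β 1 (RR v w)
  rw [om_one (one_le_RR v w), mul_one]
  nlinarith

theorem int_ng (H : Hyp d (1 + a) s b C Ca) (E : EP0 s a β) : ∃ K : ℝ, 0 ≤ K ∧
    ∀ G : Vec d → ℝ, RD G → Continuous G → (∀ v, 0 ≤ G v) → ∀ ε : ℝ, 0 < ε →
    ∫ p in (Hf d)ᶜ, kx (1 + a) b ε G p ∂(mu3 d) ≤ K * XN a β 1 G := by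
  obtain ⟨K, hK0, hK⟩ := ang_ng H
  refine ⟨K, hK0, fun G hG hGc hG0 ε hε => ?_⟩
  have hXB : PB fun _ : Vec d × Vec d × Vec d => (1 : ℝ) :=
    ⟨0, 1, zero_le_one, fun v w σ _ => by simp⟩
  have e2 := maj H hε hG hGc (X := fun _ => (1 : ℝ)) measurable_const hXB (Hf_meas (d := d)).compl
    0 (M := fun q => K * (G q.1 * G q.2 * wN a β 1 q)) ((wN_int E hG hGc le_rfl).const_mul _) ?_
  · simp only [mul_one] at e2
    refine e2.trans (le_of_eq ?_)
    rw [integral_const_mul]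
    rfl
  · intro v w hvw _ _
    have hGG : 0 ≤ G v * G w := mul_nonneg (hG0 v) (hG0 w)
    have hset : {σ : Vec d | (v, w, σ) ∈ (Hf d)ᶜ} = {σ : Vec d | cosTh v w σ < 0} := by
      ext σ
      show ¬ (0 ≤ cosTh v w σ) ↔ cosTh v w σ < 0
      exact not_le
    rw [hset]
    simp only [mul_one]
    have h4 := mul_le_mul_of_nonneg_left (len_le_wN (a := a) (β := β) v w) hK0
    have h5 := mul_le_mul_of_nonneg_left ((hK ε hε v w hvw).trans h4) hGG
    refine h5.trans (le_of_eq ?_)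
    ring

theorem GG_le' (E : EP0 s a β) {G : Vec d → ℝ} (hG : RD G) (hGc : Continuous G)
    (h0 : ∀ v, 0 ≤ G v) : GG (1 + a) G ≤ XN a β 1 G := by
  unfold GG XN
  refine integral_mono_of_nonneg (Eventually.of_forall fun q => ?_) (wN_int E hG hGc le_rfl)
    (Eventually.of_forall fun q => ?_)
  · exact mul_nonneg (mul_nonneg (h0 _) (h0 _)) (Real.rpow_nonneg (len_nonneg _) _)
  · exact mul_le_mul_of_nonneg_left (len_le_wN q.1 q.2) (mul_nonneg (h0 _) (h0 _))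

end Pool.Agent.H87.PZ
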